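import Mathlib

set_option autoImplicit false

open scoped ENNReal

namespace Pool.Agent.TH323.Girth

noncomputable section

/-- reduced words of length at most `L` in three letters -/
abbrev T (L : ℕ) : Type := {w : List (Fin 3) // w.IsChain (· ≠ ·) ∧ w.length ≤ L}

instance (L : ℕ) : Finite (T L) :=
  ((List.finite_length_le (Fin 3) L).subset fun w (hw : w.IsChain (· ≠ ·) ∧ w.length ≤ L) =>
    hw.2).to_subtype

/-- multiplication by the letter `i`, as a map of words -/
def mulFun (L : ℕ) (i : Fin 3) (w : List (Fin 3)) : List (Fin 3) :=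
  match w with
  | [] => if 0 < L then [i] else []
  | a :: u => if a = i then u else if u.length + 1 < L then i :: a :: u else a :: u

theorem mulFun_chain (L : ℕ) (i : Fin 3) (w : List (Fin 3)) (hw : w.IsChain (· ≠ ·)) :
    (mulFun L i w).IsChain (· ≠ ·) := by
  cases w with
  | nil =>
    simp only [mulFun]
    split_ifs
    · exact List.IsChain.singleton _
    · exact List.IsChain.nil
  | cons a u =>
    simp only [mulFun]
    split_ifs with h1 h2
    · exact (List.isChain_cons.1 hw).2
    · exact List.IsChain.cons_cons (fun h => h1 h.symm) hw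
    · exact hw

theorem mulFun_length (L : ℕ) (i : Fin 3) (w : List (Fin 3)) (hw : w.length ≤ L) :
    (mulFun L i w).length ≤ L := by
  cases w with
  | nil =>
    simp only [mulFun]
    split_ifs with h
    · simp; omega
    · simp
  | cons a u =>
    simp only [mulFun]
    simp only [List.length_cons] at hw
    split_ifs with h1 h2
    · omega
    · simp only [List.length_cons]; omega
    · simp only [List.length_cons]; omega

theorem mulFun_length_succ (L : ℕ) (i : Fin 3) (w : List (Fin 3)) :
    (mulFun L i w).length ≤ w.length + 1 := by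
  cases w with
  | nil =>
    simp only [mulFun]
    split_ifs with h
    · simp
    · simp
  | cons a u =>
    simp only [mulFun]
    split_ifs with h1 h2
    · simp only [List.length_cons]; omega
    · simp only [List.length_cons]; omega
    · simp only [List.length_cons]; omega

theorem mulFun_mulFun (L : ℕ) (i : Fin 3) (w : List (Fin 3)) (hc : w.IsChain (· ≠ ·))
    (hw : w.length ≤ L) : mulFun L i (mulFun L i w) = w := by
  cases w with
  | nil =>
    by_cases h : 0 < L
    · simp [mulFun, h]
    · simp [mulFun, h]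
  | cons a u =>
    simp only [List.length_cons] at hw
    by_cases h1 : a = i
    · subst h1
      have h2 : mulFun L a (a :: u) = u := by simp [mulFun]
      rw [h2]
      cases u with
      | nil =>
        have : 0 < L := by omega
        simp [mulFun, this]
      | cons b u' =>
        have hab : b ≠ a := by
          have := (List.isChain_cons.1 hc).1 b (by simp)
          exact fun h => this h.symm
        simp only [List.length_cons] at hw
        have h3 : u'.length + 1 < L := by omega
        simp [mulFun, hab, h3]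
    · by_cases h2 : u.length + 1 < L
      · have h3 : mulFun L i (a :: u) = i :: a :: u := by simp [mulFun, h1, h2]
        rw [h3]
        simp [mulFun]
      · have h3 : mulFun L i (a :: u) = a :: u := by simp [mulFun, h1, h2]
        rw [h3, h3]

/-- the three involutions -/
def s (L : ℕ) (i : Fin 3) : Equiv.Perm (T L) :=
  Function.Involutive.toPerm
    (fun w => ⟨mulFun L i w.1, mulFun_chain L i w.1 w.2.1, mulFun_length L i w.1 w.2.2⟩)
    (fun w => Subtype.ext (mulFun_mulFun L i w.1 w.2.1 w.2.2))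

theorem s_apply (L : ℕ) (i : Fin 3) (w : T L) : (s L i w).1 = mulFun L i w.1 := rfl

theorem s_mul_s (L : ℕ) (i : Fin 3) : s L i * s L i = 1 := by
  ext1 w
  apply Subtype.ext
  rw [Equiv.Perm.mul_apply, s_apply, s_apply]
  exact mulFun_mulFun L i w.1 w.2.1 w.2.2

theorem s_inv (L : ℕ) (i : Fin 3) : (s L i)⁻¹ = s L i := inv_eq_of_mul_eq_one_left (s_mul_s L i)

/-- the empty word -/
def root (L : ℕ) : T L := ⟨[], List.IsChain.nil, Nat.zero_le _⟩

/-- the group element given by a word -/
def ev (L : ℕ) (w : List (Fin 3)) : Equiv.Perm (T L) := (w.map (s L)).prod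

theorem ev_nil (L : ℕ) : ev L [] = 1 := rfl

theorem ev_cons (L : ℕ) (i : Fin 3) (w : List (Fin 3)) : ev L (i :: w) = s L i * ev L w := by
  simp [ev]

theorem ev_append (L : ℕ) (v w : List (Fin 3)) : ev L (v ++ w) = ev L v * ev L w := by
  simp [ev]

theorem ev_reverse (L : ℕ) (w : List (Fin 3)) : ev L w.reverse = (ev L w)⁻¹ := by
  induction w with
  | nil => simp [ev]
  | cons i w ih =>
    rw [List.reverse_cons, ev_append, ih, ev_cons L i w, mul_inv_rev, s_inv]
    simp [ev]

theorem length_ev_root (L : ℕ) (w : List (Fin 3)) : (ev L w (root L)).1.length ≤ w.length := by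
  induction w with
  | nil => simp [ev, root]
  | cons i w ih =>
    rw [ev_cons, Equiv.Perm.mul_apply, s_apply, List.length_cons]
    exact (mulFun_length_succ L i _).trans (by omega)

theorem wl_exists (L : ℕ) (g : Equiv.Perm (T L)) :
    ∃ n : ℕ, L + 1 ≤ n ∨ ∃ w : List (Fin 3), w.length ≤ n ∧ ev L w = g := ⟨L + 1, Or.inl le_rfl⟩

open Classical in
/-- the word length, cut off at `L + 1` -/
def wl (L : ℕ) (g : Equiv.Perm (T L)) : ℕ := Nat.find (wl_exists L g)

theorem wl_spec (L : ℕ) (g : Equiv.Perm (T L)) :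
    L + 1 ≤ wl L g ∨ ∃ w : List (Fin 3), w.length ≤ wl L g ∧ ev L w = g := by
  classical
  exact Nat.find_spec (wl_exists L g)

theorem wl_le (L : ℕ) (g : Equiv.Perm (T L)) : wl L g ≤ L + 1 := by
  classical
  exact Nat.find_min' _ (Or.inl le_rfl)

theorem wl_ev_le (L : ℕ) (w : List (Fin 3)) : wl L (ev L w) ≤ w.length := by
  classical
  exact Nat.find_min' _ (Or.inr ⟨w, le_rfl, rfl⟩)

theorem wl_one (L : ℕ) : wl L 1 = 0 := by
  have := wl_ev_le L []
  rw [ev_nil] at this
  simpa using this

theorem eq_one_of_wl (L : ℕ) (g : Equiv.Perm (T L)) (h : wl L g = 0) : g = 1 := by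
  rcases wl_spec L g with h1 | ⟨w, hw, rfl⟩
  · omega
  · rw [h] at hw
    have : w = [] := List.length_eq_zero_iff.1 (by omega)
    rw [this, ev_nil]

theorem wl_inv_le (L : ℕ) (g : Equiv.Perm (T L)) : wl L g⁻¹ ≤ wl L g := by
  rcases wl_spec L g with h1 | ⟨w, hw, rfl⟩
  · exact (wl_le L _).trans h1
  · rw [← ev_reverse]
    refine (wl_ev_le L _).trans ?_
    rwa [List.length_reverse]

theorem wl_inv (L : ℕ) (g : Equiv.Perm (T L)) : wl L g⁻¹ = wl L g := by
  apply le_antisymm (wl_inv_le L g)
  have := wl_inv_le L g⁻¹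
  rwa [inv_inv] at this

theorem wl_mul (L : ℕ) (g h : Equiv.Perm (T L)) : wl L (g * h) ≤ wl L g + wl L h := by
  rcases wl_spec L g with h1 | ⟨v, hv, hv'⟩
  · exact (wl_le L _).trans (by omega)
  rcases wl_spec L h with h1 | ⟨w, hw, hw'⟩
  · exact (wl_le L _).trans (by omega)
  have h2 : g * h = ev L (v ++ w) := by rw [ev_append, hv', hw']
  rw [h2]
  refine (wl_ev_le L _).trans ?_
  rw [List.length_append]
  omega

/-- the space: the disjoint union of the finite groups -/
structure X : Type where
  /-- the number of the component -/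
  fst : ℕ
  /-- the group element -/
  snd : Equiv.Perm (T fst)

instance : Countable X :=
  Function.Injective.countable (f := fun x : X => (⟨x.1, x.2⟩ : Σ L : ℕ, Equiv.Perm (T L)))
    (by
      rintro ⟨L, g⟩ ⟨M, h⟩ hxy
      simp only [Sigma.mk.injEq] at hxy
      obtain ⟨rfl, h2⟩ := hxy
      rw [eq_of_heq h2])

open Classical in
/-- the distance function -/
def d (x y : X) : ℕ :=
  if h : x.1 = y.1 then wl y.1 ((h ▸ x.2)⁻¹ * y.2) else max x.1 y.1 + 1

theorem d_same (L : ℕ) (g h : Equiv.Perm (T L)) :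
    d (⟨L, g⟩ : X) (⟨L, h⟩ : X) = wl L (g⁻¹ * h) := by
  unfold d
  rw [dif_pos rfl]

theorem d_ne (x y : X) (h : x.1 ≠ y.1) : d x y = max x.1 y.1 + 1 := by
  unfold d
  rw [dif_neg h]

theorem d_self (x : X) : d x x = 0 := by
  obtain ⟨L, g⟩ := x
  rw [d_same, inv_mul_cancel, wl_one]

theorem d_comm (x y : X) : d x y = d y x := by
  obtain ⟨L, g⟩ := x
  obtain ⟨M, h⟩ := y
  by_cases hLM : L = M
  · subst hLM
    rw [d_same, d_same, ← wl_inv, mul_inv_rev, inv_inv]
  · rw [d_ne _ _ hLM, d_ne _ _ (Ne.symm hLM), max_comm]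

theorem eq_of_d (x y : X) (h : d x y = 0) : x = y := by
  obtain ⟨L, g⟩ := x
  obtain ⟨M, k⟩ := y
  by_cases hLM : L = M
  · subst hLM
    rw [d_same] at h
    have := eq_one_of_wl L _ h
    rw [inv_mul_eq_one] at this
    rw [this]
  · rw [d_ne _ _ hLM] at h
    omega

theorem d_le (x y : X) : d x y ≤ max x.1 y.1 + 1 := by
  obtain ⟨L, g⟩ := x
  obtain ⟨M, h⟩ := y
  by_cases hLM : L = M
  · subst hLM
    rw [d_same]
    simpa using wl_le L _
  · rw [d_ne _ _ hLM]

theorem d_triangle (x y z : X) : d x z ≤ d x y + d y z := by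
  obtain ⟨L, g⟩ := x
  obtain ⟨M, h⟩ := y
  obtain ⟨N, k⟩ := z
  by_cases hLM : L = M
  · subst hLM
    by_cases hLN : L = N
    · subst hLN
      rw [d_same, d_same, d_same]
      have := wl_mul L (g⁻¹ * h) (h⁻¹ * k)
      rwa [mul_assoc, mul_inv_cancel_left] at this
    · rw [d_ne _ _ hLN, d_ne ⟨L, h⟩ ⟨N, k⟩ hLN]
      simp
  · have h1 := d_le ⟨L, g⟩ ⟨N, k⟩
    rw [d_ne ⟨L, g⟩ ⟨M, h⟩ hLM]
    by_cases hMN : M = N
    · subst hMN
      simp only at h1 ⊢
      omega
    · rw [d_ne ⟨M, h⟩ ⟨N, k⟩ hMN]
      simp only at h1 ⊢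
      omega

instance : MetricSpace X where
  dist x y := d x y
  dist_self x := by rw [d_self]; simp
  dist_comm x y := by rw [d_comm]
  dist_triangle x y z := by
    exact_mod_cast d_triangle x y z
  eq_of_dist_eq_zero := by
    intro x y h
    have h' : ((d x y : ℕ) : ℝ) = 0 := h
    exact eq_of_d x y (by exact_mod_cast h')

theorem dist_eq (x y : X) : dist x y = (d x y : ℝ) := rfl

instance : MeasurableSpace X := borel X
instance : BorelSpace X := ⟨rfl⟩

theorem bounded_geometry (R : ℝ) : ∃ N : ℕ, ∀ x : X,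
    (Metric.ball x R).Finite ∧ (Metric.ball x R).ncard ≤ N := by
  classical
  obtain ⟨n, hn⟩ := exists_nat_ge R
  have hfin : {x : X | x.1 ≤ n}.Finite := by
    have : {x : X | x.1 ≤ n} = ⋃ L ∈ Set.Iic n, Set.range (fun g => (⟨L, g⟩ : X)) := by
      ext ⟨L, g⟩
      simp only [Set.mem_ofPred_eq, Set.mem_iUnion, Set.mem_Iic, Set.mem_range, exists_prop]
      constructor
      · intro h
        exact ⟨L, h, g, rfl⟩
      · rintro ⟨M, hM, k, hk⟩
        have := congrArg X.fst hk
        simp only at this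
        omega
    rw [this]
    exact (Set.finite_Iic n).biUnion fun L _ => Set.finite_range _
  have hW : {w : List (Fin 3) | w.length ≤ n}.Finite := List.finite_length_le (Fin 3) n
  refine ⟨{w : List (Fin 3) | w.length ≤ n}.ncard + {x : X | x.1 ≤ n}.ncard, fun x => ?_⟩
  have hsub : Metric.ball x R ⊆
      (fun w => (⟨x.1, x.2 * ev x.1 w⟩ : X)) '' {w : List (Fin 3) | w.length ≤ n} ∪
        {x : X | x.1 ≤ n} := by
    intro y hy
    rw [Metric.mem_ball, dist_comm, dist_eq] at hy
    have hy' : d x y < n := by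
      have : (d x y : ℝ) < n := lt_of_lt_of_le hy hn
      exact_mod_cast this
    obtain ⟨L, g⟩ := x
    obtain ⟨M, h⟩ := y
    by_cases hLM : L = M
    · subst hLM
      rw [d_same] at hy'
      rcases wl_spec L (g⁻¹ * h) with h1 | ⟨w, hw, hw'⟩
      · right
        simp only [Set.mem_ofPred_eq]
        omega
      · left
        refine ⟨w, by simp only [Set.mem_ofPred_eq]; omega, ?_⟩
        simp only
        rw [hw', mul_inv_cancel_left]
    · right
      rw [d_ne _ _ hLM] at hy'
      simp only [Set.mem_ofPred_eq] at hy' ⊢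
      omega
  have hfin2 := (hW.image (fun w => (⟨x.1, x.2 * ev x.1 w⟩ : X))).union hfin
  refine ⟨hfin2.subset hsub, ?_⟩
  calc (Metric.ball x R).ncard ≤ _ := Set.ncard_le_ncard hsub hfin2
    _ ≤ _ := Set.ncard_union_le _ _
    _ ≤ _ := Nat.add_le_add_right (Set.ncard_image_le hW) _

theorem mulFun_head (L : ℕ) (i : Fin 3) (w : List (Fin 3)) (hw : w.length < L)
    (hi : w.head? ≠ some i) : (mulFun L i w).head? = some i := by
  cases w with
  | nil =>
    have : 0 < L := by simpa using hw
    simp [mulFun, this]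
  | cons a u =>
    have h1 : a ≠ i := fun h => hi (by simp [h])
    have h2 : u.length + 1 < L := by simpa using hw
    simp [mulFun, h1, h2]

open Classical in
/-- the first letter of the word from `x` to the point `p` -/
def letter (L : ℕ) (x : Equiv.Perm (T L)) (p : X) : Option (Fin 3) :=
  if h : p.1 = L then ((x⁻¹ * (h ▸ p.2)) (root L)).1.head? else none

theorem letter_eq (L : ℕ) (x z : Equiv.Perm (T L)) :
    letter L x ⟨L, z⟩ = ((x⁻¹ * z) (root L)).1.head? := by
  unfold letter
  rw [dif_pos rfl]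

theorem letter_or (L n : ℕ) (hn : n < L) (x : Equiv.Perm (T L)) (i : Fin 3) (p : X)
    (hp : d p ⟨L, x⟩ ≤ n) : letter L x p = some i ∨ letter L (x * s L i) p = some i := by
  obtain ⟨M, z⟩ := p
  by_cases hML : M = L
  · subst hML
    rw [letter_eq, letter_eq, mul_inv_rev, s_inv, mul_assoc, Equiv.Perm.mul_apply (s M i), s_apply]
    rw [d_same] at hp
    have hp' : wl M (x⁻¹ * z) ≤ n := by
      rw [← wl_inv, mul_inv_rev, inv_inv]
      exact hp
    rcases wl_spec M (x⁻¹ * z) with h1 | ⟨w, hw, hw'⟩
    · omega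
    · rw [← hw']
      by_cases hi : (ev M w (root M)).1.head? = some i
      · left; exact hi
      · right
        apply mulFun_head _ _ _ _ hi
        have := length_ev_root M w
        omega
  · rw [d_ne _ _ hML] at hp
    simp only at hp
    omega

/-- the space does not have property A -/
theorem not_propertyA :
    ¬ (∀ R : ℝ, 0 < R → ∀ ε : ℝ, 0 < ε →
        ∃ S : ℝ, ∃ A : X → Set (X × ℕ),
          (∀ x, (A x).Finite) ∧ (∀ x, (x, 0) ∈ A x) ∧
          (∀ x, ∀ w ∈ A x, dist w.1 x ≤ S) ∧
          ∀ x y, dist x y < R →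
            ((symmDiff (A x) (A y)).ncard : ℝ) < ε * ((A x ∩ A y).ncard : ℝ)) := by
  classical
  intro h
  obtain ⟨S, A, hfin, h0, hS, hsym⟩ := h 2 (by norm_num) (1 / 4) (by norm_num)
  obtain ⟨n, hn⟩ := exists_nat_ge S
  let L := n + 1
  let G := Equiv.Perm (T L)
  have : Fintype G := Fintype.ofFinite G
  let a : G → Finset (X × ℕ) := fun x => (hfin ⟨L, x⟩).toFinset
  let b : G → Fin 3 → Finset (X × ℕ) := fun x i => (a x).filter fun w => letter L x w.1 = some i
  have hapos : ∀ x, (0 : ℝ) < (a x).card := by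
    intro x
    have : (a x).Nonempty := ⟨(⟨L, x⟩, 0), by simpa [a] using h0 ⟨L, x⟩⟩
    exact_mod_cast this.card_pos
  have hsum : ∀ x, ∑ i : Fin 3, ((b x i).card : ℝ) ≤ (a x).card := by
    intro x
    have h1 := Finset.card_eq_sum_card_fiberwise (s := a x) (t := (Finset.univ : Finset (Option (Fin 3))))
      (f := fun w => letter L x w.1) (fun _ _ => Finset.mem_coe.2 (Finset.mem_univ _))
    rw [Fintype.sum_option] at h1
    have h2 : ∑ i : Fin 3, (b x i).card ≤ (a x).card := by
      rw [h1]
      exact Nat.le_add_left _ _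
    exact_mod_cast h2
  have hpair : ∀ x i, 4 / 5 ≤ ((b x i).card : ℝ) / (a x).card +
      ((b (x * s L i) i).card : ℝ) / (a (x * s L i)).card := by
    intro x i
    have hd : dist (⟨L, x⟩ : X) ⟨L, x * s L i⟩ < 2 := by
      rw [dist_eq, d_same, inv_mul_cancel_left]
      have h1 : wl L (s L i) ≤ 1 := by
        have := wl_ev_le L [i]
        rw [ev_cons, ev_nil, mul_one] at this
        simpa using this
      have h2 : (wl L (s L i) : ℝ) ≤ 1 := by exact_mod_cast h1
      linarith
    have h1 := hsym _ _ hd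
    set y := x * s L i with hy
    have e1 : (A ⟨L, x⟩ ∩ A ⟨L, y⟩).ncard = (a x ∩ a y).card := by
      rw [← Set.ncard_coe_finset, Finset.coe_inter]
      simp [a]
    have e2 : (symmDiff (A ⟨L, x⟩) (A ⟨L, y⟩)).ncard = (symmDiff (a x) (a y)).card := by
      rw [← Set.ncard_coe_finset, Finset.coe_symmDiff]
      simp [a]
    rw [e1, e2] at h1
    have h2 : ((a x).card : ℝ) ≤ (a x ∩ a y).card + (symmDiff (a x) (a y)).card := by
      have : a x ⊆ (a x ∩ a y) ∪ symmDiff (a x) (a y) := by
        intro w hw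
        rw [Finset.mem_union, Finset.mem_inter, Finset.mem_symmDiff]
        tauto
      exact_mod_cast (Finset.card_le_card this).trans (Finset.card_union_le _ _)
    have h3 : ((a y).card : ℝ) ≤ (a x ∩ a y).card + (symmDiff (a x) (a y)).card := by
      have : a y ⊆ (a x ∩ a y) ∪ symmDiff (a x) (a y) := by
        intro w hw
        rw [Finset.mem_union, Finset.mem_inter, Finset.mem_symmDiff]
        tauto
      exact_mod_cast (Finset.card_le_card this).trans (Finset.card_union_le _ _)
    have h4 : ((a x ∩ a y).card : ℝ) ≤ (b x i).card + (b y i).card := by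
      have : a x ∩ a y ⊆ b x i ∪ b y i := by
        intro w hw
        rw [Finset.mem_inter] at hw
        have hwx : w ∈ A ⟨L, x⟩ := by simpa [a] using hw.1
        have h5 := hS _ w hwx
        rw [dist_eq] at h5
        have h6 : d w.1 ⟨L, x⟩ ≤ n := by
          have : (d w.1 ⟨L, x⟩ : ℝ) ≤ n := h5.trans hn
          exact_mod_cast this
        rw [Finset.mem_union]
        rcases letter_or L n (Nat.lt_succ_self n) x i w.1 h6 with h7 | h7
        · left; exact Finset.mem_filter.2 ⟨hw.1, h7⟩
        · right; exact Finset.mem_filter.2 ⟨hw.2, h7⟩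
      exact_mod_cast (Finset.card_le_card this).trans (Finset.card_union_le _ _)
    have hm : (0 : ℝ) < (a x ∩ a y).card := by
      have := Nat.cast_nonneg (α := ℝ) (symmDiff (a x) (a y)).card
      nlinarith
    set m : ℝ := ((a x ∩ a y).card : ℝ) with hmdef
    have h5 : ((b x i).card : ℝ) / (5 / 4 * m) ≤ ((b x i).card : ℝ) / (a x).card :=
      div_le_div_of_nonneg_left (Nat.cast_nonneg _) (hapos x) (by linarith)
    have h6 : ((b y i).card : ℝ) / (5 / 4 * m) ≤ ((b y i).card : ℝ) / (a y).card :=
      div_le_div_of_nonneg_left (Nat.cast_nonneg _) (hapos y) (by linarith)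
    have h7 : 4 / 5 ≤ ((b x i).card : ℝ) / (5 / 4 * m) + ((b y i).card : ℝ) / (5 / 4 * m) := by
      rw [← add_div, le_div_iff₀ (by positivity)]
      linarith
    linarith
  have h1 : ∑ i : Fin 3, ∑ x : G, (4 / 5 : ℝ) ≤ ∑ i : Fin 3, ∑ x : G,
      (((b x i).card : ℝ) / (a x).card + ((b (x * s L i) i).card : ℝ) / (a (x * s L i)).card) :=
    Finset.sum_le_sum fun i _ => Finset.sum_le_sum fun x _ => hpair x i
  have h2 : ∀ i : Fin 3, ∑ x : G, ((b (x * s L i) i).card : ℝ) / (a (x * s L i)).card =
      ∑ x : G, ((b x i).card : ℝ) / (a x).card := fun i =>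
    Equiv.sum_comp (Equiv.mulRight (s L i)) fun x => ((b x i).card : ℝ) / (a x).card
  have h3 : ∑ i : Fin 3, ∑ x : G,
      (((b x i).card : ℝ) / (a x).card + ((b (x * s L i) i).card : ℝ) / (a (x * s L i)).card) =
      2 * ∑ i : Fin 3, ∑ x : G, ((b x i).card : ℝ) / (a x).card := by
    rw [Finset.mul_sum]
    refine Finset.sum_congr rfl fun i _ => ?_
    rw [Finset.sum_add_distrib, h2 i]
    ring
  have h4 : ∑ i : Fin 3, ∑ x : G, ((b x i).card : ℝ) / (a x).card ≤ ∑ x : G, (1 : ℝ) := by
    rw [Finset.sum_comm]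
    refine Finset.sum_le_sum fun x _ => ?_
    rw [← Finset.sum_div, div_le_one (hapos x)]
    exact hsum x
  rw [h3] at h1
  simp only [Finset.sum_const, Finset.card_univ, Fintype.card_fin, nsmul_eq_mul, mul_one] at h1 h4
  have h5 : (0 : ℝ) < Fintype.card G := by exact_mod_cast Fintype.card_pos
  push_cast at h1
  linarith

end

end Pool.Agent.TH323.Girth
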