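import Mathlib

set_option autoImplicit false
set_option linter.unusedSectionVars false

open MeasureTheory Filter Topology
open scoped ENNReal

namespace Pool.Agent.TH323.Onl

section Lone

variable {X E : Type} [MeasurableSpace X] [MeasurableSingletonClass X] [Countable X]
  [NormedAddCommGroup E] [NormedSpace ℝ E] {ν : Measure X}

theorem of_ae {P : X → Prop} (h : ∀ᵐ z ∂ν, P z) (x : X) (hx : ν {x} ≠ 0) : P x := by
  by_contra hP
  rw [ae_iff] at h
  exact hx (measure_mono_null (Set.singleton_subset_iff.2 hP) h)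

theorem norm_eq (f : Lp E 1 ν) : ‖f‖ = ∑' x, ν.real {x} * ‖f x‖ := by
  rw [L1.norm_eq_integral_norm, integral_countable (L1.integrable_coeFn f).norm]
  rfl

theorem summable_norm (f : Lp E 1 ν) : Summable fun x => ν.real {x} * ‖f x‖ := by
  have h1 : Integrable (fun x => ‖f x‖) (Measure.sum fun a => ν {a} • Measure.dirac a) := by
    rw [Measure.sum_smul_dirac]
    exact (L1.integrable_coeFn f).norm
  have h2 := (hasSum_integral_measure h1).summable
  refine h2.congr fun x => ?_
  rw [integral_smul_measure, integral_dirac]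
  rfl

/-- the part of `g` at the point `x` -/
noncomputable def at' (g : Lp E 1 ν) (x : X) (hx : ν {x} ≠ ∞) : Lp E 1 ν :=
  indicatorConstLp 1 (measurableSet_singleton x) hx (g x)

theorem norm_at' (g : Lp E 1 ν) (x : X) (hx : ν {x} ≠ ∞) :
    ‖at' g x hx‖ = ν.real {x} * ‖g x‖ := by
  rw [at', norm_indicatorConstLp one_ne_zero ENNReal.one_ne_top]
  simp [mul_comm]

theorem tendsto_sum (g : Lp E 1 ν) (hν : ∀ x, ν {x} ≠ ∞) :
    Tendsto (fun s : Finset X => ∑ x ∈ s, at' g x (hν x)) atTop (𝓝 g) := by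
  classical
  rw [tendsto_iff_norm_sub_tendsto_zero]
  have h1 : ∀ s : Finset X, ‖∑ x ∈ s, at' g x (hν x) - g‖ =
      ∑' x : {x // x ∉ s}, ν.real {(x : X)} * ‖g x‖ := by
    intro s
    have h0 := tsum_subtype {x : X | x ∉ s} (fun x => ν.real {x} * ‖g x‖)
    rw [norm_sub_rev, norm_eq]
    refine Eq.trans ?_ h0.symm
    refine tsum_congr fun x => ?_
    by_cases hx : ν {x} = 0
    · have : ν.real {x} = 0 := by rw [measureReal_def, hx]; rfl
      rw [this, zero_mul]
      by_cases hxs : x ∈ s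
      · rw [Set.indicator_of_notMem (by simpa using hxs)]
      · rw [Set.indicator_of_mem (by simpa using hxs), this, zero_mul]
    · have hsum : (∑ y ∈ s, at' g y (hν y) : Lp E 1 ν) x = ∑ y ∈ s, at' g y (hν y) x := by
        have := of_ae (Lp.coeFn_finsetSum s (fun y => at' g y (hν y))) x hx
        rw [this, Finset.sum_apply]
      have hat : ∀ y, at' g y (hν y) x = Set.indicator {y} (fun _ => g y) x := fun y =>
        of_ae (indicatorConstLp_coeFn (p := 1) (hs := measurableSet_singleton y)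
          (hμs := hν y) (c := g y)) x hx
      have hsub := of_ae (Lp.coeFn_sub g (∑ y ∈ s, at' g y (hν y))) x hx
      rw [hsub, Pi.sub_apply, hsum]
      by_cases hxs : x ∈ s
      · rw [Set.indicator_of_notMem (by simpa using hxs), Finset.sum_eq_single x]
        · rw [hat, Set.indicator_of_mem (Set.mem_singleton x), sub_self, norm_zero, mul_zero]
        · intro y _ hy
          rw [hat, Set.indicator_of_notMem]
          simpa using hy.symm
        · intro h; exact absurd hxs h
      · rw [Set.indicator_of_mem (by simpa using hxs), Finset.sum_eq_zero, sub_zero]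
        intro y hy
        rw [hat, Set.indicator_of_notMem]
        intro h
        rw [Set.mem_singleton_iff] at h
        subst h
        exact hxs hy
  simp_rw [h1]
  exact tendsto_tsum_compl_atTop_zero (fun x => ν.real {x} * ‖g x‖)

theorem bound (T : Lp E 1 ν →L[ℝ] Lp E 1 ν) (M : ℝ) (hM : 0 ≤ M) (hν : ∀ x, ν {x} ≠ ∞)
    (hT : ∀ (x : X) (e : E),
      ‖T (indicatorConstLp 1 (measurableSet_singleton x) (hν x) e)‖ ≤
        M * ‖(indicatorConstLp 1 (measurableSet_singleton x) (hν x) e : Lp E 1 ν)‖) :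
    ‖T‖ ≤ M := by
  refine T.opNorm_le_bound hM fun g => ?_
  have h1 : Tendsto (fun s : Finset X => ‖T (∑ x ∈ s, at' g x (hν x))‖) atTop (𝓝 ‖T g‖) :=
    ((T.continuous.tendsto g).comp (tendsto_sum g hν)).norm
  refine le_of_tendsto h1 (Eventually.of_forall fun s => ?_)
  rw [map_sum]
  calc ‖∑ x ∈ s, T (at' g x (hν x))‖ ≤ ∑ x ∈ s, ‖T (at' g x (hν x))‖ := norm_sum_le _ _
    _ ≤ ∑ x ∈ s, M * ‖at' g x (hν x)‖ := Finset.sum_le_sum fun x _ => hT x _
    _ = M * ∑ x ∈ s, ν.real {x} * ‖g x‖ := by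
        rw [Finset.mul_sum]
        exact Finset.sum_congr rfl fun x _ => by rw [norm_at']
    _ ≤ M * ‖g‖ := by
        apply mul_le_mul_of_nonneg_left _ hM
        rw [norm_eq]
        exact (summable_norm g).sum_le_tsum s fun x _ => by positivity

/-- every operator on `L¹` of a countable space almost attains half of its norm at a point -/
theorem one_onl [Nontrivial E] (hν : ∀ x, ν {x} ≠ ∞) (hν0 : ν ≠ 0)
    (T : Lp E 1 ν →L[ℝ] Lp E 1 ν) :
    ∃ (ξ : Lp E 1 ν) (x : X), ξ ≠ 0 ∧ (∀ᵐ z ∂ν, z ∉ ({x} : Set X) → ξ z = 0) ∧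
      (1 / 2) * ‖T‖ * ‖ξ‖ ≤ ‖T ξ‖ := by
  by_contra hcon
  push Not at hcon
  have hloc : ∀ (x : X) (e : E), ∀ᵐ z ∂ν, z ∉ ({x} : Set X) →
      (indicatorConstLp 1 (measurableSet_singleton x) (hν x) e : Lp E 1 ν) z = 0 := by
    intro x e
    filter_upwards [indicatorConstLp_coeFn (p := 1) (hs := measurableSet_singleton x)
      (hμs := hν x) (c := e)] with z hz hzx
    rw [hz, Set.indicator_of_notMem hzx]
  have h1 : ‖T‖ ≤ (1 / 2) * ‖T‖ := by
    refine bound T _ (by positivity) hν fun x e => ?_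
    by_cases h0 : (indicatorConstLp 1 (measurableSet_singleton x) (hν x) e : Lp E 1 ν) = 0
    · rw [h0, map_zero, norm_zero, mul_zero]
    · exact (hcon _ x h0 (hloc x e)).le
  have h2 : ‖T‖ = 0 := by
    have := norm_nonneg T
    linarith
  obtain ⟨x, hx⟩ : ∃ x, ν {x} ≠ 0 := by
    by_contra hall
    push Not at hall
    apply hν0
    rw [← Measure.measure_univ_eq_zero, ← Set.iUnion_of_singleton, measure_iUnion_null_iff]
    exact hall
  obtain ⟨e, he⟩ := exists_ne (0 : E)
  have h3 : (indicatorConstLp 1 (measurableSet_singleton x) (hν x) e : Lp E 1 ν) ≠ 0 := by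
    rw [← norm_ne_zero_iff, norm_indicatorConstLp one_ne_zero ENNReal.one_ne_top]
    have h4 : ν.real {x} ≠ 0 := by
      rw [measureReal_def, ENNReal.toReal_ne_zero]
      exact ⟨hx, hν x⟩
    simp [he, h4]
  have h5 := hcon _ x h3 (hloc x e)
  rw [h2] at h5
  have := norm_nonneg (T (indicatorConstLp 1 (measurableSet_singleton x) (hν x) e))
  linarith

end Lone

end Pool.Agent.TH323.Onl
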