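import Pool.Agent.TH319.CDefs

/-!
Job 821 (helper319, MP_df72c7_an): three vectors with diagonal phases.
-/

set_option autoImplicit false

namespace Pool.Agent.TH319
open Module Filter Topology
universe u

theorem exists_D3 {X : Type*} [NormedAddCommGroup X] [NormedSpace ℂ X] [CompleteSpace X]
    [TopologicalSpace.SeparableSpace X] (hX : Homog ℂ X) (hinf : ¬ FiniteDimensional ℂ X)
    {ε : ℝ} (hε : 0 < ε) :
    ∃ (x : Fin 3 → X) (M : Submodule ℂ X), CI M ∧ (∀ i, ‖x i‖ = 1) ∧ D3 ε x M := by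
  obtain ⟨e, he0, he⟩ : ∃ e : ℝ, 0 < e ∧ (1 + e) * ((1 + e) * (1 + e)) ≤ 1 + ε := by
    refine ⟨min 1 (ε / 7), lt_min one_pos (by positivity), ?_⟩
    have h1 : min 1 (ε / 7) ≤ 1 := min_le_left _ _
    have h2 : min 1 (ε / 7) ≤ ε / 7 := min_le_right _ _
    have h3 : 0 < min 1 (ε / 7) := lt_min one_pos (by positivity)
    generalize min 1 (ε / 7) = t at h1 h2 h3
    have h4 : t * t ≤ t := by nlinarith
    have h5 : t * (t * t) ≤ t := by nlinarith
    nlinarith
  have htop : CI (⊤ : Submodule ℂ X) := by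
    constructor
    · simp
    · intro h
      exact hinf (LinearEquiv.finiteDimensional (Submodule.topEquiv (R := ℂ) (M := X)))
  obtain ⟨x0, -, hn0⟩ := exists_norm_one_of_inf (𝕜 := ℂ) htop.inf
  obtain ⟨M0, hM0, -, hP0⟩ := ph_complex hX (G := Submodule.span ℂ {x0})
    inferInstance htop he0
  obtain ⟨x1, hx1, hn1⟩ := exists_norm_one_of_inf (𝕜 := ℂ) hM0.inf
  obtain ⟨M1, hM1, hle1, hP1⟩ := ph_complex hX (G := Submodule.span ℂ {x0, x1})
    (FiniteDimensional.span_of_finite ℂ (Set.toFinite _)) hM0 he0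
  obtain ⟨x2, hx2, hn2⟩ := exists_norm_one_of_inf (𝕜 := ℂ) hM1.inf
  obtain ⟨M2, hM2, hle2, hP2⟩ := ph_complex hX (G := Submodule.span ℂ {x0, x1, x2})
    (FiniteDimensional.span_of_finite ℂ (Set.toFinite _)) hM1 he0
  refine ⟨![x0, x1, x2], M2, hM2, ?_, ?_⟩
  · intro i
    fin_cases i
    · exact hn0
    · exact hn1
    · exact hn2
  · intro z ζ hζ m hm
    have hz0 : ζ 0 ≠ 0 := by
      intro h
      have := hζ 0
      rw [h, norm_zero] at this
      exact zero_ne_one this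
    have hz1 : ζ 1 ≠ 0 := by
      intro h
      have := hζ 1
      rw [h, norm_zero] at this
      exact zero_ne_one this
    have hz2 : ζ 2 ≠ 0 := by
      intro h
      have := hζ 2
      rw [h, norm_zero] at this
      exact zero_ne_one this
    have hx1' : x1 ∈ M0 := hx1
    have hx2' : x2 ∈ M0 := hle1 hx2
    have hm1 : m ∈ M1 := hle2 hm
    have hm0 : m ∈ M0 := hle1 hm1
    simp only [Fin.sum_univ_three, Matrix.cons_val_zero, Matrix.cons_val_one, Matrix.cons_val_two,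
      Matrix.head_cons, Matrix.tail_cons, Matrix.cons_val]
    -- step A
    have hA : ‖(ζ 0 * z 0) • x0 + ζ 1 • (z 1 • x1 + z 2 • x2 + m)‖ ≤
        (1 + e) * ‖z 0 • x0 + z 1 • x1 + z 2 • x2 + m‖ := by
      have h := hP0 (ζ 1 / ζ 0) (by rw [norm_div, hζ 0, hζ 1, div_one]) ((ζ 0 * z 0) • x0)
        (Submodule.smul_mem _ _ (Submodule.mem_span_singleton_self x0))
        (ζ 0 • (z 1 • x1 + z 2 • x2 + m))
        (M0.smul_mem _ (M0.add_mem (M0.add_mem (M0.smul_mem _ hx1') (M0.smul_mem _ hx2')) hm0))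
      rw [smul_smul, div_mul_cancel₀ _ hz0] at h
      refine h.trans (le_of_eq ?_)
      have e1 : (ζ 0 * z 0) • x0 + ζ 0 • (z 1 • x1 + z 2 • x2 + m) =
          ζ 0 • (z 0 • x0 + z 1 • x1 + z 2 • x2 + m) := by
        simp only [smul_add, smul_smul]
        abel
      rw [e1, norm_smul, hζ 0, one_mul]
    have hB : ‖((ζ 0 * z 0) • x0 + (ζ 1 * z 1) • x1) + ζ 2 • (z 2 • x2 + m)‖ ≤
        (1 + e) * ‖(ζ 0 * z 0) • x0 + ζ 1 • (z 1 • x1 + z 2 • x2 + m)‖ := by
      have h := hP1 (ζ 2 / ζ 1) (by rw [norm_div, hζ 1, hζ 2, div_one])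
        ((ζ 0 * z 0) • x0 + (ζ 1 * z 1) • x1)
        (Submodule.add_mem _ (Submodule.smul_mem _ _ (Submodule.subset_span (by simp)))
          (Submodule.smul_mem _ _ (Submodule.subset_span (by simp))))
        (ζ 1 • (z 2 • x2 + m))
        (M1.smul_mem _ (M1.add_mem (M1.smul_mem _ hx2) hm1))
      rw [smul_smul, div_mul_cancel₀ _ hz1] at h
      refine h.trans (le_of_eq ?_)
      have e1 : ((ζ 0 * z 0) • x0 + (ζ 1 * z 1) • x1) + ζ 1 • (z 2 • x2 + m) =
          (ζ 0 * z 0) • x0 + ζ 1 • (z 1 • x1 + z 2 • x2 + m) := by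
        simp only [smul_add, smul_smul]
        abel
      rw [e1]
    have hC : ‖((ζ 0 * z 0) • x0 + (ζ 1 * z 1) • x1 + (ζ 2 * z 2) • x2) + m‖ ≤
        (1 + e) * ‖((ζ 0 * z 0) • x0 + (ζ 1 * z 1) • x1) + ζ 2 • (z 2 • x2 + m)‖ := by
      have h := hP2 (1 / ζ 2) (by rw [norm_div, hζ 2, norm_one, div_one])
        ((ζ 0 * z 0) • x0 + (ζ 1 * z 1) • x1 + (ζ 2 * z 2) • x2)
        (Submodule.add_mem _ (Submodule.add_mem _
          (Submodule.smul_mem _ _ (Submodule.subset_span (by simp)))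
          (Submodule.smul_mem _ _ (Submodule.subset_span (by simp))))
          (Submodule.smul_mem _ _ (Submodule.subset_span (by simp))))
        (ζ 2 • m) (M2.smul_mem _ hm)
      rw [smul_smul, div_mul_cancel₀ _ hz2, one_smul] at h
      refine h.trans (le_of_eq ?_)
      have e1 : ((ζ 0 * z 0) • x0 + (ζ 1 * z 1) • x1 + (ζ 2 * z 2) • x2) + ζ 2 • m =
          ((ζ 0 * z 0) • x0 + (ζ 1 * z 1) • x1) + ζ 2 • (z 2 • x2 + m) := by
        simp only [smul_add, smul_smul]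
        abel
      rw [e1]
    have he1 : 0 ≤ 1 + e := by linarith
    calc ‖(ζ 0 * z 0) • x0 + (ζ 1 * z 1) • x1 + (ζ 2 * z 2) • x2 + m‖
        ≤ (1 + e) * ((1 + e) * ((1 + e) * ‖z 0 • x0 + z 1 • x1 + z 2 • x2 + m‖)) :=
          hC.trans (mul_le_mul_of_nonneg_left
            (hB.trans (mul_le_mul_of_nonneg_left hA he1)) he1)
      _ = (1 + e) * ((1 + e) * (1 + e)) * ‖z 0 • x0 + z 1 • x1 + z 2 • x2 + m‖ := by ring
      _ ≤ (1 + ε) * ‖z 0 • x0 + z 1 • x1 + z 2 • x2 + m‖ :=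
          mul_le_mul_of_nonneg_right he (norm_nonneg _)

end Pool.Agent.TH319
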