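import Mathlib

/-!
# A Burkholder function

`U c r x y = (|y| - c|x|)(|x| + |y|)^(r-1)` is zigzag concave once `c` is large enough.
-/

namespace Pool.Agent.TH323.Burk

open Set

/-- The convex pieces. -/
noncomputable def Fp (c r a k t : ℝ) : ℝ :=
  (c - 1) * t ^ r + k * (c + 1) * a * t ^ (r - 1) - k * (c + 1) * a ^ (r - 1) * t
    - (c - 1) * a ^ r

lemma Fp_self {c r a k : ℝ} : Fp c r a k a = 0 := by
  unfold Fp
  have h : k * (c + 1) * a * a ^ (r - 1) = k * (c + 1) * a ^ (r - 1) * a := by ring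
  rw [h]; ring

lemma Fp_cont {c r a k : ℝ} (hr : 1 < r) : Continuous (Fp c r a k) := by
  unfold Fp
  have h1 : Continuous fun t : ℝ => t ^ r := Real.continuous_rpow_const (by linarith)
  have h2 : Continuous fun t : ℝ => t ^ (r - 1) := Real.continuous_rpow_const (by linarith)
  fun_prop

/-- first derivative -/
noncomputable def Fp1 (c r a k t : ℝ) : ℝ :=
  (c - 1) * (r * t ^ (r - 1)) + k * (c + 1) * a * ((r - 1) * t ^ (r - 2))
    - k * (c + 1) * a ^ (r - 1)

/-- second derivative -/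
noncomputable def Fp2 (c r a k t : ℝ) : ℝ :=
  (c - 1) * (r * ((r - 1) * t ^ (r - 2))) + k * (c + 1) * a * ((r - 1) * ((r - 2) * t ^ (r - 3)))

lemma Fp_deriv {c r a k t : ℝ} (ht : 0 < t) : HasDerivAt (Fp c r a k) (Fp1 c r a k t) t := by
  have h1 : HasDerivAt (fun t : ℝ => t ^ r) (r * t ^ (r - 1)) t :=
    Real.hasDerivAt_rpow_const (Or.inl ht.ne')
  have h2 : HasDerivAt (fun t : ℝ => t ^ (r - 1)) ((r - 1) * t ^ (r - 1 - 1)) t :=
    Real.hasDerivAt_rpow_const (Or.inl ht.ne')
  have h3 := (((h1.const_mul (c - 1)).add (h2.const_mul (k * (c + 1) * a))).sub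
    ((hasDerivAt_id t).const_mul (k * (c + 1) * a ^ (r - 1)))).sub_const ((c - 1) * a ^ r)
  have e : r - 1 - 1 = r - 2 := by ring
  rw [e] at h3
  exact h3.congr_deriv (by unfold Fp1; ring)

lemma Fp1_deriv {c r a k t : ℝ} (ht : 0 < t) :
    HasDerivAt (Fp1 c r a k) (Fp2 c r a k t) t := by
  have h1 : HasDerivAt (fun t : ℝ => t ^ (r - 1)) ((r - 1) * t ^ (r - 1 - 1)) t :=
    Real.hasDerivAt_rpow_const (Or.inl ht.ne')
  have h2 : HasDerivAt (fun t : ℝ => t ^ (r - 2)) ((r - 2) * t ^ (r - 2 - 1)) t :=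
    Real.hasDerivAt_rpow_const (Or.inl ht.ne')
  have h3 := (((h1.const_mul r).const_mul (c - 1)).add
    ((h2.const_mul (r - 1)).const_mul (k * (c + 1) * a))).sub_const (k * (c + 1) * a ^ (r - 1))
  have e : r - 1 - 1 = r - 2 := by ring
  have e' : r - 2 - 1 = r - 3 := by ring
  rw [e, e'] at h3
  unfold Fp2
  exact h3

/-- The assumptions on the constant. -/
structure Good (c r : ℝ) : Prop where
  hr : 1 < r
  h1 : 2 * r ≤ c
  h2 : r + 1 ≤ c * (r - 1)

lemma Fp2_nonneg {c r a k t : ℝ} (h : Good c r) (ha : 0 ≤ a) (hk : k = 1 ∨ k = -1)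
    (ht : 0 < t) (hat : a ≤ t) : 0 ≤ Fp2 c r a k t := by
  have hr := h.hr
  have h1 := h.h1
  have h2 := h.h2
  have e : t ^ (r - 2) = t * t ^ (r - 3) := by
    have : r - 2 = 1 + (r - 3) := by ring
    rw [this, Real.rpow_add ht, Real.rpow_one]
  unfold Fp2
  rw [e]
  have hp : 0 < t ^ (r - 3) := by positivity
  have e2 : (c - 1) * (r * ((r - 1) * (t * t ^ (r - 3))))
      + k * (c + 1) * a * ((r - 1) * ((r - 2) * t ^ (r - 3)))
      = ((r - 1) * t ^ (r - 3)) * ((c - 1) * r * t + k * (c + 1) * (r - 2) * a) := by ring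
  rw [e2]
  apply mul_nonneg (mul_nonneg (by linarith) hp.le)
  have h3 : 0 ≤ (c - 1) * r - (c + 1) * (r - 2) := by nlinarith
  have h4 : 0 ≤ (c - 1) * r + (c + 1) * (r - 2) := by nlinarith
  rcases hk with rfl | rfl
  · rcases le_or_gt 2 r with hr2 | hr2
    · have : 0 ≤ (c - 1) * r * t := mul_nonneg (mul_nonneg (by linarith) (by linarith)) ht.le
      have : 0 ≤ 1 * (c + 1) * (r - 2) * a :=
        mul_nonneg (mul_nonneg (by linarith) (by linarith)) ha
      linarith
    · have h5 : (c + 1) * (2 - r) * a ≤ (c + 1) * (2 - r) * t :=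
        mul_le_mul_of_nonneg_left hat (mul_nonneg (by linarith) (by linarith))
      nlinarith
  · rcases le_or_gt 2 r with hr2 | hr2
    · have h5 : (c + 1) * (r - 2) * a ≤ (c + 1) * (r - 2) * t :=
        mul_le_mul_of_nonneg_left hat (mul_nonneg (by linarith) (by linarith))
      nlinarith
    · have : 0 ≤ (c - 1) * r * t := mul_nonneg (mul_nonneg (by linarith) (by linarith)) ht.le
      have : 0 ≤ (c + 1) * (2 - r) * a :=
        mul_nonneg (mul_nonneg (by linarith) (by linarith)) ha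
      linarith

lemma Fp1_nonneg {c r a k t : ℝ} (h : Good c r) (ha : 0 ≤ a) (hk : k = 1 ∨ k = -1)
    (ht : 0 < t) (hat : a ≤ t) : 0 ≤ Fp1 c r a k t := by
  have hr := h.hr
  have h1 := h.h1
  have h2 := h.h2
  have e : t ^ (r - 1) = t * t ^ (r - 2) := by
    have : r - 1 = 1 + (r - 2) := by ring
    rw [this, Real.rpow_add ht, Real.rpow_one]
  have hp : 0 < t ^ (r - 2) := by positivity
  have hp1 : 0 < t ^ (r - 1) := by positivity
  have hmono : a ^ (r - 1) ≤ t ^ (r - 1) := Real.rpow_le_rpow ha hat (by linarith)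
  have hanon : 0 ≤ a ^ (r - 1) := by positivity
  unfold Fp1
  rcases hk with rfl | rfl
  · have k1 : 0 ≤ 1 * (c + 1) * a * ((r - 1) * t ^ (r - 2)) :=
      mul_nonneg (mul_nonneg (by linarith) ha) (mul_nonneg (by linarith) hp.le)
    have k2 : (c + 1) * a ^ (r - 1) ≤ (c + 1) * t ^ (r - 1) :=
      mul_le_mul_of_nonneg_left hmono (by linarith)
    have k3 : (c + 1) * t ^ (r - 1) ≤ (c - 1) * r * t ^ (r - 1) :=
      mul_le_mul_of_nonneg_right (by nlinarith) hp1.le
    linarith
  · have k1 : (c + 1) * (r - 1) * t ^ (r - 2) * a ≤ (c + 1) * (r - 1) * t ^ (r - 2) * t :=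
      mul_le_mul_of_nonneg_left hat
        (mul_nonneg (mul_nonneg (by linarith) (by linarith)) hp.le)
    have k2 : (c + 1) * (r - 1) * t ^ (r - 2) * t = (c + 1) * (r - 1) * t ^ (r - 1) := by
      rw [e]; ring
    have k3 : (c + 1) * (r - 1) * t ^ (r - 1) ≤ (c - 1) * r * t ^ (r - 1) :=
      mul_le_mul_of_nonneg_right (by nlinarith) hp1.le
    have k4 : 0 ≤ (c + 1) * a ^ (r - 1) := mul_nonneg (by linarith) hanon
    linarith

lemma Fp_convexOn {c r a k : ℝ} (h : Good c r) (ha : 0 ≤ a) (hk : k = 1 ∨ k = -1) :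
    ConvexOn ℝ (Ici a) (Fp c r a k) := by
  apply convexOn_of_hasDerivWithinAt2_nonneg (convex_Ici a) (f' := Fp1 c r a k)
    (f'' := Fp2 c r a k) (Fp_cont h.hr).continuousOn
  · intro x hx
    rw [interior_Ici] at hx
    exact (Fp_deriv (lt_of_le_of_lt ha hx)).hasDerivWithinAt
  · intro x hx
    rw [interior_Ici] at hx
    exact (Fp1_deriv (lt_of_le_of_lt ha hx)).hasDerivWithinAt
  · intro x hx
    rw [interior_Ici] at hx
    exact Fp2_nonneg h ha hk (lt_of_le_of_lt ha hx) (le_of_lt hx)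

lemma Fp_monotoneOn {c r a k : ℝ} (h : Good c r) (ha : 0 ≤ a) (hk : k = 1 ∨ k = -1) :
    MonotoneOn (Fp c r a k) (Ici a) := by
  apply monotoneOn_of_hasDerivWithinAt_nonneg (convex_Ici a) (f' := Fp1 c r a k)
    (Fp_cont h.hr).continuousOn
  · intro x hx
    rw [interior_Ici] at hx
    exact (Fp_deriv (lt_of_le_of_lt ha hx)).hasDerivWithinAt
  · intro x hx
    rw [interior_Ici] at hx
    exact Fp1_nonneg h ha hk (lt_of_le_of_lt ha hx) (le_of_lt hx)

lemma Fp_max_convex {c r a k : ℝ} (h : Good c r) (ha : 0 ≤ a) (hk : k = 1 ∨ k = -1) :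
    ConvexOn ℝ univ (fun t => Fp c r a k (max t a)) := by
  have him : (fun t : ℝ => max t a) '' univ ⊆ Ici a := by
    rintro _ ⟨t, _, rfl⟩
    exact Set.mem_Ici.2 (le_max_right t a)
  have hconv : Convex ℝ ((fun t : ℝ => max t a) '' univ) := by
    have : (fun t : ℝ => max t a) '' univ = Ici a := by
      apply Subset.antisymm him
      intro x hx
      exact ⟨x, trivial, max_eq_left hx⟩
    rw [this]; exact convex_Ici a
  have hmax : ConvexOn ℝ univ (fun t : ℝ => max t a) := by
    have k1 : ConvexOn ℝ univ (fun t : ℝ => t) := convexOn_id convex_univ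
    have k2 : ConvexOn ℝ univ (fun _ : ℝ => a) := convexOn_const a convex_univ
    exact k1.sup k2
  exact ((Fp_convexOn h ha hk).subset him hconv).comp hmax ((Fp_monotoneOn h ha hk).mono him)

/-- The function along a zigzag line. -/
noncomputable def G (c r a t : ℝ) : ℝ :=
  (c * |t + a| - |t - a|) * (|t - a| + |t + a|) ^ (r - 1)

lemma G_eq {c r a : ℝ} (h : Good c r) (ha : 0 ≤ a) (t : ℝ) :
    G c r a t = (2 : ℝ) ^ (r - 1) * ((c + 1) * a ^ (r - 1) * t + (c - 1) * a ^ r
      + Fp c r a 1 (max t a) + Fp c r a (-1) (max (-t) a)) := by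
  have hr := h.hr
  have hsplit : ∀ z : ℝ, 0 ≤ z → z ^ r = z * z ^ (r - 1) := by
    intro z hz
    rcases hz.eq_or_lt with rfl | hz
    · rw [Real.zero_rpow (by linarith)]; ring
    · have : r = 1 + (r - 1) := by ring
      conv_lhs => rw [this]
      rw [Real.rpow_add hz, Real.rpow_one]
  rcases le_total a t with hat | hta
  · have ht : 0 ≤ t := ha.trans hat
    rw [max_eq_left hat, max_eq_right (by linarith : -t ≤ a), Fp_self]
    unfold G Fp
    rw [abs_of_nonneg (by linarith : 0 ≤ t + a), abs_of_nonneg (by linarith : 0 ≤ t - a)]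
    have e : t - a + (t + a) = 2 * t := by ring
    rw [e, Real.mul_rpow (by norm_num) ht, hsplit t ht]
    ring
  · rcases le_total (-t) a with h3 | h3
    · rw [max_eq_right hta, max_eq_right h3, Fp_self, Fp_self]
      unfold G
      rw [abs_of_nonneg (by linarith : 0 ≤ t + a), abs_of_nonpos (by linarith : t - a ≤ 0)]
      have e : -(t - a) + (t + a) = 2 * a := by ring
      rw [e, Real.mul_rpow (by norm_num) ha, hsplit a ha]
      ring
    · have ht : 0 ≤ -t := ha.trans h3
      rw [max_eq_right hta, max_eq_left h3, Fp_self]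
      unfold G Fp
      rw [abs_of_nonpos (by linarith : t + a ≤ 0), abs_of_nonpos (by linarith : t - a ≤ 0)]
      have e : -(t - a) + -(t + a) = 2 * (-t) := by ring
      rw [e, Real.mul_rpow (by norm_num) ht, hsplit (-t) ht]
      ring

lemma G_convex_of_nonneg {c r a : ℝ} (h : Good c r) (ha : 0 ≤ a) :
    ConvexOn ℝ univ (G c r a) := by
  have e : G c r a = fun t => (2 : ℝ) ^ (r - 1) * ((c + 1) * a ^ (r - 1) * t + (c - 1) * a ^ r
      + Fp c r a 1 (max t a) + Fp c r a (-1) (max (-t) a)) := funext (G_eq h ha)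
  rw [e]
  have h1 : ConvexOn ℝ univ (fun t : ℝ => (c + 1) * a ^ (r - 1) * t + (c - 1) * a ^ r) := by
    refine ⟨convex_univ, fun x _ y _ p q _ _ hpq => ?_⟩
    simp only [smul_eq_mul]
    have : (c - 1) * a ^ r = (p + q) * ((c - 1) * a ^ r) := by rw [hpq, one_mul]
    nlinarith
  have h2 := Fp_max_convex (k := 1) h ha (Or.inl rfl)
  have h3 : ConvexOn ℝ univ (fun t : ℝ => Fp c r a (-1) (max (-t) a)) := by
    have h4 := Fp_max_convex (k := -1) h ha (Or.inr rfl)
    refine ⟨convex_univ, fun x _ y _ p q hp hq hpq => ?_⟩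
    have := h4.2 (mem_univ (-x)) (mem_univ (-y)) hp hq hpq
    simp only [smul_eq_mul] at this ⊢
    have e2 : -(p * x + q * y) = p * -x + q * -y := by ring
    rw [e2]
    exact this
  have h5 := ((h1.add h2).add h3).smul (c := (2 : ℝ) ^ (r - 1)) (by positivity)
  exact h5

lemma G_neg (c r a t : ℝ) : G c r (-a) t = G c r a (-t) := by
  unfold G
  have e1 : |t + -a| = |-t + a| := by rw [← abs_neg]; congr 1; ring
  have e2 : |t - -a| = |-t - a| := by rw [← abs_neg]; congr 1; ring
  rw [e1, e2]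

lemma G_mid {c r : ℝ} (h : Good c r) (a t d : ℝ) :
    2 * G c r a t ≤ G c r a (t + d) + G c r a (t - d) := by
  have key : ∀ b : ℝ, 0 ≤ b → ∀ t d : ℝ, 2 * G c r b t ≤ G c r b (t + d) + G c r b (t - d) := by
    intro b hb t d
    have := (G_convex_of_nonneg h hb).2 (mem_univ (t + d)) (mem_univ (t - d))
      (by norm_num : (0 : ℝ) ≤ 1 / 2) (by norm_num : (0 : ℝ) ≤ 1 / 2) (by norm_num)
    simp only [smul_eq_mul] at this
    have e : 1 / 2 * (t + d) + 1 / 2 * (t - d) = t := by ring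
    rw [e] at this
    linarith
  rcases le_total 0 a with ha | ha
  · exact key a ha t d
  · have g1 : ∀ t, G c r a t = G c r (-a) (-t) := by
      intro t
      have := G_neg c r (-a) t
      rwa [neg_neg] at this
    rw [g1 t, g1 (t + d), g1 (t - d)]
    have := key (-a) (by linarith) (-t) (-d)
    have e1 : -t + -d = -(t + d) := by ring
    have e2 : -t - -d = -(t - d) := by ring
    rwa [e1, e2] at this

/-- The Burkholder function. -/
noncomputable def U (c r x y : ℝ) : ℝ := (|y| - c * |x|) * (|x| + |y|) ^ (r - 1)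

lemma U_neg (c r x y : ℝ) : U c r x (-y) = U c r x y := by unfold U; rw [abs_neg]

lemma U_line (c r x y t : ℝ) :
    U c r (x + t) (y + t) = - G c r ((x - y) / 2) ((x + y) / 2 + t) := by
  unfold U G
  have e1 : (x + y) / 2 + t + (x - y) / 2 = x + t := by ring
  have e2 : (x + y) / 2 + t - (x - y) / 2 = y + t := by ring
  rw [e1, e2]
  rw [add_comm |x + t| |y + t|]
  ring

/-- Zigzag concavity. -/
lemma U_zigzag {c r : ℝ} (h : Good c r) (x y d : ℝ) :
    U c r (x + d) (y + d) + U c r (x - d) (y - d) ≤ 2 * U c r x y := by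
  have e1 := U_line c r x y d
  have e2 := U_line c r x y (-d)
  have e3 := U_line c r x y 0
  have h1 := G_mid h ((x - y) / 2) ((x + y) / 2) d
  simp only [add_zero] at e3
  rw [← sub_eq_add_neg, ← sub_eq_add_neg, ← sub_eq_add_neg] at e2
  linarith

lemma U_zigzag' {c r : ℝ} (h : Good c r) (x y d d' : ℝ) (hd : d' = d ∨ d' = -d) :
    U c r (x + d) (y + d') + U c r (x - d) (y - d') ≤ 2 * U c r x y := by
  rcases hd with rfl | rfl
  · exact U_zigzag h x y _
  · have h1 := U_zigzag h x (-y) d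
    rw [U_neg] at h1
    have e1 : -y + d = -(y + -d) := by ring
    have e2 : -y - d = -(y - -d) := by ring
    rw [e1, e2, U_neg, U_neg] at h1
    exact h1

/-- The constant in the majorization. -/
noncomputable def K (c r : ℝ) : ℝ := (2 * c) ^ r + 2 * c * (1 + 2 * c) ^ (r - 1)

lemma U_major {c r : ℝ} (h : Good c r) (x y : ℝ) :
    |y| ^ r - K c r * |x| ^ r ≤ 2 * U c r x y := by
  have hr := h.hr
  have hc : 0 < c := by linarith [h.h1]
  have hx := abs_nonneg x
  have hy := abs_nonneg y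
  have hsplit : ∀ z : ℝ, 0 ≤ z → z ^ r = z * z ^ (r - 1) := by
    intro z hz
    rcases hz.eq_or_lt with rfl | hz
    · rw [Real.zero_rpow (by linarith)]; ring
    · have : r = 1 + (r - 1) := by ring
      conv_lhs => rw [this]
      rw [Real.rpow_add hz, Real.rpow_one]
  have hxr : 0 ≤ |x| ^ r := by positivity
  have hK : 0 ≤ K c r := by unfold K; positivity
  unfold U
  rcases le_total (2 * c * |x|) |y| with hcase | hcase
  · have h1 : |y| ^ (r - 1) ≤ (|x| + |y|) ^ (r - 1) :=
      Real.rpow_le_rpow hy (by linarith) (by linarith)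
    have h2 : |y| / 2 ≤ |y| - c * |x| := by linarith
    have h3 : |y| / 2 * |y| ^ (r - 1) ≤ (|y| - c * |x|) * (|x| + |y|) ^ (r - 1) :=
      mul_le_mul h2 h1 (by positivity) (by linarith)
    rw [hsplit |y| hy]
    have h4 : 0 ≤ K c r * |x| ^ r := mul_nonneg hK hxr
    linarith
  · have h1 : |y| ^ r ≤ (2 * c) ^ r * |x| ^ r := by
      rw [← Real.mul_rpow (by positivity) hx]
      exact Real.rpow_le_rpow hy hcase (by linarith)
    have h2 : (|x| + |y|) ^ (r - 1) ≤ (1 + 2 * c) ^ (r - 1) * |x| ^ (r - 1) := by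
      rw [← Real.mul_rpow (by positivity) hx]
      exact Real.rpow_le_rpow (by positivity) (by linarith) (by linarith)
    have h3 : (c * |x| - |y|) * (|x| + |y|) ^ (r - 1)
        ≤ (c * |x|) * ((1 + 2 * c) ^ (r - 1) * |x| ^ (r - 1)) := by
      have h5 : (c * |x| - |y|) * (|x| + |y|) ^ (r - 1) ≤ (c * |x|) * (|x| + |y|) ^ (r - 1) :=
        mul_le_mul_of_nonneg_right (by linarith) (by positivity)
      exact h5.trans (mul_le_mul_of_nonneg_left h2 (by positivity))
    have h4 : (c * |x|) * ((1 + 2 * c) ^ (r - 1) * |x| ^ (r - 1))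
        = c * (1 + 2 * c) ^ (r - 1) * |x| ^ r := by
      rw [hsplit |x| hx]; ring
    have h6 : K c r * |x| ^ r = (2 * c) ^ r * |x| ^ r + 2 * (c * (1 + 2 * c) ^ (r - 1) * |x| ^ r) := by
      unfold K; ring
    rw [h6]
    linarith

lemma U_diag {c r : ℝ} (h : Good c r) (x y : ℝ) (hxy : |y| = |x|) : U c r x y ≤ 0 := by
  unfold U
  rw [hxy]
  have hr := h.hr
  have h1 := h.h1
  have hx := abs_nonneg x
  have : |x| - c * |x| ≤ 0 := by nlinarith
  exact mul_nonpos_of_nonpos_of_nonneg this (by positivity)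

lemma exists_good {r : ℝ} (hr : 1 < r) : ∃ c, Good c r := by
  refine ⟨2 * r + (r + 1) / (r - 1), hr, ?_, ?_⟩
  · have : 0 ≤ (r + 1) / (r - 1) := div_nonneg (by linarith) (by linarith)
    linarith
  · have h1 : (r - 1) ≠ 0 := by linarith
    have : (2 * r + (r + 1) / (r - 1)) * (r - 1) = 2 * r * (r - 1) + (r + 1) := by
      field_simp
    rw [this]
    nlinarith

end Pool.Agent.TH323.Burk
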