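import Mathlib

/-!
# An abstract renorming making a bidemocratic unconditional basis 1-greedy

Under power-type upper bounds for the democracy functions of a biorthogonal system and of its dual
system we construct an equivalent norm for which greedy sums are best approximations.
-/

namespace Pool.Agent.TH323.Greedy

open Finset

variable {𝕜 X : Type*} [RCLike 𝕜] [NormedAddCommGroup X] [NormedSpace 𝕜 X]

/-- The weight attached to sets of cardinality `m`. -/
noncomputable def w (s : ℝ) (m : ℕ) : ℝ := (m : ℝ) ^ (s - 1)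

/-- The small constant used in the admissibility condition. -/
noncomputable def th (s : ℝ) : ℝ := s * (2 : ℝ) ^ (s - 1) / 2

/-- The hypotheses on the system `(e, a)`. -/
structure Sys (s C : ℝ) (e : ℕ → X) (a : ℕ → X →L[𝕜] 𝕜) : Prop where
  s_pos : 0 < s
  s_lt : s < 1
  one_le : 1 ≤ C
  bi : ∀ m n, a m (e n) = if m = n then 1 else 0
  c1 : ∀ (A : Finset ℕ) (x : X), ∑ n ∈ A, ‖a n x‖ ≤ C * (A.card : ℝ) ^ (1 - s) * ‖x‖
  c2 : ∀ A : Finset ℕ, ‖∑ n ∈ A, e n‖ ≤ C * (A.card : ℝ) ^ s
  unc : ∀ (F : Finset ℕ) (ε : ℕ → 𝕜), (∀ n, ‖ε n‖ ≤ 1) → ∀ x : X,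
    ‖∑ n ∈ F, (ε n * a n x) • e n‖ ≤ C * ‖x‖
  sum : ∀ x : X, HasSum (fun n => a n x • e n) x

/-- Admissible triples. -/
structure Adm (a : ℕ → X →L[𝕜] 𝕜) (s C : ℝ) (A F : Finset ℕ) (g : ℕ → ℝ) : Prop where
  disj : Disjoint A F
  nonneg : ∀ n, 0 ≤ g n
  bound : A.Nonempty → ∀ n ∈ F, g n ≤ th s * w s A.card
  dual : ∀ x : X, ∑ n ∈ F, g n * ‖a n x‖ ≤ th s / C * ‖x‖

/-- The value of an admissible triple on a profile `y`. -/
noncomputable def val (s : ℝ) (A F : Finset ℕ) (g y : ℕ → ℝ) : ℝ :=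
  w s A.card * ∑ n ∈ A, y n + ∑ n ∈ F, g n * y n

lemma w_nonneg (s : ℝ) (m : ℕ) : 0 ≤ w s m := by unfold w; positivity

lemma w_pos (s : ℝ) {m : ℕ} (hm : 1 ≤ m) : 0 < w s m := by
  unfold w
  have : (0 : ℝ) < m := by exact_mod_cast hm
  positivity

lemma w_anti {s : ℝ} (hs : s < 1) {m n : ℕ} (hm : 1 ≤ m) (hmn : m ≤ n) : w s n ≤ w s m := by
  unfold w
  have h0 : (0 : ℝ) < m := by exact_mod_cast hm
  exact Real.rpow_le_rpow_of_nonpos h0 (by exact_mod_cast hmn) (by linarith)

lemma mul_w (s : ℝ) {m : ℕ} (hm : 1 ≤ m) : (m : ℝ) * w s m = (m : ℝ) ^ s := by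
  unfold w
  have h0 : (0 : ℝ) < m := by exact_mod_cast hm
  rw [Real.rpow_sub_one h0.ne']
  field_simp

lemma th_pos {s : ℝ} (hs : 0 < s) : 0 < th s := by unfold th; positivity

lemma th_lt {s : ℝ} (hs : 0 < s) (hs1 : s < 1) : th s < 1 := by
  unfold th
  have h2 : (2 : ℝ) ^ (s - 1) ≤ 1 :=
    Real.rpow_le_one_of_one_le_of_nonpos (by norm_num) (by linarith)
  have h3 : (0 : ℝ) < (2 : ℝ) ^ (s - 1) := by positivity
  nlinarith

/-- the increment of `m ^ s`. -/
lemma incr_lower {s : ℝ} (hs : 0 < s) (hs1 : s < 1) {m : ℕ} (hm : 1 ≤ m) :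
    2 * th s * w s m ≤ ((m : ℝ) + 1) ^ s - (m : ℝ) ^ s := by
  have h0 : (0 : ℝ) < m := by exact_mod_cast hm
  have h1 : (1 : ℝ) ≤ m := by exact_mod_cast hm
  have h01 : (0 : ℝ) < (m : ℝ) + 1 := by linarith
  -- `(1 - 1/(m+1))^s ≤ 1 - s/(m+1)`
  have hb := rpow_one_add_le_one_add_mul_self (s := -(1 / ((m : ℝ) + 1))) (p := s)
    (by
      have : 1 / ((m : ℝ) + 1) ≤ 1 := by
        rw [div_le_one h01]; linarith
      linarith) hs.le hs1.le
  have e1 : (1 + -(1 / ((m : ℝ) + 1))) = m / ((m : ℝ) + 1) := by field_simp; ring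
  rw [e1, Real.div_rpow h0.le h01.le] at hb
  have hpos : 0 < ((m : ℝ) + 1) ^ s := by positivity
  rw [div_le_iff₀ hpos] at hb
  have hw : w s (m + 1) = ((m : ℝ) + 1) ^ s / ((m : ℝ) + 1) := by
    unfold w
    push_cast
    rw [Real.rpow_sub_one h01.ne']
  have h4 : s * w s (m + 1) ≤ ((m : ℝ) + 1) ^ s - (m : ℝ) ^ s := by
    rw [hw]
    have : (1 + s * -(1 / ((m : ℝ) + 1))) * ((m : ℝ) + 1) ^ s
      = ((m : ℝ) + 1) ^ s - s * (((m : ℝ) + 1) ^ s / ((m : ℝ) + 1)) := by
      field_simp
      ring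
    rw [this] at hb
    linarith
  have h5 : (2 : ℝ) ^ (s - 1) * w s m ≤ w s (m + 1) := by
    unfold w
    rw [← Real.mul_rpow (by norm_num) h0.le]
    push_cast
    exact Real.rpow_le_rpow_of_nonpos h01 (by linarith) (by linarith)
  have h6 : 2 * th s * w s m = s * ((2 : ℝ) ^ (s - 1) * w s m) := by
    unfold th; ring
  rw [h6]
  exact (mul_le_mul_of_nonneg_left h5 hs.le).trans h4

/-- evaluation of the coefficients of an indicator sum. -/
lemma Sys.coef_sum {s C : ℝ} {e : ℕ → X} {a : ℕ → X →L[𝕜] 𝕜} (h : Sys s C e a)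
    (D : Finset ℕ) (n : ℕ) : a n (∑ k ∈ D, e k) = if n ∈ D then 1 else 0 := by
  rw [map_sum]
  simp only [h.bi]
  rw [Finset.sum_ite_eq]

/-- Testing admissibility on indicator sums. -/
lemma Adm.test {s C : ℝ} {e : ℕ → X} {a : ℕ → X →L[𝕜] 𝕜} (h : Sys s C e a)
    {A F : Finset ℕ} {g : ℕ → ℝ} (hg : Adm a s C A F g) {D : Finset ℕ} (hD : D ⊆ F) :
    ∑ n ∈ D, g n ≤ th s * (D.card : ℝ) ^ s := by
  have h1 := hg.dual (∑ k ∈ D, e k)
  have h2 : ∑ n ∈ F, g n * ‖a n (∑ k ∈ D, e k)‖ = ∑ n ∈ D, g n := by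
    rw [← Finset.sum_subset hD]
    · apply Finset.sum_congr rfl
      intro n hn
      rw [h.coef_sum, if_pos hn]
      simp
    · intro n _ hn
      rw [h.coef_sum, if_neg hn]
      simp
  rw [h2] at h1
  have hC : 0 < C := by linarith [h.one_le]
  have h3 : th s / C * ‖∑ k ∈ D, e k‖ ≤ th s / C * (C * (D.card : ℝ) ^ s) :=
    mul_le_mul_of_nonneg_left (h.c2 D) (div_nonneg (th_pos h.s_pos).le hC.le)
  have h4 : th s / C * (C * (D.card : ℝ) ^ s) = th s * (D.card : ℝ) ^ s := by
    field_simp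
  linarith

lemma Adm.add_index {s C : ℝ} {e : ℕ → X} {a : ℕ → X →L[𝕜] 𝕜} (h : Sys s C e a)
    {A F : Finset ℕ} {g : ℕ → ℝ} (hg : Adm a s C A F g) {i : ℕ} (hi : i ∉ A)
    {y : ℕ → ℝ} (hy0 : ∀ n, 0 ≤ y n) (hy : ∀ n, y n ≤ y i) :
    ∃ (F' : Finset ℕ) (g' : ℕ → ℝ), Adm a s C (insert i A) F' g' ∧
      val s A F g y ≤ val s (insert i A) F' g' y := by
  classical
  set m := A.card with hm
  have hcard : (insert i A).card = m + 1 := by rw [Finset.card_insert_of_notMem hi]
  have hth := th_pos h.s_pos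
  have hC : 0 < C := by linarith [h.one_le]
  set c : ℝ := th s * w s (m + 1) with hc
  have hc0 : 0 ≤ c := mul_nonneg hth.le (w_nonneg _ _)
  refine ⟨F.erase i, fun n => min (g n) c, ?_, ?_⟩
  · refine ⟨?_, ?_, ?_, ?_⟩
    · rw [Finset.disjoint_left]
      intro n hn hn'
      rcases Finset.mem_insert.1 hn with rfl | hn
      · simp at hn'
      · exact (Finset.disjoint_left.1 hg.disj hn) (Finset.mem_of_mem_erase hn')
    · intro n
      exact le_min (hg.nonneg n) hc0
    · intro _ n _
      rw [hcard]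
      exact min_le_right _ _
    · intro x
      refine le_trans ?_ (hg.dual x)
      refine (Finset.sum_le_sum (fun n _ => mul_le_mul_of_nonneg_right (min_le_left (g n) c)
        (norm_nonneg _))).trans ?_
      exact Finset.sum_le_sum_of_subset_of_nonneg (Finset.erase_subset _ _)
        (fun n _ _ => mul_nonneg (hg.nonneg n) (norm_nonneg _))
  · -- the main estimate
    unfold val
    rw [hcard, Finset.sum_insert hi, ← hm]
    set t := y i with ht
    have ht0 : 0 ≤ t := hy0 i
    -- loss in the `g` part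
    have hloss : ∑ n ∈ F, g n * y n - ∑ n ∈ F.erase i, min (g n) c * y n
        ≤ t * (∑ n ∈ F, (g n - if n = i then 0 else min (g n) c)) := by
      have e1 : ∑ n ∈ F.erase i, min (g n) c * y n
          = ∑ n ∈ F, (if n = i then 0 else min (g n) c) * y n := by
        rw [← Finset.sum_subset (Finset.erase_subset i F)]
        · apply Finset.sum_congr rfl
          intro n hn
          rw [if_neg (Finset.ne_of_mem_erase hn)]
        · intro n hn hn'
          have : n = i := by
            by_contra hne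
            exact hn' (Finset.mem_erase.2 ⟨hne, hn⟩)
          rw [if_pos this]; ring
      rw [e1, ← Finset.sum_sub_distrib, Finset.mul_sum]
      apply Finset.sum_le_sum
      intro n _
      rw [← sub_mul, mul_comm]
      apply mul_le_mul_of_nonneg_right (hy n)
      split_ifs
      · linarith [hg.nonneg n]
      · linarith [min_le_left (g n) c]
    have hsumA : ∑ n ∈ A, y n ≤ m * t := by
      rw [hm, ← nsmul_eq_mul]
      exact Finset.sum_le_card_nsmul _ _ _ (fun n _ => hy n)
    rcases Nat.eq_zero_or_pos m with hm0 | hm1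
    · -- `A` is empty
      have hA : A = ∅ := Finset.card_eq_zero.1 (by rw [← hm]; exact hm0)
      have hw1 : w s 1 = 1 := by unfold w; simp
      have hgle : ∀ n ∈ F, g n ≤ th s := by
        intro n hn
        have := hg.test h (D := {n}) (by simpa using hn)
        simpa using this
      have hc1 : c = th s := by rw [hc, hm0]; simp [hw1]
      have hS : ∑ n ∈ F, (g n - if n = i then 0 else min (g n) c) ≤ th s := by
        by_cases hiF : i ∈ F
        · rw [Finset.sum_eq_single_of_mem i hiF]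
          · simp only [if_true, sub_zero]
            exact hgle i hiF
          · intro n hn hne
            rw [if_neg hne, hc1, min_eq_left (hgle n hn)]
            ring
        · rw [Finset.sum_eq_zero]
          · exact hth.le
          · intro n hn
            have hne : n ≠ i := fun hh => hiF (hh ▸ hn)
            rw [if_neg hne, hc1, min_eq_left (hgle n hn)]
            ring
      have h1 := mul_le_mul_of_nonneg_left hS ht0
      have h2 : th s < 1 := th_lt h.s_pos h.s_lt
      have h3 : t * th s ≤ t := by nlinarith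
      rw [hm0, hA]
      simp only [Finset.sum_empty, mul_zero, zero_add, hw1]
      linarith
    · -- `A` is nonempty
      have hAne : A.Nonempty := Finset.card_pos.1 (by rw [← hm]; exact hm1)
      have hm1' : (1 : ℕ) ≤ m := hm1
      set D := F.filter (fun n => c < g n) with hD
      have hwpos := w_pos s hm1'
      have hwpos' : 0 < w s (m + 1) := w_pos s (by omega)
      have hwle : w s (m + 1) ≤ w s m := w_anti h.s_lt hm1' (by omega)
      have hDcard : (D.card : ℝ) ≤ m + 1 := by
        rcases Nat.eq_zero_or_pos D.card with h0 | hpos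
        · rw [h0]; push_cast; positivity
        · have h1 := hg.test h (D := D) (Finset.filter_subset _ _)
          have h2 : (D.card : ℝ) * c ≤ ∑ n ∈ D, g n := by
            rw [← nsmul_eq_mul]
            apply Finset.card_nsmul_le_sum
            intro n hn
            exact (Finset.mem_filter.1 hn).2.le
          have h3 : (D.card : ℝ) * c ≤ th s * (D.card * w s D.card) := by
            rw [mul_w s hpos]; linarith
          have hDp : (0 : ℝ) < D.card := by exact_mod_cast hpos
          have h4 : w s (m + 1) ≤ w s D.card := by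
            rw [hc] at h3
            have : (D.card : ℝ) * th s * w s (m + 1) ≤ (D.card : ℝ) * th s * w s D.card := by
              linarith
            exact le_of_mul_le_mul_left this (by positivity)
          by_contra hcon
          push Not at hcon
          have hcon' : m + 1 < D.card := by exact_mod_cast hcon
          have : w s D.card < w s (m + 1) := by
            unfold w
            apply Real.rpow_lt_rpow_of_neg
            · push_cast; positivity
            · exact_mod_cast hcon'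
            · linarith [h.s_lt]
          linarith
      -- the total loss
      have hS : ∑ n ∈ F, (g n - if n = i then 0 else min (g n) c) ≤ 2 * th s * w s m := by
        have hpt : ∀ n ∈ F, (g n - if n = i then 0 else min (g n) c)
            ≤ (if n = i then th s * w s m else 0)
              + (if n ∈ D then th s * (w s m - w s (m + 1)) else 0) := by
          intro n hn
          have hb := hg.bound hAne n hn
          rw [← hm] at hb
          have hdiff : 0 ≤ th s * (w s m - w s (m + 1)) :=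
            mul_nonneg hth.le (by linarith)
          by_cases hni : n = i
          · rw [if_pos hni, if_pos hni]
            split_ifs <;> linarith
          · rw [if_neg hni, if_neg hni]
            by_cases hnD : n ∈ D
            · rw [if_pos hnD, min_eq_right (Finset.mem_filter.1 hnD).2.le, hc]
              linarith
            · rw [if_neg hnD]
              have : g n ≤ c := by
                by_contra hcc
                push Not at hcc
                exact hnD (Finset.mem_filter.2 ⟨hn, hcc⟩)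
              rw [min_eq_left this]
              linarith
        refine (Finset.sum_le_sum hpt).trans ?_
        rw [Finset.sum_add_distrib]
        have s1 : ∑ n ∈ F, (if n = i then th s * w s m else 0) ≤ th s * w s m := by
          rw [Finset.sum_ite_eq']
          split_ifs
          · exact le_rfl
          · positivity
        have s2 : ∑ n ∈ F, (if n ∈ D then th s * (w s m - w s (m + 1)) else 0)
            = D.card * (th s * (w s m - w s (m + 1))) := by
          rw [← Finset.sum_filter, Finset.sum_const, nsmul_eq_mul]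
          congr 2
          congr 1
          ext n
          simp only [Finset.mem_filter, hD]
          tauto
        have s3 : (D.card : ℝ) * (th s * (w s m - w s (m + 1))) ≤ th s * w s m := by
          have hdiff : 0 ≤ th s * (w s m - w s (m + 1)) :=
            mul_nonneg hth.le (by linarith)
          have k1 := mul_le_mul_of_nonneg_right hDcard hdiff
          have k2 : ((m : ℝ) + 1) * (w s m - w s (m + 1)) ≤ w s m := by
            have e1 := mul_w s hm1'
            have e2 := mul_w s (m := m + 1) (by omega)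
            push_cast at e2
            have e3 : (m : ℝ) ^ s ≤ ((m : ℝ) + 1) ^ s :=
              Real.rpow_le_rpow (by positivity) (by linarith) h.s_pos.le
            nlinarith
          have k3 : ((m : ℝ) + 1) * (th s * (w s m - w s (m + 1)))
              = th s * (((m : ℝ) + 1) * (w s m - w s (m + 1))) := by ring
          rw [k3] at k1
          exact k1.trans (mul_le_mul_of_nonneg_left k2 hth.le)
        rw [s2]
        linarith
      have h1 := mul_le_mul_of_nonneg_left hS ht0
      have hinc := incr_lower h.s_pos h.s_lt hm1'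
      have e1 := mul_w s hm1'
      have e2 := mul_w s (m := m + 1) (by omega)
      push_cast at e2
      have h3 : (w s m - w s (m + 1)) * ∑ n ∈ A, y n ≤ (w s m - w s (m + 1)) * (m * t) :=
        mul_le_mul_of_nonneg_left hsumA (by linarith)
      have h4 : t * (2 * th s * w s m) ≤ t * (((m : ℝ) + 1) ^ s - (m : ℝ) ^ s) :=
        mul_le_mul_of_nonneg_left hinc ht0
      have h5 : t * (((m : ℝ) + 1) ^ s - (m : ℝ) ^ s)
          = w s (m + 1) * t - (w s m - w s (m + 1)) * (m * t) := by
        rw [← e1, ← e2]; ring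
      nlinarith

/-- Adding a finite set of indices on which the profile is maximal. -/
lemma Adm.add_set {s C : ℝ} {e : ℕ → X} {a : ℕ → X →L[𝕜] 𝕜} (h : Sys s C e a)
    {y : ℕ → ℝ} (hy0 : ∀ n, 0 ≤ y n) (B : Finset ℕ) (hB : ∀ i ∈ B, ∀ n, y n ≤ y i)
    {A F : Finset ℕ} {g : ℕ → ℝ} (hg : Adm a s C A F g) :
    ∃ (F' : Finset ℕ) (g' : ℕ → ℝ), Adm a s C (A ∪ B) F' g' ∧
      val s A F g y ≤ val s (A ∪ B) F' g' y := by
  classical
  induction B using Finset.induction_on with
  | empty => exact ⟨F, g, by simpa using hg, by simp⟩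
  | insert i B hi ih =>
    obtain ⟨F', g', hg', hval⟩ := ih (fun j hj => hB j (Finset.mem_insert_of_mem hj))
    by_cases hiA : i ∈ A ∪ B
    · refine ⟨F', g', ?_, ?_⟩
      · have : A ∪ insert i B = A ∪ B := by
          rw [Finset.union_insert, Finset.insert_eq_self.2 hiA]
        rw [this]; exact hg'
      · have : A ∪ insert i B = A ∪ B := by
          rw [Finset.union_insert, Finset.insert_eq_self.2 hiA]
        rw [this]; exact hval
    · obtain ⟨F'', g'', hg'', hval''⟩ :=
        hg'.add_index h hiA hy0 (hB i (Finset.mem_insert_self i B))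
      refine ⟨F'', g'', ?_, ?_⟩
      · rw [Finset.union_insert]; exact hg''
      · rw [Finset.union_insert]; exact hval.trans hval''

/-- The family of admissible triples. -/
def Idx (a : ℕ → X →L[𝕜] 𝕜) (s C : ℝ) : Type :=
  {q : Finset ℕ × Finset ℕ × (ℕ → ℝ) // Adm a s C q.1 q.2.1 q.2.2}

/-- The new norm. -/
noncomputable def newNorm (a : ℕ → X →L[𝕜] 𝕜) (s C : ℝ) (x : X) : ℝ :=
  ⨆ q : Idx a s C, val s q.1.1 q.1.2.1 q.1.2.2 (fun n => ‖a n x‖)

lemma val_nonneg (s : ℝ) (A F : Finset ℕ) {g y : ℕ → ℝ} (hg : ∀ n, 0 ≤ g n)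
    (hy : ∀ n, 0 ≤ y n) : 0 ≤ val s A F g y := by
  unfold val
  exact add_nonneg (mul_nonneg (w_nonneg _ _) (Finset.sum_nonneg fun n _ => hy n))
    (Finset.sum_nonneg fun n _ => mul_nonneg (hg n) (hy n))

lemma val_mono (s : ℝ) (A F : Finset ℕ) {g y z : ℕ → ℝ} (hg : ∀ n, 0 ≤ g n)
    (hyz : ∀ n, y n ≤ z n) : val s A F g y ≤ val s A F g z := by
  unfold val
  exact add_le_add (mul_le_mul_of_nonneg_left (Finset.sum_le_sum fun n _ => hyz n) (w_nonneg _ _))
    (Finset.sum_le_sum fun n _ => mul_le_mul_of_nonneg_left (hyz n) (hg n))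

lemma val_le {s C : ℝ} {e : ℕ → X} {a : ℕ → X →L[𝕜] 𝕜} (h : Sys s C e a)
    {A F : Finset ℕ} {g : ℕ → ℝ} (hg : Adm a s C A F g) (x : X) :
    val s A F g (fun n => ‖a n x‖) ≤ (C + th s / C) * ‖x‖ := by
  unfold val
  have h1 := hg.dual x
  have h2 : w s A.card * ∑ n ∈ A, ‖a n x‖ ≤ C * ‖x‖ := by
    rcases Nat.eq_zero_or_pos A.card with h0 | hpos
    · have hA : A = ∅ := Finset.card_eq_zero.1 h0
      rw [hA]
      simp only [Finset.sum_empty, mul_zero]
      have := h.one_le
      positivity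
    · have h3 := h.c1 A x
      have hp : (0 : ℝ) < A.card := by exact_mod_cast hpos
      have h4 : w s A.card * (A.card : ℝ) ^ (1 - s) = 1 := by
        unfold w
        rw [← Real.rpow_add hp]
        have : s - 1 + (1 - s) = 0 := by ring
        rw [this, Real.rpow_zero]
      calc w s A.card * ∑ n ∈ A, ‖a n x‖
          ≤ w s A.card * (C * (A.card : ℝ) ^ (1 - s) * ‖x‖) :=
            mul_le_mul_of_nonneg_left h3 (w_nonneg _ _)
        _ = (w s A.card * (A.card : ℝ) ^ (1 - s)) * (C * ‖x‖) := by ring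
        _ = C * ‖x‖ := by rw [h4, one_mul]
  rw [add_mul]
  exact add_le_add h2 h1

lemma bddAbove_val {s C : ℝ} {e : ℕ → X} {a : ℕ → X →L[𝕜] 𝕜} (h : Sys s C e a) (x : X) :
    BddAbove (Set.range fun q : Idx a s C => val s q.1.1 q.1.2.1 q.1.2.2 (fun n => ‖a n x‖)) := by
  refine ⟨(C + th s / C) * ‖x‖, ?_⟩
  rintro _ ⟨q, rfl⟩
  exact val_le h q.2 x

lemma le_newNorm {s C : ℝ} {e : ℕ → X} {a : ℕ → X →L[𝕜] 𝕜} (h : Sys s C e a)
    {A F : Finset ℕ} {g : ℕ → ℝ} (hg : Adm a s C A F g) (x : X) :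
    val s A F g (fun n => ‖a n x‖) ≤ newNorm a s C x :=
  le_ciSup (bddAbove_val h x) (⟨(A, F, g), hg⟩ : Idx a s C)

lemma adm_zero {s C : ℝ} {e : ℕ → X} {a : ℕ → X →L[𝕜] 𝕜} (h : Sys s C e a) :
    Adm a s C ∅ ∅ (fun _ => 0) := by
  have hC : 0 < C := by linarith [h.one_le]
  refine ⟨by simp, fun _ => le_rfl, fun hh => absurd hh (by simp), fun x => ?_⟩
  simp only [Finset.sum_empty]
  have := th_pos h.s_pos
  positivity

lemma newNorm_le {s C : ℝ} {e : ℕ → X} {a : ℕ → X →L[𝕜] 𝕜} (h : Sys s C e a) (x : X) {M : ℝ}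
    (hM : ∀ (A F : Finset ℕ) (g : ℕ → ℝ), Adm a s C A F g →
      val s A F g (fun n => ‖a n x‖) ≤ M) : newNorm a s C x ≤ M := by
  have : Nonempty (Idx a s C) := ⟨⟨(∅, ∅, fun _ => 0), adm_zero h⟩⟩
  exact ciSup_le fun q => hM _ _ _ q.2

lemma newNorm_upper {s C : ℝ} {e : ℕ → X} {a : ℕ → X →L[𝕜] 𝕜} (h : Sys s C e a) (x : X) :
    newNorm a s C x ≤ (C + th s / C) * ‖x‖ :=
  newNorm_le h x fun _ _ _ hg => val_le h hg x

lemma newNorm_nonneg {s C : ℝ} {e : ℕ → X} {a : ℕ → X →L[𝕜] 𝕜} (h : Sys s C e a) (x : X) :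
    0 ≤ newNorm a s C x := by
  have := le_newNorm h (adm_zero h) x
  exact (val_nonneg _ _ _ (fun _ => le_rfl) (fun _ => norm_nonneg _)).trans this

lemma newNorm_add_le {s C : ℝ} {e : ℕ → X} {a : ℕ → X →L[𝕜] 𝕜} (h : Sys s C e a) (x y : X) :
    newNorm a s C (x + y) ≤ newNorm a s C x + newNorm a s C y := by
  refine newNorm_le h _ fun A F g hg => ?_
  have h1 : val s A F g (fun n => ‖a n (x + y)‖)
      ≤ val s A F g (fun n => ‖a n x‖) + val s A F g (fun n => ‖a n y‖) := by
    refine (val_mono s A F hg.nonneg (fun n => ?_) :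
      val s A F g (fun n => ‖a n (x + y)‖) ≤ val s A F g (fun n => ‖a n x‖ + ‖a n y‖)).trans ?_
    · rw [map_add]; exact norm_add_le _ _
    · unfold val
      simp only [mul_add, Finset.sum_add_distrib]
      linarith
  exact h1.trans (add_le_add (le_newNorm h hg x) (le_newNorm h hg y))

lemma newNorm_smul_le {s C : ℝ} {e : ℕ → X} {a : ℕ → X →L[𝕜] 𝕜} (h : Sys s C e a)
    (c : 𝕜) (x : X) : newNorm a s C (c • x) ≤ ‖c‖ * newNorm a s C x := by
  refine newNorm_le h _ fun A F g hg => ?_
  have h1 : val s A F g (fun n => ‖a n (c • x)‖) = ‖c‖ * val s A F g (fun n => ‖a n x‖) := by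
    unfold val
    simp only [map_smul, smul_eq_mul, norm_mul]
    rw [mul_add, Finset.mul_sum, Finset.mul_sum, Finset.mul_sum, Finset.mul_sum]
    congr 1
    · exact Finset.sum_congr rfl fun n _ => by ring
    · exact Finset.sum_congr rfl fun n _ => by ring
  rw [h1]
  exact mul_le_mul_of_nonneg_left (le_newNorm h hg x) (norm_nonneg _)

/-- The comparison lemma. -/
lemma newNorm_compare {s C : ℝ} {e : ℕ → X} {a : ℕ → X →L[𝕜] 𝕜} (h : Sys s C e a)
    {u v : X} {t : ℝ} {B D : Finset ℕ} (hdisj : Disjoint B D)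
    (hcard : B.card ≤ D.card) (h1 : ∀ n, ‖a n u‖ ≤ t) (h2 : ∀ n ∈ D, t ≤ ‖a n v‖)
    (h3 : ∀ n, n ∉ B → ‖a n u‖ ≤ ‖a n v‖) (h4 : ∀ n ∈ D, a n u = 0) :
    newNorm a s C u ≤ newNorm a s C v := by
  classical
  refine newNorm_le h _ fun A F g hg => ?_
  set y : ℕ → ℝ := fun n => if n ∈ B then t else ‖a n u‖ with hy
  have hyu : ∀ n, ‖a n u‖ ≤ y n := by
    intro n; simp only [hy]; split_ifs
    · exact h1 n
    · exact le_rfl
  have hyt : ∀ n, y n ≤ t := by
    intro n; simp only [hy]; split_ifs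
    · exact le_rfl
    · exact h1 n
  have hy0 : ∀ n, 0 ≤ y n := fun n => (norm_nonneg _).trans (hyu n)
  have hyB : ∀ i ∈ B, ∀ n, y n ≤ y i := by
    intro i hi n
    have : y i = t := by simp only [hy]; rw [if_pos hi]
    rw [this]; exact hyt n
  obtain ⟨F₁, g₁, hg₁, hval⟩ := hg.add_set h hy0 B hyB
  obtain ⟨D₁, hD₁, hD₁c⟩ := Finset.exists_subset_card_eq hcard
  set A₁ := A ∪ B with hA₁
  set A₂ := (A₁ \ B) ∪ D₁ with hA₂
  have hyD : ∀ n ∈ D, y n = 0 := by
    intro n hn
    have hnB : n ∉ B := fun hh => (Finset.disjoint_left.1 hdisj hh) hn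
    simp only [hy]; rw [if_neg hnB, h4 n hn, norm_zero]
  have hBA : B ⊆ A₁ := Finset.subset_union_right
  have hyv : ∀ n, n ∉ B → y n ≤ ‖a n v‖ := by
    intro n hn
    simp only [hy]; rw [if_neg hn]; exact h3 n hn
  -- cardinality
  have hcard₂ : A₂.card ≤ A₁.card := by
    have k1 : A₂.card ≤ (A₁ \ B).card + D₁.card := Finset.card_union_le _ _
    have k2 : (A₁ \ B).card + B.card = A₁.card := Finset.card_sdiff_add_card_eq_card hBA
    omega
  have hne : A₂.Nonempty → A₁.Nonempty := by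
    intro hh
    obtain ⟨n, hn⟩ := hh
    rcases Finset.mem_union.1 hn with hn | hn
    · exact ⟨n, (Finset.mem_sdiff.1 hn).1⟩
    · have : 0 < D₁.card := Finset.card_pos.2 ⟨n, hn⟩
      rw [hD₁c] at this
      obtain ⟨b, hb⟩ := Finset.card_pos.1 this
      exact ⟨b, hBA hb⟩
  have hw : A₂.Nonempty → w s A₁.card ≤ w s A₂.card := fun hh =>
    w_anti h.s_lt (Finset.card_pos.2 hh) hcard₂
  -- the new admissible triple
  have hg₂ : Adm a s C A₂ (F₁ \ D₁) g₁ := by
    refine ⟨?_, hg₁.nonneg, ?_, ?_⟩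
    · rw [Finset.disjoint_left]
      intro n hn hn'
      rw [Finset.mem_sdiff] at hn'
      rcases Finset.mem_union.1 hn with hn | hn
      · exact (Finset.disjoint_left.1 hg₁.disj (Finset.mem_sdiff.1 hn).1) hn'.1
      · exact hn'.2 hn
    · intro hh n hn
      refine (hg₁.bound (hne hh) n (Finset.mem_sdiff.1 hn).1).trans ?_
      exact mul_le_mul_of_nonneg_left (hw hh) (th_pos h.s_pos).le
    · intro x
      refine le_trans ?_ (hg₁.dual x)
      exact Finset.sum_le_sum_of_subset_of_nonneg Finset.sdiff_subset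
        (fun n _ _ => mul_nonneg (hg₁.nonneg n) (norm_nonneg _))
  have hfin : val s A₁ F₁ g₁ y ≤ val s A₂ (F₁ \ D₁) g₁ (fun n => ‖a n v‖) := by
    unfold val
    apply add_le_add
    · -- first part
      have k1 : ∑ n ∈ A₁, y n ≤ ∑ n ∈ A₂, ‖a n v‖ := by
        have j1 : ∑ n ∈ A₁, y n = ∑ n ∈ A₁ \ B, y n + ∑ n ∈ B, y n :=
          (Finset.sum_sdiff hBA).symm
        have j2 : ∑ n ∈ B, y n ≤ ∑ n ∈ D₁, ‖a n v‖ := by
          calc ∑ n ∈ B, y n ≤ B.card * t := by
                rw [← nsmul_eq_mul]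
                exact Finset.sum_le_card_nsmul _ _ _ (fun n _ => hyt n)
            _ = D₁.card * t := by rw [hD₁c]
            _ ≤ ∑ n ∈ D₁, ‖a n v‖ := by
                rw [← nsmul_eq_mul]
                exact Finset.card_nsmul_le_sum _ _ _ (fun n hn => h2 n (hD₁ hn))
        have j3 : ∑ n ∈ A₁ \ B, y n = ∑ n ∈ (A₁ \ B) \ D₁, y n := by
          symm
          apply Finset.sum_subset Finset.sdiff_subset
          intro n hn hn'
          have : n ∈ D₁ := by
            by_contra hcon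
            exact hn' (Finset.mem_sdiff.2 ⟨hn, hcon⟩)
          exact hyD n (hD₁ this)
        have j4 : ∑ n ∈ (A₁ \ B) \ D₁, y n ≤ ∑ n ∈ (A₁ \ B) \ D₁, ‖a n v‖ := by
          apply Finset.sum_le_sum
          intro n hn
          exact hyv n (Finset.mem_sdiff.1 (Finset.mem_sdiff.1 hn).1).2
        have j5 : ∑ n ∈ A₂, ‖a n v‖
            = ∑ n ∈ (A₁ \ B) \ D₁, ‖a n v‖ + ∑ n ∈ D₁, ‖a n v‖ := by
          have : A₂ = ((A₁ \ B) \ D₁) ∪ D₁ := by
            rw [hA₂, Finset.sdiff_union_self_eq_union]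
          rw [this]
          exact Finset.sum_union Finset.sdiff_disjoint
        rw [j1, j5, j3]
        linarith
      rcases A₂.eq_empty_or_nonempty with he | hh
      · have hAe : ∑ n ∈ A₁, y n ≤ 0 := by
          rw [he] at k1; simpa using k1
        have k2 : w s A₁.card * ∑ n ∈ A₁, y n ≤ 0 :=
          mul_nonpos_of_nonneg_of_nonpos (w_nonneg _ _) hAe
        exact k2.trans (mul_nonneg (w_nonneg _ _) (Finset.sum_nonneg fun n _ => norm_nonneg _))
      · exact mul_le_mul (hw hh) k1 (Finset.sum_nonneg fun n _ => hy0 n) (w_nonneg _ _)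
    · -- second part
      have j3 : ∑ n ∈ F₁, g₁ n * y n = ∑ n ∈ F₁ \ D₁, g₁ n * y n := by
        symm
        apply Finset.sum_subset Finset.sdiff_subset
        intro n hn hn'
        have : n ∈ D₁ := by
          by_contra hcon
          exact hn' (Finset.mem_sdiff.2 ⟨hn, hcon⟩)
        rw [hyD n (hD₁ this), mul_zero]
      rw [j3]
      apply Finset.sum_le_sum
      intro n hn
      apply mul_le_mul_of_nonneg_left _ (hg₁.nonneg n)
      apply hyv
      intro hnB
      exact (Finset.disjoint_left.1 hg₁.disj (hBA hnB)) (Finset.mem_sdiff.1 hn).1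
  calc val s A F g (fun n => ‖a n u‖) ≤ val s A F g y := val_mono s A F hg.nonneg hyu
    _ ≤ val s A₁ F₁ g₁ y := hval
    _ ≤ val s A₂ (F₁ \ D₁) g₁ (fun n => ‖a n v‖) := hfin
    _ ≤ newNorm a s C v := le_newNorm h hg₂ v

/-- The 1-greedy property. -/
theorem newNorm_greedy {s C : ℝ} {e : ℕ → X} {a : ℕ → X →L[𝕜] 𝕜} (h : Sys s C e a)
    (x : X) (G : Finset ℕ) (hG : ∀ n ∈ G, ∀ m, m ∉ G → ‖a m x‖ ≤ ‖a n x‖)
    (B : Finset ℕ) (hB : B.card ≤ G.card) (b : ℕ → 𝕜) :
    newNorm a s C (x - ∑ n ∈ G, a n x • e n) ≤ newNorm a s C (x - ∑ n ∈ B, b n • e n) := by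
  classical
  have hcoef : ∀ (F : Finset ℕ) (c : ℕ → 𝕜) (n : ℕ),
      a n (∑ k ∈ F, c k • e k) = if n ∈ F then c n else 0 := by
    intro F c n
    rw [map_sum]
    simp only [map_smul, smul_eq_mul, h.bi, mul_ite, mul_one, mul_zero]
    rw [Finset.sum_ite_eq]
  rcases G.eq_empty_or_nonempty with rfl | hGne
  · have : B = ∅ := Finset.card_eq_zero.1 (by simpa using hB)
    rw [this]
    simp
  · obtain ⟨i, hi, hmin⟩ := Finset.exists_min_image G (fun n => ‖a n x‖) hGne
    have hcards : (B \ G).card ≤ (G \ B).card := by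
      have k1 := Finset.card_sdiff_add_card_inter B G
      have k2 := Finset.card_sdiff_add_card_inter G B
      rw [Finset.inter_comm] at k2
      omega
    refine newNorm_compare h (t := ‖a i x‖) (B := B \ G) (D := G \ B)
      ?_ hcards ?_ ?_ ?_ ?_
    · rw [Finset.disjoint_left]
      intro n hn hn'
      exact (Finset.mem_sdiff.1 hn').2 (Finset.mem_sdiff.1 hn).1
    · intro n
      rw [map_sub, hcoef]
      split_ifs with hn
      · simp
      · rw [sub_zero]; exact hG i hi n hn
    · intro n hn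
      rw [Finset.mem_sdiff] at hn
      rw [map_sub, hcoef, if_neg hn.2, sub_zero]
      exact hmin n hn.1
    · intro n hn
      rw [map_sub, hcoef, map_sub, hcoef]
      by_cases hnG : n ∈ G
      · rw [if_pos hnG]; simp
      · have hnB : n ∉ B := fun hh => hn (Finset.mem_sdiff.2 ⟨hh, hnG⟩)
        rw [if_neg hnG, if_neg hnB]
    · intro n hn
      rw [Finset.mem_sdiff] at hn
      rw [map_sub, hcoef, if_pos hn.1, sub_self]

/-- The lower bound on finite sums. -/
lemma newNorm_lower_fin {s C : ℝ} {e : ℕ → X} {a : ℕ → X →L[𝕜] 𝕜} (h : Sys s C e a) (x : X)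
    (F : Finset ℕ) : th s / C ^ 2 * ‖∑ n ∈ F, a n x • e n‖ ≤ newNorm a s C x := by
  classical
  have hC : 0 < C := by linarith [h.one_le]
  have hth := th_pos h.s_pos
  set z := ∑ n ∈ F, a n x • e n with hz
  rcases eq_or_ne z 0 with h0 | h0
  · rw [h0, norm_zero, mul_zero]; exact newNorm_nonneg h x
  · obtain ⟨L, hL1, hL2⟩ := exists_dual_vector 𝕜 z (norm_ne_zero_iff.2 h0)
    set g : ℕ → ℝ := fun n => th s / C ^ 2 * ‖L (e n)‖ with hg
    have hadm : Adm a s C ∅ F g := by
      refine ⟨by simp, fun n => by simp only [hg]; positivity, fun hh => absurd hh (by simp), ?_⟩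
      intro v
      -- choose unimodular multipliers
      have hch : ∀ n, ∃ c : 𝕜, ‖c‖ ≤ 1 ∧ c * (L (e n) * a n v) = ((‖L (e n)‖ * ‖a n v‖ : ℝ) : 𝕜) := by
        intro n
        rcases eq_or_ne (L (e n) * a n v) 0 with hh | hh
        · refine ⟨0, by simp, ?_⟩
          rw [← norm_mul, hh]; simp
        · refine ⟨((‖L (e n) * a n v‖ : ℝ) : 𝕜) * (L (e n) * a n v)⁻¹, ?_, ?_⟩
          · rw [norm_mul, norm_inv, RCLike.norm_ofReal, abs_norm]
            rw [mul_inv_cancel₀ (norm_ne_zero_iff.2 hh)]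
          · rw [mul_assoc, inv_mul_cancel₀ hh, mul_one, norm_mul]
      choose c hc1 hc2 using hch
      have k1 := h.unc F c hc1 v
      have k2 : L (∑ n ∈ F, (c n * a n v) • e n) = ((∑ n ∈ F, ‖L (e n)‖ * ‖a n v‖ : ℝ) : 𝕜) := by
        rw [map_sum]
        push_cast
        apply Finset.sum_congr rfl
        intro n _
        rw [map_smul, smul_eq_mul]
        have := hc2 n
        push_cast at this
        rw [← this]; ring
      have k3 : ∑ n ∈ F, ‖L (e n)‖ * ‖a n v‖ ≤ C * ‖v‖ := by
        have k4 : ‖L (∑ n ∈ F, (c n * a n v) • e n)‖ ≤ C * ‖v‖ := by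
          refine (L.le_opNorm _).trans ?_
          rw [hL1, one_mul]; exact k1
        rw [k2, RCLike.norm_ofReal, abs_of_nonneg
          (Finset.sum_nonneg fun n _ => mul_nonneg (norm_nonneg _) (norm_nonneg _))] at k4
        exact k4
      have k5 : ∑ n ∈ F, g n * ‖a n v‖ = th s / C ^ 2 * ∑ n ∈ F, ‖L (e n)‖ * ‖a n v‖ := by
        rw [Finset.mul_sum]
        apply Finset.sum_congr rfl
        intro n _
        simp only [hg]; ring
      rw [k5]
      calc th s / C ^ 2 * ∑ n ∈ F, ‖L (e n)‖ * ‖a n v‖ ≤ th s / C ^ 2 * (C * ‖v‖) :=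
            mul_le_mul_of_nonneg_left k3 (by positivity)
        _ = th s / C * ‖v‖ := by field_simp
    refine le_trans ?_ (le_newNorm h hadm x)
    unfold val
    simp only [Finset.sum_empty, mul_zero, zero_add]
    have k6 : ‖z‖ ≤ ∑ n ∈ F, ‖L (e n)‖ * ‖a n x‖ := by
      have : ‖L z‖ = ‖z‖ := by rw [hL2]; simp
      rw [← this, hz, map_sum]
      refine (norm_sum_le _ _).trans (Finset.sum_le_sum fun n _ => ?_)
      rw [map_smul, smul_eq_mul, norm_mul, mul_comm]
    calc th s / C ^ 2 * ‖z‖ ≤ th s / C ^ 2 * ∑ n ∈ F, ‖L (e n)‖ * ‖a n x‖ :=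
          mul_le_mul_of_nonneg_left k6 (by positivity)
      _ = ∑ n ∈ F, g n * ‖a n x‖ := by
          rw [Finset.mul_sum]
          apply Finset.sum_congr rfl
          intro n _
          simp only [hg]; ring

lemma newNorm_lower {s C : ℝ} {e : ℕ → X} {a : ℕ → X →L[𝕜] 𝕜} (h : Sys s C e a) (x : X) :
    th s / C ^ 2 * ‖x‖ ≤ newNorm a s C x := by
  have h1 : Filter.Tendsto (fun F : Finset ℕ => th s / C ^ 2 * ‖∑ n ∈ F, a n x • e n‖)
      Filter.atTop (nhds (th s / C ^ 2 * ‖x‖)) := ((h.sum x).norm).const_mul _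
  exact le_of_tendsto' h1 (fun F => newNorm_lower_fin h x F)

/-- **Abstract theorem.** Under the hypotheses of `Sys` there is an equivalent norm for which
greedy sums are best approximations. -/
theorem exists_greedy_norm {s C : ℝ} {e : ℕ → X} {a : ℕ → X →L[𝕜] 𝕜} (h : Sys s C e a) :
    ∃ N : Seminorm 𝕜 X, (∃ c₁ c₂ : ℝ, 0 < c₁ ∧ 0 < c₂ ∧
        ∀ x, c₁ * ‖x‖ ≤ N x ∧ N x ≤ c₂ * ‖x‖) ∧
      ∀ (x : X) (G : Finset ℕ), (∀ n ∈ G, ∀ m, m ∉ G → ‖a m x‖ ≤ ‖a n x‖) →
        ∀ (B : Finset ℕ), B.card ≤ G.card → ∀ b : ℕ → 𝕜,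
          N (x - ∑ n ∈ G, a n x • e n) ≤ N (x - ∑ n ∈ B, b n • e n) := by
  have hC : 0 < C := by linarith [h.one_le]
  have hth := th_pos h.s_pos
  have hsm : ∀ (c : 𝕜) (x : X), newNorm a s C (c • x) = ‖c‖ * newNorm a s C x := by
    intro c x
    apply le_antisymm (newNorm_smul_le h c x)
    rcases eq_or_ne c 0 with rfl | hc
    · rw [norm_zero, zero_mul]; exact newNorm_nonneg h _
    · have k := newNorm_smul_le h c⁻¹ (c • x)
      rw [smul_smul, inv_mul_cancel₀ hc, one_smul, norm_inv] at k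
      have hcp : 0 < ‖c‖ := norm_pos_iff.2 hc
      calc ‖c‖ * newNorm a s C x ≤ ‖c‖ * (‖c‖⁻¹ * newNorm a s C (c • x)) :=
            mul_le_mul_of_nonneg_left k hcp.le
        _ = newNorm a s C (c • x) := by rw [← mul_assoc, mul_inv_cancel₀ hcp.ne', one_mul]
  refine ⟨Seminorm.of (newNorm a s C) (newNorm_add_le h) hsm, ⟨th s / C ^ 2, C + th s / C,
    by positivity, by positivity, fun x => ⟨newNorm_lower h x, newNorm_upper h x⟩⟩, ?_⟩
  intro x G hG B hB b
  exact newNorm_greedy h x G hG B hB b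

end Pool.Agent.TH323.Greedy
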