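import Pool.Agent.TH323.Burk

/-!
# Dyadic cells, Haar functions and the unconditionality inequality
-/

namespace Pool.Agent.TH323.Haar

open MeasureTheory Set Pool.Agent.TH323.Burk

/-- The dyadic interval `[j / 2^k, (j + 1) / 2^k)` attached to `n = 2^k + j`. -/
def cell (n : ℕ) : Set ℝ :=
  Set.Ico (((n - 2 ^ Nat.log 2 n : ℕ) : ℝ) / 2 ^ Nat.log 2 n)
    ((((n - 2 ^ Nat.log 2 n : ℕ) : ℝ) + 1) / 2 ^ Nat.log 2 n)

/-- The label of the dyadic interval of generation `k` containing `x`. -/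
noncomputable def node (k : ℕ) (x : ℝ) : ℕ := 2 ^ k + ⌊(2 : ℝ) ^ k * x⌋₊

lemma mem_cell {n : ℕ} (hn : n ≠ 0) {x : ℝ} (hx : 0 ≤ x) :
    x ∈ cell n ↔ node (Nat.log 2 n) x = n := by
  have h1 : 2 ^ Nat.log 2 n ≤ n := Nat.pow_log_le_self 2 hn
  unfold cell node
  set k := Nat.log 2 n with hk
  obtain ⟨j, hj⟩ : ∃ j, n = 2 ^ k + j := ⟨n - 2 ^ k, by omega⟩
  have hj' : n - 2 ^ k = j := by omega
  rw [hj']
  have h2 : (0 : ℝ) < 2 ^ k := by positivity
  rw [Set.mem_Ico, div_le_iff₀ h2, lt_div_iff₀ h2]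
  constructor
  · rintro ⟨h3, h4⟩
    have : ⌊(2 : ℝ) ^ k * x⌋₊ = j := by
      rw [Nat.floor_eq_iff (by positivity)]
      constructor <;> linarith
    omega
  · intro h3
    have : ⌊(2 : ℝ) ^ k * x⌋₊ = j := by omega
    rw [Nat.floor_eq_iff (by positivity)] at this
    constructor <;> linarith [this.1, this.2]

lemma cell_nonneg {n : ℕ} {x : ℝ} (hx : x ∈ cell n) : 0 ≤ x := by
  unfold cell at hx
  exact le_trans (by positivity) hx.1

lemma log_lt {n : ℕ} : n < 2 ^ (Nat.log 2 n + 1) := Nat.lt_pow_succ_log_self (by norm_num) n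

lemma cell_subset {n : ℕ} (hn : n ≠ 0) : cell n ⊆ Ico (0 : ℝ) 1 := by
  intro x hx
  refine ⟨cell_nonneg hx, ?_⟩
  unfold cell at hx
  refine lt_of_lt_of_le hx.2 ?_
  have h1 : 2 ^ Nat.log 2 n ≤ n := Nat.pow_log_le_self 2 hn
  have h2 : n < 2 ^ (Nat.log 2 n + 1) := log_lt
  rw [pow_succ] at h2
  set k := Nat.log 2 n with hk
  have h3 : (n - 2 ^ k) + 1 ≤ 2 ^ k := by omega
  rw [div_le_one (by positivity)]
  exact_mod_cast h3

lemma node_succ (k : ℕ) (x : ℝ) : node (k + 1) x / 2 = node k x := by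
  unfold node
  have h1 : ⌊(2 : ℝ) ^ (k + 1) * x⌋₊ / 2 = ⌊(2 : ℝ) ^ k * x⌋₊ := by
    have := Nat.floor_div_ofNat ((2 : ℝ) ^ (k + 1) * x) 2
    have e : (2 : ℝ) ^ (k + 1) * x / 2 = (2 : ℝ) ^ k * x := by ring
    rw [← this]
    congr 1
  have h2 : 2 ^ (k + 1) = 2 * 2 ^ k := by ring
  rw [h2]
  omega

lemma node_congr {k l : ℕ} (hl : l ≤ k) {x y : ℝ}
    (h : node k x = node k y) : node l x = node l y := by
  induction k, hl using Nat.le_induction with
  | base => exact h
  | succ m hm ih =>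
    apply ih
    rw [← node_succ m x, ← node_succ m y, h]

lemma node_bounds (k : ℕ) {x : ℝ} (hx : x ∈ Ico (0 : ℝ) 1) :
    2 ^ k ≤ node k x ∧ node k x < 2 ^ (k + 1) := by
  unfold node
  have h1 : ⌊(2 : ℝ) ^ k * x⌋₊ < 2 ^ k := by
    rw [Nat.floor_lt (mul_nonneg (by positivity) hx.1)]
    push_cast
    have : (0 : ℝ) < 2 ^ k := by positivity
    nlinarith [hx.2]
  rw [pow_succ]
  omega

lemma log_node (k : ℕ) {x : ℝ} (hx : x ∈ Ico (0 : ℝ) 1) : Nat.log 2 (node k x) = k :=
  Nat.log_eq_of_pow_le_of_lt_pow (node_bounds k hx).1 (node_bounds k hx).2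

lemma node_ne_zero (k : ℕ) {x : ℝ} (hx : x ∈ Ico (0 : ℝ) 1) : node k x ≠ 0 := by
  have := (node_bounds k hx).1
  have : 0 < 2 ^ k := by positivity
  omega

lemma mem_cell_node (k : ℕ) {x : ℝ} (hx : x ∈ Ico (0 : ℝ) 1) : x ∈ cell (node k x) := by
  rw [mem_cell (node_ne_zero k hx) hx.1, log_node k hx]

lemma log_two_mul {n : ℕ} (hn : n ≠ 0) : Nat.log 2 (2 * n) = Nat.log 2 n + 1 := by
  have h1 : 2 ^ Nat.log 2 n ≤ n := Nat.pow_log_le_self 2 hn
  have h2 : n < 2 ^ (Nat.log 2 n + 1) := log_lt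
  apply Nat.log_eq_of_pow_le_of_lt_pow
  · rw [pow_succ]; omega
  · rw [pow_succ]; omega

lemma log_two_mul_add {n : ℕ} (hn : n ≠ 0) : Nat.log 2 (2 * n + 1) = Nat.log 2 n + 1 := by
  have h1 : 2 ^ Nat.log 2 n ≤ n := Nat.pow_log_le_self 2 hn
  have h2 : n < 2 ^ (Nat.log 2 n + 1) := log_lt
  apply Nat.log_eq_of_pow_le_of_lt_pow
  · rw [pow_succ]; omega
  · rw [pow_succ]; omega

/-- Points of one cell have the same relation to all earlier cells. -/
lemma same {n i : ℕ} (hn : n ≠ 0) (hi : i ≠ 0) (hin : i < 2 * n) {x y : ℝ} (hx : x ∈ cell n)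
    (hy : y ∈ cell n) : x ∈ cell i → y ∈ cell i := by
  have hx0 := cell_nonneg hx
  have hy0 := cell_nonneg hy
  rw [mem_cell hn hx0] at hx
  rw [mem_cell hn hy0] at hy
  rw [mem_cell hi hx0, mem_cell hi hy0]
  have hlog : Nat.log 2 i ≤ Nat.log 2 n + 1 := by
    rw [← log_two_mul hn]
    exact Nat.log_mono_right hin.le
  intro h
  rcases Nat.lt_or_ge (Nat.log 2 n) (Nat.log 2 i) with h1 | h1
  · have h2 : Nat.log 2 i = Nat.log 2 n + 1 := by omega
    rw [h2] at h
    have h3 := node_succ (Nat.log 2 n) x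
    rw [h, hx] at h3
    omega
  · rw [← node_congr h1 (hx.trans hy.symm)]
    exact h

lemma cell_two_mul_subset {n : ℕ} (hn : n ≠ 0) : cell (2 * n) ⊆ cell n := by
  intro x hx
  have hx0 := cell_nonneg hx
  rw [mem_cell (by omega) hx0, log_two_mul hn] at hx
  rw [mem_cell hn hx0, ← node_succ _ x, hx]
  omega

lemma cell_two_mul_add_subset {n : ℕ} (hn : n ≠ 0) : cell (2 * n + 1) ⊆ cell n := by
  intro x hx
  have hx0 := cell_nonneg hx
  rw [mem_cell (by omega) hx0, log_two_mul_add hn] at hx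
  rw [mem_cell hn hx0, ← node_succ _ x, hx]
  omega

lemma cell_split {n : ℕ} (hn : n ≠ 0) {x : ℝ} (hx : x ∈ cell n) :
    (x ∈ cell (2 * n) ∧ x ∉ cell (2 * n + 1)) ∨ (x ∉ cell (2 * n) ∧ x ∈ cell (2 * n + 1)) := by
  have hx0 := cell_nonneg hx
  rw [mem_cell hn hx0, ← node_succ _ x] at hx
  rw [mem_cell (by omega) hx0, mem_cell (by omega) hx0, log_two_mul hn, log_two_mul_add hn]
  omega

lemma cell_disj {n : ℕ} (hn : n ≠ 0) {x : ℝ} (hx : x ∈ cell (2 * n)) : x ∉ cell (2 * n + 1) := by
  rcases cell_split hn (cell_two_mul_subset hn hx) with h | h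
  · exact h.2
  · exact absurd hx h.1

/-- The unnormalised Haar functions. -/
noncomputable def sg (n : ℕ) (x : ℝ) : ℝ :=
  if n = 0 then 1 else (cell (2 * n)).indicator 1 x - (cell (2 * n + 1)).indicator 1 x

lemma sg_zero (x : ℝ) : sg 0 x = 1 := by simp [sg]

lemma sg_left {n : ℕ} (hn : n ≠ 0) {x : ℝ} (hx : x ∈ cell (2 * n)) : sg n x = 1 := by
  unfold sg
  rw [if_neg hn, Set.indicator_of_mem hx, Set.indicator_of_notMem (cell_disj hn hx)]
  simp

lemma sg_right {n : ℕ} (hn : n ≠ 0) {x : ℝ} (hx : x ∈ cell (2 * n + 1)) : sg n x = -1 := by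
  unfold sg
  have : x ∉ cell (2 * n) := fun h => cell_disj hn h hx
  rw [if_neg hn, Set.indicator_of_mem hx, Set.indicator_of_notMem this]
  simp

lemma sg_out {n : ℕ} (hn : n ≠ 0) {x : ℝ} (hx : x ∉ cell n) : sg n x = 0 := by
  unfold sg
  rw [if_neg hn, Set.indicator_of_notMem (fun h => hx (cell_two_mul_subset hn h)),
    Set.indicator_of_notMem (fun h => hx (cell_two_mul_add_subset hn h))]
  simp

lemma sg_const {n m : ℕ} (hmn : m < n) {x y : ℝ} (hx : x ∈ cell n) (hy : y ∈ cell n) :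
    sg m x = sg m y := by
  rcases eq_or_ne m 0 with rfl | hm
  · rw [sg_zero, sg_zero]
  · have hn : n ≠ 0 := by omega
    unfold sg
    rw [if_neg hm, if_neg hm]
    congr 1
    · by_cases h : x ∈ cell (2 * m)
      · rw [Set.indicator_of_mem h,
          Set.indicator_of_mem (same hn (by omega) (by omega) hx hy h)]
        rfl
      · rw [Set.indicator_of_notMem h, Set.indicator_of_notMem
          (fun hh => h (same hn (by omega) (by omega) hy hx hh))]
    · by_cases h : x ∈ cell (2 * m + 1)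
      · rw [Set.indicator_of_mem h,
          Set.indicator_of_mem (same hn (by omega) (by omega) hx hy h)]
        rfl
      · rw [Set.indicator_of_notMem h, Set.indicator_of_notMem
          (fun hh => h (same hn (by omega) (by omega) hy hx hh))]

/-- The partial sums. -/
noncomputable def S (N : ℕ) (a : ℕ → ℝ) (x : ℝ) : ℝ := ∑ n ∈ Finset.range N, a n * sg n x

lemma S_succ (N : ℕ) (a : ℕ → ℝ) (x : ℝ) : S (N + 1) a x = S N a x + a N * sg N x := by
  unfold S; rw [Finset.sum_range_succ]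

lemma S_const {n : ℕ} (a : ℕ → ℝ) {x y : ℝ} (hx : x ∈ cell n) (hy : y ∈ cell n) :
    S n a x = S n a y := by
  unfold S
  apply Finset.sum_congr rfl
  intro m hm
  rw [sg_const (Finset.mem_range.1 hm) hx hy]

/-- Lebesgue measure on `[0, 1)`. -/
noncomputable def mu : Measure ℝ := volume.restrict (Ico (0 : ℝ) 1)

instance : IsProbabilityMeasure mu := ⟨by simp [mu]⟩

lemma measurableSet_cell (n : ℕ) : MeasurableSet (cell n) := measurableSet_Ico

lemma mu_cell {n : ℕ} (hn : n ≠ 0) : mu.real (cell n) = (1 / 2 : ℝ) ^ Nat.log 2 n := by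
  unfold mu
  rw [measureReal_restrict_apply (measurableSet_cell n),
    Set.inter_eq_left.2 (cell_subset hn)]
  unfold cell
  rw [Real.volume_real_Ico_of_le]
  · rw [← sub_div, add_sub_cancel_left, one_div_pow]
  · gcongr
    linarith

lemma integral_cell {n : ℕ} (hn : n ≠ 0) (c : ℝ) :
    ∫ x, (cell n).indicator (fun _ => c) x ∂mu = (1 / 2 : ℝ) ^ Nat.log 2 n * c := by
  rw [integral_indicator (measurableSet_cell n), integral_const, smul_eq_mul]
  rw [measureReal_restrict_apply_univ, mu_cell hn]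

lemma integrable_cell (n : ℕ) (c : ℝ) :
    Integrable (fun x => (cell n).indicator (fun _ => c) x) mu :=
  (integrable_const c).indicator (measurableSet_cell n)

/-- A point of the cell `n`. -/
noncomputable def pt (n : ℕ) : ℝ := ((n - 2 ^ Nat.log 2 n : ℕ) : ℝ) / 2 ^ Nat.log 2 n

lemma pt_mem (n : ℕ) : pt n ∈ cell n := by
  unfold pt cell
  refine ⟨le_rfl, ?_⟩
  gcongr
  linarith

/-- The one-step identity. -/
lemma step {n : ℕ} (hn : n ≠ 0) (V : ℝ → ℝ → ℝ) (a b : ℕ → ℝ) (x : ℝ) :
    V (S (n + 1) a x) (S (n + 1) b x) = V (S n a x) (S n b x)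
      + (cell (2 * n)).indicator (fun _ => V (S n a (pt n) + a n) (S n b (pt n) + b n)
          - V (S n a (pt n)) (S n b (pt n))) x
      + (cell (2 * n + 1)).indicator (fun _ => V (S n a (pt n) - a n) (S n b (pt n) - b n)
          - V (S n a (pt n)) (S n b (pt n))) x := by
  rw [S_succ, S_succ]
  by_cases h : x ∈ cell n
  · rw [S_const a h (pt_mem n), S_const b h (pt_mem n)]
    rcases cell_split hn h with ⟨h1, h2⟩ | ⟨h1, h2⟩
    · rw [Set.indicator_of_mem h1, Set.indicator_of_notMem h2, sg_left hn h1]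
      simp only [mul_one]
      ring
    · rw [Set.indicator_of_notMem h1, Set.indicator_of_mem h2, sg_right hn h2]
      simp only [mul_neg, mul_one, ← sub_eq_add_neg]
      ring
  · rw [Set.indicator_of_notMem (fun h1 => h (cell_two_mul_subset hn h1)),
      Set.indicator_of_notMem (fun h1 => h (cell_two_mul_add_subset hn h1)), sg_out hn h]
    simp

lemma integrable_V (V : ℝ → ℝ → ℝ) (a b : ℕ → ℝ) (n : ℕ) :
    Integrable (fun x => V (S n a x) (S n b x)) mu := by
  induction n with
  | zero =>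
    simp only [S, Finset.range_zero, Finset.sum_empty]
    exact integrable_const _
  | succ n ih =>
    rcases eq_or_ne n 0 with rfl | hn
    · simp only [S, zero_add, Finset.range_one, Finset.sum_singleton, sg_zero]
      exact integrable_const _
    · simp only [step hn V a b]
      exact (ih.add (integrable_cell _ _)).add (integrable_cell _ _)

/-- Integral form of the one-step identity. -/
lemma integral_step {n : ℕ} (hn : n ≠ 0) (V : ℝ → ℝ → ℝ) (a b : ℕ → ℝ) :
    ∫ x, V (S (n + 1) a x) (S (n + 1) b x) ∂mu = ∫ x, V (S n a x) (S n b x) ∂mu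
      + (1 / 2 : ℝ) ^ (Nat.log 2 n + 1) * (V (S n a (pt n) + a n) (S n b (pt n) + b n)
        + V (S n a (pt n) - a n) (S n b (pt n) - b n)
        - 2 * V (S n a (pt n)) (S n b (pt n))) := by
  simp only [step hn V a b]
  have i0 := integrable_V V a b n
  generalize V (S n a (pt n) + a n) (S n b (pt n) + b n) = c1
  generalize V (S n a (pt n) - a n) (S n b (pt n) - b n) = c2
  generalize V (S n a (pt n)) (S n b (pt n)) = c0
  have i1 : Integrable (fun x => V (S n a x) (S n b x)
      + (cell (2 * n)).indicator (fun _ => c1 - c0) x) mu := i0.add (integrable_cell _ _)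
  rw [integral_add i1 (integrable_cell _ _),
    integral_add i0 (integrable_cell _ _), integral_cell (by omega),
    integral_cell (by omega), log_two_mul hn, log_two_mul_add hn]
  ring

lemma integral_U_nonpos {c r : ℝ} (h : Good c r) (a b : ℕ → ℝ)
    (hab : ∀ n, b n = a n ∨ b n = -a n) (n : ℕ) :
    ∫ x, U c r (S n a x) (S n b x) ∂mu ≤ 0 := by
  induction n with
  | zero =>
    simp only [S, Finset.range_zero, Finset.sum_empty]
    rw [integral_const]
    have := U_diag h 0 0 rfl
    simpa using this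
  | succ n ih =>
    rcases eq_or_ne n 0 with rfl | hn
    · simp only [S, zero_add, Finset.range_one, Finset.sum_singleton, sg_zero, mul_one]
      rw [integral_const]
      have := U_diag h (a 0) (b 0) (by
        rcases hab 0 with h1 | h1
        · rw [h1]
        · rw [h1, abs_neg])
      simpa using this
    · rw [integral_step hn]
      have h1 := U_zigzag' h (S n a (pt n)) (S n b (pt n)) (a n) (b n) (hab n)
      have h2 : (1 / 2 : ℝ) ^ (Nat.log 2 n + 1) * (U c r (S n a (pt n) + a n) (S n b (pt n) + b n)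
        + U c r (S n a (pt n) - a n) (S n b (pt n) - b n)
        - 2 * U c r (S n a (pt n)) (S n b (pt n))) ≤ 0 :=
        mul_nonpos_of_nonneg_of_nonpos (by positivity) (by linarith)
      linarith

/-- Unconditionality for signs. -/
lemma sign_bound {c r : ℝ} (h : Good c r) (a b : ℕ → ℝ)
    (hab : ∀ n, b n = a n ∨ b n = -a n) (n : ℕ) :
    ∫ x, |S n b x| ^ r ∂mu ≤ K c r * ∫ x, |S n a x| ^ r ∂mu := by
  have h1 := integral_U_nonpos h a b hab n
  have i1 := integrable_V (fun _ y => |y| ^ r) a b n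
  have i2 := integrable_V (fun x _ => |x| ^ r) a b n
  have i3 := integrable_V (U c r) a b n
  have h2 : ∫ x, (|S n b x| ^ r - K c r * |S n a x| ^ r) ∂mu
      ≤ ∫ x, 2 * U c r (S n a x) (S n b x) ∂mu := by
    apply integral_mono (i1.sub (i2.const_mul _)) (i3.const_mul _)
    intro x
    exact U_major h _ _
  rw [integral_sub i1 (i2.const_mul _), integral_const_mul, integral_const_mul] at h2
  linarith

/-- Unconditionality for real multipliers. -/
lemma mult_bound {c r : ℝ} (h : Good c r) (a : ℕ → ℝ) (n : ℕ) (T : Finset ℕ) :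
    ∀ b : ℕ → ℝ, (∀ i ∈ T, |b i| ≤ |a i|) → (∀ i, i ∉ T → b i = a i ∨ b i = -a i) →
    ∫ x, |S n b x| ^ r ∂mu ≤ K c r * ∫ x, |S n a x| ^ r ∂mu := by
  classical
  have hr := h.hr
  induction T using Finset.induction_on with
  | empty =>
    intro b _ hb
    exact sign_bound h a b (fun i => hb i (by simp)) n
  | insert i T hi ih =>
    intro b hb1 hb2
    -- `b i = p * a i - (1 - p) * a i`
    obtain ⟨p, hp0, hp1, hp⟩ : ∃ p : ℝ, 0 ≤ p ∧ p ≤ 1 ∧ b i = p * a i + (1 - p) * (-a i) := by
      have h1 := hb1 i (Finset.mem_insert_self i T)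
      rcases eq_or_ne (a i) 0 with h0 | h0
      · rw [h0, abs_zero] at h1
        have : b i = 0 := abs_eq_zero.1 (le_antisymm h1 (abs_nonneg _))
        exact ⟨0, le_rfl, zero_le_one, by rw [this, h0]; ring⟩
      · have h2 : |b i / a i| ≤ 1 := by
          rw [abs_div, div_le_one (abs_pos.2 h0)]
          exact h1
        rw [abs_le] at h2
        refine ⟨(1 + b i / a i) / 2, by linarith, by linarith, ?_⟩
        field_simp
        ring
    set b1 := Function.update b i (a i) with hb1'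
    set b2 := Function.update b i (-a i) with hb2'
    have hb1T : ∀ j, j ≠ i → b1 j = b j := fun j hj => by rw [hb1', Function.update_of_ne hj]
    have hb2T : ∀ j, j ≠ i → b2 j = b j := fun j hj => by rw [hb2', Function.update_of_ne hj]
    have hb1i : b1 i = a i := by rw [hb1', Function.update_self]
    have hb2i : b2 i = -a i := by rw [hb2', Function.update_self]
    have k1 := ih b1 (fun j hj => by
        rw [hb1T j (fun hh => hi (hh ▸ hj))]; exact hb1 j (Finset.mem_insert_of_mem hj))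
      (fun j hj => by
        rcases eq_or_ne j i with rfl | hji
        · exact Or.inl hb1i
        · rw [hb1T j hji]; exact hb2 j (by simp [hji, hj]))
    have k2 := ih b2 (fun j hj => by
        rw [hb2T j (fun hh => hi (hh ▸ hj))]; exact hb1 j (Finset.mem_insert_of_mem hj))
      (fun j hj => by
        rcases eq_or_ne j i with rfl | hji
        · exact Or.inr hb2i
        · rw [hb2T j hji]; exact hb2 j (by simp [hji, hj]))
    have hS : ∀ x, S n b x = p * S n b1 x + (1 - p) * S n b2 x := by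
      intro x
      unfold S
      rw [Finset.mul_sum, Finset.mul_sum, ← Finset.sum_add_distrib]
      apply Finset.sum_congr rfl
      intro j _
      rcases eq_or_ne j i with rfl | hji
      · rw [hb1i, hb2i, hp]; ring
      · rw [hb1T j hji, hb2T j hji]; ring
    have hpt : ∀ x, |S n b x| ^ r ≤ p * |S n b1 x| ^ r + (1 - p) * |S n b2 x| ^ r := by
      intro x
      rw [hS x]
      have c1 : |p * S n b1 x + (1 - p) * S n b2 x| ≤ p * |S n b1 x| + (1 - p) * |S n b2 x| := by
        refine (abs_add_le _ _).trans ?_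
        rw [abs_mul, abs_mul, abs_of_nonneg hp0, abs_of_nonneg (by linarith : 0 ≤ 1 - p)]
      have c2 := (convexOn_rpow hr.le).2 (Set.mem_Ici.2 (abs_nonneg (S n b1 x)))
        (Set.mem_Ici.2 (abs_nonneg (S n b2 x))) hp0 (by linarith : 0 ≤ 1 - p) (by ring)
      simp only [smul_eq_mul] at c2
      exact (Real.rpow_le_rpow (abs_nonneg _) c1 (by linarith)).trans c2
    have i1 := integrable_V (fun _ y => |y| ^ r) a b n
    have i2 := integrable_V (fun _ y => |y| ^ r) a b1 n
    have i3 := integrable_V (fun _ y => |y| ^ r) a b2 n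
    calc ∫ x, |S n b x| ^ r ∂mu
        ≤ ∫ x, (p * |S n b1 x| ^ r + (1 - p) * |S n b2 x| ^ r) ∂mu :=
          integral_mono i1 ((i2.const_mul p).add (i3.const_mul (1 - p))) hpt
      _ = p * ∫ x, |S n b1 x| ^ r ∂mu + (1 - p) * ∫ x, |S n b2 x| ^ r ∂mu := by
          rw [integral_add (i2.const_mul p) (i3.const_mul (1 - p)), integral_const_mul,
            integral_const_mul]
      _ ≤ p * (K c r * ∫ x, |S n a x| ^ r ∂mu) + (1 - p) * (K c r * ∫ x, |S n a x| ^ r ∂mu) :=
          add_le_add (mul_le_mul_of_nonneg_left k1 hp0)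
            (mul_le_mul_of_nonneg_left k2 (by linarith))
      _ = K c r * ∫ x, |S n a x| ^ r ∂mu := by ring

end Pool.Agent.TH323.Haar
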