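import Pool.Agent.TH323.Haar

/-!
# Democracy estimates and orthogonality for the Haar functions
-/

namespace Pool.Agent.TH323.Haar

open MeasureTheory Set Pool.Agent.TH323.Burk

/-- The normalising factor. -/
noncomputable def nf (r : ℝ) (n : ℕ) : ℝ := (2 : ℝ) ^ ((Nat.log 2 n : ℝ) / r)

lemma nf_pos (r : ℝ) (n : ℕ) : 0 < nf r n := by unfold nf; positivity

lemma nf_eq (r : ℝ) (n : ℕ) : nf r n = ((2 : ℝ) ^ (1 / r)) ^ Nat.log 2 n := by
  unfold nf
  rw [← Real.rpow_natCast, ← Real.rpow_mul (by norm_num)]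
  congr 1
  ring

/-- The Haar functions normalised in `L_r`. -/
noncomputable def hr (r : ℝ) (n : ℕ) (x : ℝ) : ℝ := nf r n * sg n x

lemma abs_sg {n : ℕ} (hn : n ≠ 0) (x : ℝ) : |sg n x| = (cell n).indicator (fun _ => 1) x := by
  by_cases h : x ∈ cell n
  · rw [Set.indicator_of_mem h]
    rcases cell_split hn h with ⟨h1, _⟩ | ⟨_, h2⟩
    · rw [sg_left hn h1, abs_one]
    · rw [sg_right hn h2, abs_neg, abs_one]
  · rw [Set.indicator_of_notMem h, sg_out hn h, abs_zero]

lemma abs_sg_le (n : ℕ) (x : ℝ) : |sg n x| ≤ 1 := by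
  rcases eq_or_ne n 0 with rfl | hn
  · rw [sg_zero, abs_one]
  · rw [abs_sg hn]
    by_cases h : x ∈ cell n
    · rw [Set.indicator_of_mem h]
    · rw [Set.indicator_of_notMem h]; exact zero_le_one

lemma abs_hr (r : ℝ) (n : ℕ) (x : ℝ) : |hr r n x| = nf r n * |sg n x| := by
  unfold hr
  rw [abs_mul, abs_of_pos (nf_pos r n)]

lemma abs_hr_le (r : ℝ) (n : ℕ) (x : ℝ) : |hr r n x| ≤ nf r n := by
  rw [abs_hr]
  have := abs_sg_le n x
  have h2 := nf_pos r n
  nlinarith

lemma measurable_sg (n : ℕ) : Measurable (sg n) := by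
  unfold sg
  rcases eq_or_ne n 0 with rfl | hn
  · simp only [if_true]
    exact measurable_const
  · simp only [if_neg hn]
    exact (measurable_one.indicator (measurableSet_cell _)).sub
      (measurable_one.indicator (measurableSet_cell _))

lemma measurable_hr (r : ℝ) (n : ℕ) : Measurable (hr r n) := (measurable_sg n).const_mul _

/-- The democracy constant. -/
noncomputable def Dc (r : ℝ) : ℝ := 1 + (2 : ℝ) ^ (1 / r) / ((2 : ℝ) ^ (1 / r) - 1)

lemma rho_gt {r : ℝ} (h : 0 < r) : 1 < (2 : ℝ) ^ (1 / r) :=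
  Real.one_lt_rpow (by norm_num) (by positivity)

lemma one_le_Dc {r : ℝ} (h : 0 < r) : 1 ≤ Dc r := by
  unfold Dc
  have := rho_gt h
  have : 0 ≤ (2 : ℝ) ^ (1 / r) / ((2 : ℝ) ^ (1 / r) - 1) :=
    div_nonneg (by linarith) (by linarith)
  linarith

/-- The pointwise democracy estimate. -/
lemma dem_pt {r : ℝ} (h : 0 < r) {x : ℝ} (hx : x ∈ Ico (0 : ℝ) 1) (A : Finset ℕ) :
    (∑ n ∈ A, |hr r n x|) ^ r ≤ Dc r ^ r * ∑ n ∈ A, |hr r n x| ^ r := by
  classical
  have hrho := rho_gt h
  set ρ := (2 : ℝ) ^ (1 / r) with hρ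
  have hD := one_le_Dc h
  -- it suffices to find `M ∈ A` dominating
  suffices hs : ∑ n ∈ A, |hr r n x| = 0 ∨
      ∃ m ∈ A, ∑ n ∈ A, |hr r n x| ≤ Dc r * |hr r m x| by
    rcases hs with h0 | ⟨m, hm, hle⟩
    · rw [h0, Real.zero_rpow h.ne']
      have : 0 ≤ ∑ n ∈ A, |hr r n x| ^ r :=
        Finset.sum_nonneg fun n _ => Real.rpow_nonneg (abs_nonneg _) _
      positivity
    · have h1 : (∑ n ∈ A, |hr r n x|) ^ r ≤ (Dc r * |hr r m x|) ^ r :=
        Real.rpow_le_rpow (Finset.sum_nonneg fun n _ => abs_nonneg _) hle h.le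
      rw [Real.mul_rpow (by linarith) (abs_nonneg _)] at h1
      refine h1.trans (mul_le_mul_of_nonneg_left ?_ (Real.rpow_nonneg (by linarith) _))
      exact Finset.single_le_sum (f := fun n => |hr r n x| ^ r)
        (fun n _ => Real.rpow_nonneg (abs_nonneg _) _) hm
  set A' := A.filter (fun n => n ≠ 0 ∧ x ∈ cell n) with hA'
  have hval : ∀ n ∈ A', |hr r n x| = ρ ^ Nat.log 2 n := by
    intro n hn
    rw [hA', Finset.mem_filter] at hn
    rw [abs_hr, abs_sg hn.2.1, Set.indicator_of_mem hn.2.2, mul_one, nf_eq]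
  have hsum : ∑ n ∈ A, |hr r n x| ≤ 1 + ∑ n ∈ A', |hr r n x| ∧
      (0 ∉ A → ∑ n ∈ A, |hr r n x| ≤ ∑ n ∈ A', |hr r n x|) := by
    have e1 := Finset.sum_filter_add_sum_filter_not A (fun n => n ≠ 0 ∧ x ∈ cell n)
      (fun n => |hr r n x|)
    rw [← hA'] at e1
    have e2 : ∑ n ∈ A.filter (fun n => ¬ (n ≠ 0 ∧ x ∈ cell n)), |hr r n x|
        = ∑ n ∈ A.filter (fun n => ¬ (n ≠ 0 ∧ x ∈ cell n)), (if n = 0 then (1 : ℝ) else 0) := by
      apply Finset.sum_congr rfl
      intro n hn
      rw [Finset.mem_filter] at hn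
      rcases eq_or_ne n 0 with rfl | hn0
      · rw [if_pos rfl, abs_hr, sg_zero]; simp [nf]
      · rw [if_neg hn0, abs_hr, abs_sg hn0, Set.indicator_of_notMem
          (fun hh => hn.2 ⟨hn0, hh⟩), mul_zero]
    have e3 : ∑ n ∈ A.filter (fun n => ¬ (n ≠ 0 ∧ x ∈ cell n)), (if n = 0 then (1 : ℝ) else 0)
        = if 0 ∈ A then 1 else 0 := by
      rw [Finset.sum_ite_eq']
      simp
    rw [e2, e3] at e1
    constructor
    · rw [← e1]; split_ifs <;> linarith
    · intro h0
      rw [← e1, if_neg h0, add_zero]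
  rcases A'.eq_empty_or_nonempty with he | hne
  · rw [he, Finset.sum_empty, add_zero] at hsum
    by_cases h0 : 0 ∈ A
    · right
      refine ⟨0, h0, hsum.1.trans ?_⟩
      rw [abs_hr, sg_zero]
      simp [nf, hD]
    · left
      exact le_antisymm (hsum.2 h0) (Finset.sum_nonneg fun n _ => abs_nonneg _)
  · right
    obtain ⟨m, hm, hmax⟩ := Finset.exists_max_image A' (fun n => Nat.log 2 n) hne
    refine ⟨m, (Finset.mem_filter.1 hm).1, ?_⟩
    rw [hval m hm]
    have hinj : Set.InjOn (fun n => Nat.log 2 n) (A' : Set ℕ) := by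
      intro n hn k hk hnk
      rw [Finset.mem_coe, hA', Finset.mem_filter] at hn hk
      have h1 := hn.2.2
      have h2 := hk.2.2
      rw [mem_cell hn.2.1 hx.1] at h1
      rw [mem_cell hk.2.1 hx.1] at h2
      simp only at hnk
      rw [← h1, ← h2, hnk]
    have h3 : ∑ n ∈ A', |hr r n x| ≤ ρ ^ Nat.log 2 m * (ρ / (ρ - 1)) := by
      have g1 : ∑ n ∈ A', |hr r n x| = ∑ k ∈ A'.image (fun n => Nat.log 2 n), ρ ^ k := by
        rw [Finset.sum_image hinj]
        exact Finset.sum_congr rfl hval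
      have g2 : A'.image (fun n => Nat.log 2 n) ⊆ Finset.range (Nat.log 2 m + 1) := by
        intro k hk
        rw [Finset.mem_image] at hk
        obtain ⟨n, hn, rfl⟩ := hk
        rw [Finset.mem_range]
        have := hmax n hn
        omega
      rw [g1]
      refine (Finset.sum_le_sum_of_subset_of_nonneg g2 (fun k _ _ => by positivity)).trans ?_
      rw [geom_sum_eq hrho.ne']
      rw [div_le_iff₀ (by linarith)]
      have : ρ ^ Nat.log 2 m * (ρ / (ρ - 1)) * (ρ - 1) = ρ ^ (Nat.log 2 m + 1) := by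
        have : ρ - 1 ≠ 0 := by linarith
        field_simp
        rw [pow_succ]
      rw [this]
      linarith
    have h4 : 1 ≤ ρ ^ Nat.log 2 m := one_le_pow₀ hrho.le
    have h5 : Dc r = 1 + ρ / (ρ - 1) := rfl
    rw [h5]
    have := hsum.1
    nlinarith

lemma integrable_abs_hr_rpow (r : ℝ) (h : 0 < r) (n : ℕ) :
    Integrable (fun x => |hr r n x| ^ r) mu := by
  refine (integrable_const (nf r n ^ r)).mono' ?_ ?_
  · exact ((measurable_hr r n).abs.pow_const r).aestronglyMeasurable
  · refine Filter.Eventually.of_forall fun x => ?_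
    rw [Real.norm_of_nonneg (by positivity)]
    exact Real.rpow_le_rpow (abs_nonneg _) (abs_hr_le r n x) h.le

lemma nf_rpow {r : ℝ} (h : r ≠ 0) (n : ℕ) : nf r n ^ r = (2 : ℝ) ^ Nat.log 2 n := by
  unfold nf
  rw [← Real.rpow_mul (by norm_num), div_mul_cancel₀ _ h, Real.rpow_natCast]

lemma integral_abs_hr_rpow {r : ℝ} (h : 0 < r) (n : ℕ) : ∫ x, |hr r n x| ^ r ∂mu = 1 := by
  rcases eq_or_ne n 0 with rfl | hn
  · have : (fun x => |hr r 0 x| ^ r) = fun _ => (1 : ℝ) := by
      funext x
      rw [abs_hr, sg_zero]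
      simp [nf]
    rw [this]
    simp
  · have : (fun x => |hr r n x| ^ r)
        = fun x => (cell n).indicator (fun _ => (2 : ℝ) ^ Nat.log 2 n) x := by
      funext x
      rw [abs_hr, abs_sg hn]
      by_cases hx : x ∈ cell n
      · rw [Set.indicator_of_mem hx, Set.indicator_of_mem hx, mul_one, nf_rpow h.ne']
      · rw [Set.indicator_of_notMem hx, Set.indicator_of_notMem hx, mul_zero,
          Real.zero_rpow h.ne']
    rw [this, integral_cell hn, ← mul_pow]
    norm_num

/-- The integrated democracy estimate. -/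
lemma dem_int {r : ℝ} (h : 0 < r) (A : Finset ℕ) :
    ∫ x, (∑ n ∈ A, |hr r n x|) ^ r ∂mu ≤ Dc r ^ r * A.card := by
  have h1 : ∫ x, (∑ n ∈ A, |hr r n x|) ^ r ∂mu
      ≤ ∫ x, Dc r ^ r * ∑ n ∈ A, |hr r n x| ^ r ∂mu := by
    apply integral_mono_of_nonneg
    · refine Filter.Eventually.of_forall fun x => ?_
      exact Real.rpow_nonneg (Finset.sum_nonneg fun n _ => abs_nonneg _) _
    · exact (integrable_finsetSum A (fun n _ => integrable_abs_hr_rpow r h n)).const_mul _
    · unfold mu
      exact ae_restrict_of_forall_mem measurableSet_Ico (fun x hx => dem_pt h hx A)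
  refine h1.trans ?_
  rw [integral_const_mul, integral_finsetSum _ (fun n _ => integrable_abs_hr_rpow r h n)]
  simp only [integral_abs_hr_rpow h]
  simp

/-- products of different Haar functions -/
lemma integral_sg_mul {m n : ℕ} (hmn : m < n) : ∫ x, sg m x * sg n x ∂mu = 0 := by
  have hn : n ≠ 0 := by omega
  have e : (fun x => sg m x * sg n x) = fun x => sg m (pt n) *
      ((cell (2 * n)).indicator (fun _ => (1 : ℝ)) x
        - (cell (2 * n + 1)).indicator (fun _ => (1 : ℝ)) x) := by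
    funext x
    by_cases hx : x ∈ cell n
    · rw [sg_const hmn hx (pt_mem n)]
      congr 1
      unfold sg
      rw [if_neg hn]
      rfl
    · rw [sg_out hn hx, Set.indicator_of_notMem (fun h => hx (cell_two_mul_subset hn h)),
        Set.indicator_of_notMem (fun h => hx (cell_two_mul_add_subset hn h))]
      ring
  rw [e, integral_const_mul, integral_sub (integrable_cell _ _) (integrable_cell _ _),
    integral_cell (by omega), integral_cell (by omega), log_two_mul hn, log_two_mul_add hn]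
  ring

lemma integral_sg_mul_self (n : ℕ) : ∫ x, sg n x * sg n x ∂mu = (1 / 2 : ℝ) ^ Nat.log 2 n := by
  rcases eq_or_ne n 0 with rfl | hn
  · simp [sg_zero]
  · have e : (fun x => sg n x * sg n x) = fun x => (cell n).indicator (fun _ => (1 : ℝ)) x := by
      funext x
      rw [← abs_mul_abs_self, abs_sg hn]
      by_cases hx : x ∈ cell n
      · rw [Set.indicator_of_mem hx]; norm_num
      · rw [Set.indicator_of_notMem hx]; norm_num
    rw [e, integral_cell hn, mul_one]

lemma integral_hr_mul {p q : ℝ} (hpq : p.HolderConjugate q) (m n : ℕ) :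
    ∫ x, hr p n x * hr q m x ∂mu = if m = n then 1 else 0 := by
  have e : ∀ x, hr p n x * hr q m x = (nf p n * nf q m) * (sg n x * sg m x) := by
    intro x; unfold hr; ring
  simp only [e]
  rw [integral_const_mul]
  split_ifs with h
  · subst h
    rw [integral_sg_mul_self]
    unfold nf
    rw [← Real.rpow_add (by norm_num)]
    have : (Nat.log 2 m : ℝ) / p + (Nat.log 2 m : ℝ) / q = Nat.log 2 m := by
      rw [div_eq_mul_inv, div_eq_mul_inv, ← mul_add, hpq.inv_add_inv_eq_one, mul_one]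
    rw [this, Real.rpow_natCast, ← mul_pow]
    norm_num
  · rcases Nat.lt_or_gt_of_ne h with h1 | h1
    · have : ∫ x, sg n x * sg m x ∂mu = 0 := by
        rw [← integral_sg_mul h1]
        congr 1
        funext x
        ring
      rw [this, mul_zero]
    · rw [integral_sg_mul h1, mul_zero]

end Pool.Agent.TH323.Haar
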