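import Pool.Agent.TH323.Haar2
import Pool.Agent.TH323.Greedy

/-!
# The Haar system in `L_p`
-/

namespace Pool.Agent.TH323.Haar

open MeasureTheory Set Filter Topology Pool.Agent.TH323.Burk

variable {𝕜 : Type} [RCLike 𝕜] {p q : ℝ}

/-- The Haar functions with values in `𝕜`. -/
noncomputable def hf (𝕜 : Type) [RCLike 𝕜] (r : ℝ) (n : ℕ) (x : ℝ) : 𝕜 := ((hr r n x : ℝ) : 𝕜)

lemma norm_hf (r : ℝ) (n : ℕ) (x : ℝ) : ‖hf 𝕜 r n x‖ = |hr r n x| := by
  unfold hf; rw [RCLike.norm_ofReal]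

lemma measurable_hf (r : ℝ) (n : ℕ) : Measurable (hf 𝕜 r n) :=
  RCLike.measurable_ofReal.comp (measurable_hr r n)

lemma memLp_hf (r : ℝ) (n : ℕ) (P : ENNReal) : MemLp (hf 𝕜 r n) P mu :=
  MemLp.of_bound (measurable_hf r n).aestronglyMeasurable (nf r n)
    (Eventually.of_forall fun x => by rw [norm_hf]; exact abs_hr_le r n x)

lemma memLp_sum (r : ℝ) (c : ℕ → 𝕜) (F : Finset ℕ) (P : ENNReal) :
    MemLp (fun x => ∑ n ∈ F, c n * hf 𝕜 r n x) P mu :=
  memLp_finsetSum F (fun n _ => (memLp_hf r n P).const_mul (c n))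

/-- The Haar system in `L_p`. -/
noncomputable def hv (𝕜 : Type) [RCLike 𝕜] (p : ℝ) (n : ℕ) : Lp 𝕜 (ENNReal.ofReal p) mu :=
  (memLp_hf p n _).toLp _

lemma sum_hv (c : ℕ → 𝕜) (F : Finset ℕ) :
    ∑ n ∈ F, c n • hv 𝕜 p n = (memLp_sum p c F (ENNReal.ofReal p)).toLp _ := by
  classical
  induction F using Finset.induction_on with
  | empty =>
    rw [Finset.sum_empty]
    symm
    rw [← MemLp.toLp_zero (MemLp.zero (p := ENNReal.ofReal p) (μ := mu) (ε := 𝕜))]
    apply MemLp.toLp_congr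
    exact Eventually.of_forall fun x => by simp
  | insert i F hi ih =>
    rw [Finset.sum_insert hi, ih]
    unfold hv
    rw [← MemLp.toLp_const_smul, ← MemLp.toLp_add]
    apply MemLp.toLp_congr
    refine Eventually.of_forall fun x => ?_
    simp only [Pi.add_apply, Pi.smul_apply, smul_eq_mul]
    rw [Finset.sum_insert hi]

lemma norm_toLp' {f : ℝ → 𝕜} (hp : 1 < p) (h : MemLp f (ENNReal.ofReal p) mu) :
    ‖h.toLp f‖ = (∫ x, ‖f x‖ ^ p ∂mu) ^ (1 / p) := by
  have hp0 : 0 < p := by linarith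
  rw [Lp.norm_toLp, h.eLpNorm_eq_integral_rpow_norm (by simpa using hp0) ENNReal.ofReal_ne_top,
    ENNReal.toReal_ofReal hp0.le, ENNReal.toReal_ofReal (by positivity), one_div]

lemma norm_Lp (hp : 1 < p) (f : Lp 𝕜 (ENNReal.ofReal p) mu) :
    ‖f‖ = (∫ x, ‖f x‖ ^ p ∂mu) ^ (1 / p) := by
  have h := norm_toLp' hp (Lp.memLp f)
  rwa [Lp.toLp_coeFn] at h

lemma one_le_ofReal (hp : 1 < p) : (1 : ENNReal) ≤ ENNReal.ofReal p := by
  rw [← ENNReal.ofReal_one]
  exact ENNReal.ofReal_le_ofReal hp.le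

lemma integrable_coef (hp : 1 < p) (n : ℕ) (f : Lp 𝕜 (ENNReal.ofReal p) mu) :
    Integrable (fun x => f x * hf 𝕜 q n x) mu :=
  ((Lp.memLp f).integrable (one_le_ofReal hp)).mul_bdd
    (measurable_hf q n).aestronglyMeasurable (c := nf q n)
    (Eventually.of_forall fun x => by rw [norm_hf]; exact abs_hr_le q n x)

/-- The coefficient functional as a linear map. -/
noncomputable def coefL (hp : 1 < p) (q : ℝ) (n : ℕ) :
    Lp 𝕜 (ENNReal.ofReal p) mu →ₗ[𝕜] 𝕜 where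
  toFun f := ∫ x, f x * hf 𝕜 q n x ∂mu
  map_add' f g := by
    rw [← integral_add (integrable_coef hp n f) (integrable_coef hp n g)]
    apply integral_congr_ae
    filter_upwards [Lp.coeFn_add f g] with x hx
    rw [hx, Pi.add_apply, add_mul]
  map_smul' c f := by
    simp only [RingHom.id_apply, smul_eq_mul]
    rw [← integral_const_mul]
    apply integral_congr_ae
    filter_upwards [Lp.coeFn_smul c f] with x hx
    rw [hx, Pi.smul_apply, smul_eq_mul, mul_assoc]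

lemma coef_sum_le (hp : 1 < p) (hpq : p.HolderConjugate q) (A : Finset ℕ)
    (f : Lp 𝕜 (ENNReal.ofReal p) mu) :
    ∑ n ∈ A, ‖coefL hp q n f‖ ≤ Dc q * (A.card : ℝ) ^ (1 / q) * ‖f‖ := by
  have hp0 : 0 < p := by linarith
  have hq0 : 0 < q := hpq.symm.pos
  have hi : ∀ n, Integrable (fun x => ‖f x‖ * |hr q n x|) mu := by
    intro n
    have := (integrable_coef (q := q) hp n f).norm
    refine this.congr (Eventually.of_forall fun x => ?_)
    simp only [norm_mul, norm_hf]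
  have h1 : ∀ n ∈ A, ‖coefL hp q n f‖ ≤ ∫ x, ‖f x‖ * |hr q n x| ∂mu := by
    intro n _
    refine (norm_integral_le_integral_norm _).trans (le_of_eq ?_)
    apply integral_congr_ae
    refine Eventually.of_forall fun x => ?_
    simp only [norm_mul, norm_hf]
  have h2 : ∑ n ∈ A, ∫ x, ‖f x‖ * |hr q n x| ∂mu
      = ∫ x, ‖f x‖ * (∑ n ∈ A, |hr q n x|) ∂mu := by
    rw [← integral_finsetSum _ (fun n _ => hi n)]
    congr 1
    funext x
    rw [Finset.mul_sum]
  have hg : MemLp (fun x => ∑ n ∈ A, |hr q n x|) (ENNReal.ofReal q) mu := by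
    refine memLp_finsetSum A (fun n _ => ?_)
    refine MemLp.of_bound (measurable_hr q n).abs.aestronglyMeasurable (nf q n)
      (Eventually.of_forall fun x => ?_)
    rw [Real.norm_eq_abs, abs_abs]
    exact abs_hr_le q n x
  have h3 := integral_mul_norm_le_Lp_mul_Lq hpq (Lp.memLp f).norm hg
  have h4 : ∀ x, ‖∑ n ∈ A, |hr q n x|‖ = ∑ n ∈ A, |hr q n x| := fun x =>
    Real.norm_of_nonneg (Finset.sum_nonneg fun n _ => abs_nonneg _)
  simp only [norm_norm, h4] at h3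
  rw [← norm_Lp hp f] at h3
  have h5 : (∫ x, (∑ n ∈ A, |hr q n x|) ^ q ∂mu) ^ (1 / q) ≤ Dc q * (A.card : ℝ) ^ (1 / q) := by
    have h6 := dem_int hq0 A
    have h7 : 0 ≤ ∫ x, (∑ n ∈ A, |hr q n x|) ^ q ∂mu :=
      integral_nonneg fun x => Real.rpow_nonneg (Finset.sum_nonneg fun n _ => abs_nonneg _) _
    have hD : 0 ≤ Dc q := by linarith [one_le_Dc hq0]
    refine (Real.rpow_le_rpow h7 h6 (by positivity)).trans (le_of_eq ?_)
    rw [Real.mul_rpow (Real.rpow_nonneg hD _) (by positivity), ← Real.rpow_mul hD,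
      mul_one_div_cancel hq0.ne', Real.rpow_one]
  calc ∑ n ∈ A, ‖coefL hp q n f‖ ≤ ∑ n ∈ A, ∫ x, ‖f x‖ * |hr q n x| ∂mu := Finset.sum_le_sum h1
    _ = ∫ x, ‖f x‖ * (∑ n ∈ A, |hr q n x|) ∂mu := h2
    _ ≤ ‖f‖ * (∫ x, (∑ n ∈ A, |hr q n x|) ^ q ∂mu) ^ (1 / q) := h3
    _ ≤ ‖f‖ * (Dc q * (A.card : ℝ) ^ (1 / q)) := mul_le_mul_of_nonneg_left h5 (by rw [norm_Lp hp f]; positivity)
    _ = Dc q * (A.card : ℝ) ^ (1 / q) * ‖f‖ := by ring

/-- Upper democracy. -/
lemma sum_hv_le (hp : 1 < p) (A : Finset ℕ) :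
    ‖∑ n ∈ A, hv 𝕜 p n‖ ≤ Dc p * (A.card : ℝ) ^ (1 / p) := by
  have hp0 : 0 < p := by linarith
  have hD : 0 ≤ Dc p := by linarith [one_le_Dc hp0]
  have e : ∑ n ∈ A, hv 𝕜 p n = ∑ n ∈ A, (1 : 𝕜) • hv 𝕜 p n := by simp
  rw [e, sum_hv (fun _ => (1 : 𝕜)) A, norm_toLp' hp]
  have h1 : ∫ x, ‖∑ n ∈ A, (1 : 𝕜) * hf 𝕜 p n x‖ ^ p ∂mu
      ≤ ∫ x, (∑ n ∈ A, |hr p n x|) ^ p ∂mu := by
    have hg : MemLp (fun x => ∑ n ∈ A, |hr p n x|) (ENNReal.ofReal p) mu := by
      refine memLp_finsetSum A (fun n _ => ?_)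
      refine MemLp.of_bound (measurable_hr p n).abs.aestronglyMeasurable (nf p n)
        (Eventually.of_forall fun x => ?_)
      rw [Real.norm_eq_abs, abs_abs]
      exact abs_hr_le p n x
    apply integral_mono_of_nonneg
    · exact Eventually.of_forall fun x => by positivity
    · have := hg.integrable_norm_rpow (by simpa using hp0) ENNReal.ofReal_ne_top
      rw [ENNReal.toReal_ofReal hp0.le] at this
      refine this.congr (Eventually.of_forall fun x => ?_)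
      simp only
      rw [Real.norm_of_nonneg (Finset.sum_nonneg fun n _ => abs_nonneg _)]
    · refine Eventually.of_forall fun x => ?_
      apply Real.rpow_le_rpow (norm_nonneg _) _ hp0.le
      refine (norm_sum_le _ _).trans (le_of_eq ?_)
      apply Finset.sum_congr rfl
      intro n _
      rw [one_mul, norm_hf]
  have h2 := h1.trans (dem_int hp0 A)
  have h3 : 0 ≤ ∫ x, ‖∑ n ∈ A, (1 : 𝕜) * hf 𝕜 p n x‖ ^ p ∂mu :=
    integral_nonneg fun x => by positivity
  refine (Real.rpow_le_rpow h3 h2 (by positivity)).trans (le_of_eq ?_)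
  rw [Real.mul_rpow (Real.rpow_nonneg hD _) (by positivity), ← Real.rpow_mul hD,
    mul_one_div_cancel hp0.ne', Real.rpow_one]

/-- Biorthogonality. -/
lemma coefL_hv (hp : 1 < p) (hpq : p.HolderConjugate q) (m n : ℕ) :
    coefL hp q m (hv 𝕜 p n) = if m = n then 1 else 0 := by
  have h1 : coefL hp q m (hv 𝕜 p n) = ∫ x, ((hr p n x * hr q m x : ℝ) : 𝕜) ∂mu := by
    unfold coefL hv
    simp only [LinearMap.coe_mk, AddHom.coe_mk]
    apply integral_congr_ae
    filter_upwards [MemLp.coeFn_toLp (memLp_hf (𝕜 := 𝕜) p n (ENNReal.ofReal p))] with x hx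
    rw [hx]
    unfold hf
    push_cast
    rfl
  rw [h1, integral_ofReal, integral_hr_mul hpq]
  split_ifs <;> simp

section
variable [Fact (1 ≤ ENNReal.ofReal p)]

/-- The coefficient functional. -/
noncomputable def coef (hp : 1 < p) (hpq : p.HolderConjugate q) (n : ℕ) :
    Lp 𝕜 (ENNReal.ofReal p) mu →L[𝕜] 𝕜 :=
  (coefL hp q n).mkContinuous (Dc q) (fun f => by
    have := coef_sum_le hp hpq {n} f
    simpa using this)

lemma coef_apply (hp : 1 < p) (hpq : p.HolderConjugate q) (n : ℕ)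
    (f : Lp 𝕜 (ENNReal.ofReal p) mu) : coef hp hpq n f = coefL hp q n f := rfl

end

end Pool.Agent.TH323.Haar
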