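import Pool.Agent.TH323.Haar3

/-!
# The Haar system in `L_p`: unconditionality, density and expansions
-/

namespace Pool.Agent.TH323.Haar

open MeasureTheory Set Filter Topology Pool.Agent.TH323.Burk

variable {𝕜 : Type} [RCLike 𝕜] {p q : ℝ}

/-- The Haar sum with real coefficients. -/
lemma norm_real_sum (hp : 1 < p) (N : ℕ) (u : ℕ → ℝ) :
    ‖∑ n ∈ Finset.range N, ((u n : ℝ) : 𝕜) • hv 𝕜 p n‖
      = (∫ x, |S N (fun n => u n * nf p n) x| ^ p ∂mu) ^ (1 / p) := by
  rw [sum_hv (fun n => ((u n : ℝ) : 𝕜)), norm_toLp' hp]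
  congr 1
  apply integral_congr_ae
  refine Eventually.of_forall fun x => ?_
  have e : ∑ n ∈ Finset.range N, ((u n : ℝ) : 𝕜) * hf 𝕜 p n x
      = ((S N (fun n => u n * nf p n) x : ℝ) : 𝕜) := by
    unfold S hf hr
    push_cast
    apply Finset.sum_congr rfl
    intro n _
    ring
  simp only [e, RCLike.norm_ofReal]

/-- Unconditionality, real coefficients. -/
lemma real_unc {c : ℝ} (hp : 1 < p) (hc : Good c p) (N : ℕ) (u v : ℕ → ℝ)
    (huv : ∀ n, |u n| ≤ |v n|) :
    ‖∑ n ∈ Finset.range N, ((u n : ℝ) : 𝕜) • hv 𝕜 p n‖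
      ≤ K c p ^ (1 / p) * ‖∑ n ∈ Finset.range N, ((v n : ℝ) : 𝕜) • hv 𝕜 p n‖ := by
  have hp0 : 0 < p := by linarith
  have hc0 : 0 < c := by linarith [hc.h1]
  have hK : 0 ≤ K c p := by unfold K; positivity
  rw [norm_real_sum hp, norm_real_sum hp]
  have h1 := mult_bound hc (fun n => v n * nf p n) N (Finset.range N)
    (fun n => if n < N then u n * nf p n else v n * nf p n) (by
      intro i hi
      rw [Finset.mem_range] at hi
      simp only [if_pos hi]
      rw [abs_mul, abs_mul]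
      exact mul_le_mul_of_nonneg_right (huv i) (abs_nonneg _)) (by
      intro i hi
      rw [Finset.mem_range] at hi
      left
      simp only [if_neg hi])
  have e : ∀ x, S N (fun n => if n < N then u n * nf p n else v n * nf p n) x
      = S N (fun n => u n * nf p n) x := by
    intro x
    unfold S
    apply Finset.sum_congr rfl
    intro n hn
    rw [Finset.mem_range] at hn
    simp only [if_pos hn]
  simp only [e] at h1
  have h2 : 0 ≤ ∫ x, |S N (fun n => u n * nf p n) x| ^ p ∂mu :=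
    integral_nonneg fun x => by positivity
  have h3 : 0 ≤ ∫ x, |S N (fun n => v n * nf p n) x| ^ p ∂mu :=
    integral_nonneg fun x => by positivity
  rw [← Real.mul_rpow hK h3]
  exact Real.rpow_le_rpow h2 h1 (by positivity)

lemma re_le (hp : 1 < p) (N : ℕ) (z : ℕ → 𝕜) (L : 𝕜 →ₗ[ℝ] ℝ) (hL : ∀ w, |L w| ≤ ‖w‖) :
    ‖∑ n ∈ Finset.range N, ((L (z n) : ℝ) : 𝕜) • hv 𝕜 p n‖
      ≤ ‖∑ n ∈ Finset.range N, z n • hv 𝕜 p n‖ := by
  have hp0 : 0 < p := by linarith
  rw [norm_real_sum hp, sum_hv z, norm_toLp' hp]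
  apply Real.rpow_le_rpow (integral_nonneg fun x => by positivity) _ (by positivity)
  apply integral_mono_of_nonneg
  · exact Eventually.of_forall fun x => by positivity
  · have := (memLp_sum (𝕜 := 𝕜) p z (Finset.range N) (ENNReal.ofReal p)).integrable_norm_rpow
      (by simpa using hp0) ENNReal.ofReal_ne_top
    rwa [ENNReal.toReal_ofReal hp0.le] at this
  · refine Eventually.of_forall fun x => ?_
    apply Real.rpow_le_rpow (abs_nonneg _) _ hp0.le
    have e : S N (fun n => L (z n) * nf p n) x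
        = L (∑ n ∈ Finset.range N, z n * hf 𝕜 p n x) := by
      unfold S
      rw [map_sum]
      apply Finset.sum_congr rfl
      intro n _
      have : z n * hf 𝕜 p n x = (hr p n x) • z n := by
        unfold hf
        rw [mul_comm, RCLike.real_smul_eq_coe_mul]
      rw [this, map_smul, smul_eq_mul]
      unfold hr
      ring
    rw [e]
    exact hL _

lemma norm_I_le : ‖(RCLike.I : 𝕜)‖ ≤ 1 := by
  by_cases h : (RCLike.I : 𝕜) = 0
  · rw [h, norm_zero]; exact zero_le_one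
  · exact (RCLike.norm_I_of_ne_zero h).le

section
variable [Fact (1 ≤ ENNReal.ofReal p)]

/-- Unconditionality on finite sums. -/
lemma unc_fin {c : ℝ} (hp : 1 < p) (hc : Good c p) (N : ℕ) (z ε : ℕ → 𝕜)
    (hε : ∀ n, ‖ε n‖ ≤ 1) :
    ‖∑ n ∈ Finset.range N, (ε n * z n) • hv 𝕜 p n‖
      ≤ 4 * K c p ^ (1 / p) * ‖∑ n ∈ Finset.range N, z n • hv 𝕜 p n‖ := by
  set R : (ℕ → ℝ) → Lp 𝕜 (ENNReal.ofReal p) mu := fun u =>
    ∑ n ∈ Finset.range N, ((u n : ℝ) : 𝕜) • hv 𝕜 p n with hR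
  set T := ‖∑ n ∈ Finset.range N, z n • hv 𝕜 p n‖ with hT
  have hK0 : 0 ≤ K c p ^ (1 / p) := by
    have hc0 : 0 < c := by linarith [hc.h1]
    unfold K; positivity
  have hre : ‖R (fun n => RCLike.re (z n))‖ ≤ T :=
    re_le hp N z RCLike.reLm (fun w => RCLike.abs_re_le_norm w)
  have him : ‖R (fun n => RCLike.im (z n))‖ ≤ T :=
    re_le hp N z RCLike.imLm (fun w => RCLike.abs_im_le_norm w)
  have hb : ∀ (a b : ℕ → ℝ), (∀ n, |a n| ≤ 1) → ‖R (fun n => a n * b n)‖
      ≤ K c p ^ (1 / p) * ‖R b‖ := by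
    intro a b ha
    apply real_unc hp hc
    intro n
    rw [abs_mul]
    have := abs_nonneg (b n)
    nlinarith [ha n]
  have hεr : ∀ n, |RCLike.re (ε n)| ≤ 1 := fun n => (RCLike.abs_re_le_norm _).trans (hε n)
  have hεi : ∀ n, |RCLike.im (ε n)| ≤ 1 := fun n => (RCLike.abs_im_le_norm _).trans (hε n)
  have hrr : ‖R (fun n => RCLike.re (ε n) * RCLike.re (z n))‖ ≤ K c p ^ (1 / p) * T :=
    (hb _ _ hεr).trans (mul_le_mul_of_nonneg_left hre hK0)
  have hii : ‖R (fun n => RCLike.im (ε n) * RCLike.im (z n))‖ ≤ K c p ^ (1 / p) * T :=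
    (hb _ _ hεi).trans (mul_le_mul_of_nonneg_left him hK0)
  have hri : ‖R (fun n => RCLike.re (ε n) * RCLike.im (z n))‖ ≤ K c p ^ (1 / p) * T :=
    (hb _ _ hεr).trans (mul_le_mul_of_nonneg_left him hK0)
  have hir : ‖R (fun n => RCLike.im (ε n) * RCLike.re (z n))‖ ≤ K c p ^ (1 / p) * T :=
    (hb _ _ hεi).trans (mul_le_mul_of_nonneg_left hre hK0)
  have e : ∑ n ∈ Finset.range N, (ε n * z n) • hv 𝕜 p n
      = R (fun n => RCLike.re (ε n) * RCLike.re (z n))
        - R (fun n => RCLike.im (ε n) * RCLike.im (z n))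
        + (RCLike.I : 𝕜) • (R (fun n => RCLike.re (ε n) * RCLike.im (z n))
          + R (fun n => RCLike.im (ε n) * RCLike.re (z n))) := by
    simp only [hR]
    rw [← Finset.sum_sub_distrib, ← Finset.sum_add_distrib, Finset.smul_sum,
      ← Finset.sum_add_distrib]
    apply Finset.sum_congr rfl
    intro n _
    rw [← sub_smul, ← add_smul, smul_smul, ← add_smul]
    congr 1
    have h1 : ε n * z n = ((RCLike.re (ε n * z n) : ℝ) : 𝕜)
        + ((RCLike.im (ε n * z n) : ℝ) : 𝕜) * RCLike.I := (RCLike.re_add_im _).symm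
    rw [h1, RCLike.mul_re, RCLike.mul_im]
    push_cast
    ring
  rw [e]
  refine (norm_add_le _ _).trans ?_
  refine (add_le_add (norm_sub_le _ _) ((norm_smul_le _ _).trans
    (mul_le_mul norm_I_le (norm_add_le _ _) (norm_nonneg _) zero_le_one))).trans ?_
  linarith

end

/-- The set of functions whose class lies in a submodule. -/
def MM (p : ℝ) (V : Submodule 𝕜 (Lp 𝕜 (ENNReal.ofReal p) mu)) : Set (ℝ → 𝕜) :=
  {f | ∃ h : MemLp f (ENNReal.ofReal p) mu, h.toLp f ∈ V}

lemma MM_add {V : Submodule 𝕜 (Lp 𝕜 (ENNReal.ofReal p) mu)} {f g : ℝ → 𝕜}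
    (hf : f ∈ MM p V) (hg : g ∈ MM p V) : f + g ∈ MM p V := by
  obtain ⟨h1, h2⟩ := hf
  obtain ⟨h3, h4⟩ := hg
  refine ⟨h1.add h3, ?_⟩
  rw [MemLp.toLp_add h1 h3]
  exact V.add_mem h2 h4

lemma MM_smul {V : Submodule 𝕜 (Lp 𝕜 (ENNReal.ofReal p) mu)} {f : ℝ → 𝕜} (c : 𝕜)
    (hf : f ∈ MM p V) : c • f ∈ MM p V := by
  obtain ⟨h1, h2⟩ := hf
  refine ⟨h1.const_smul c, ?_⟩
  rw [MemLp.toLp_const_smul c h1]
  exact V.smul_mem c h2

lemma MM_zero {V : Submodule 𝕜 (Lp 𝕜 (ENNReal.ofReal p) mu)} : (0 : ℝ → 𝕜) ∈ MM p V :=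
  ⟨MemLp.zero, by rw [MemLp.toLp_zero]; exact V.zero_mem⟩

lemma MM_sum {V : Submodule 𝕜 (Lp 𝕜 (ENNReal.ofReal p) mu)} (F : Finset ℕ) (f : ℕ → ℝ → 𝕜)
    (hf : ∀ n ∈ F, f n ∈ MM p V) : ∑ n ∈ F, f n ∈ MM p V := by
  classical
  induction F using Finset.induction_on with
  | empty => rw [Finset.sum_empty]; exact MM_zero
  | insert i F hi ih =>
    rw [Finset.sum_insert hi]
    exact MM_add (hf i (Finset.mem_insert_self i F))
      (ih fun n hn => hf n (Finset.mem_insert_of_mem hn))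

lemma MM_congr {V : Submodule 𝕜 (Lp 𝕜 (ENNReal.ofReal p) mu)} {f g : ℝ → 𝕜}
    (hf : f ∈ MM p V) (hfg : ∀ x ∈ Ico (0 : ℝ) 1, g x = f x) : g ∈ MM p V := by
  obtain ⟨h1, h2⟩ := hf
  have hae : g =ᵐ[mu] f := ae_restrict_of_forall_mem measurableSet_Ico hfg
  have h3 : MemLp g (ENNReal.ofReal p) mu := (memLp_congr_ae hae).2 h1
  refine ⟨h3, ?_⟩
  rw [MemLp.toLp_congr h3 h1 hae]
  exact h2

lemma hf_mem (n : ℕ) : hf 𝕜 p n ∈ MM p (Submodule.span 𝕜 (Set.range (hv 𝕜 p))) :=
  ⟨memLp_hf p n _, Submodule.subset_span ⟨n, rfl⟩⟩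

lemma cell_mem (n : ℕ) (hn : n ≠ 0) : (fun x => (cell n).indicator (fun _ => (1 : 𝕜)) x)
    ∈ MM p (Submodule.span 𝕜 (Set.range (hv 𝕜 p))) := by
  induction n using Nat.strong_induction_on with
  | _ n ih =>
    rcases Nat.lt_or_ge n 2 with h2 | h2
    · have h1 : n = 1 := by omega
      subst h1
      refine MM_congr (hf_mem 0) (fun x hx => ?_)
      have hx1 : x ∈ cell 1 := by
        rw [mem_cell one_ne_zero hx.1]
        have e : Nat.log 2 1 = 0 := Nat.log_one_right 2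
        rw [e]
        have h3 := node_bounds 0 hx
        simp only [zero_add, pow_zero, pow_one] at h3
        omega
      rw [Set.indicator_of_mem hx1]
      unfold hf hr
      rw [sg_zero]
      simp [nf]
    · obtain ⟨m, hm | hm⟩ : ∃ m, n = 2 * m ∨ n = 2 * m + 1 := ⟨n / 2, by omega⟩
      · have hm0 : m ≠ 0 := by omega
        have hc := ih m (by omega) hm0
        have hs := MM_smul ((nf p m : ℝ) : 𝕜)⁻¹ (hf_mem (𝕜 := 𝕜) (p := p) m)
        refine MM_congr (MM_smul (1 / 2 : 𝕜) (MM_add hc hs)) (fun x hx => ?_)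
        have hnf : ((nf p m : ℝ) : 𝕜) ≠ 0 := by
          rw [Ne, RCLike.ofReal_eq_zero]; exact (nf_pos p m).ne'
        have e1 : ((nf p m : ℝ) : 𝕜)⁻¹ * hf 𝕜 p m x = ((sg m x : ℝ) : 𝕜) := by
          unfold hf hr
          push_cast
          rw [← mul_assoc, inv_mul_cancel₀ hnf, one_mul]
        simp only [Pi.smul_apply, Pi.add_apply, smul_eq_mul, e1, hm]
        by_cases h : x ∈ cell m
        · rcases cell_split hm0 h with ⟨h3, h4⟩ | ⟨h3, h4⟩
          · rw [Set.indicator_of_mem h3, Set.indicator_of_mem h, sg_left hm0 h3]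
            push_cast; norm_num
          · rw [Set.indicator_of_notMem h3, Set.indicator_of_mem h, sg_right hm0 h4]
            push_cast; norm_num
        · rw [Set.indicator_of_notMem h, Set.indicator_of_notMem
            (fun hh => h (cell_two_mul_subset hm0 hh)), sg_out hm0 h]
          push_cast; norm_num
      · have hm0 : m ≠ 0 := by omega
        have hc := ih m (by omega) hm0
        have hs := MM_smul (-((nf p m : ℝ) : 𝕜)⁻¹) (hf_mem (𝕜 := 𝕜) (p := p) m)
        refine MM_congr (MM_smul (1 / 2 : 𝕜) (MM_add hc hs)) (fun x hx => ?_)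
        have hnf : ((nf p m : ℝ) : 𝕜) ≠ 0 := by
          rw [Ne, RCLike.ofReal_eq_zero]; exact (nf_pos p m).ne'
        have e1 : -((nf p m : ℝ) : 𝕜)⁻¹ * hf 𝕜 p m x = -((sg m x : ℝ) : 𝕜) := by
          unfold hf hr
          push_cast
          rw [← mul_assoc, neg_mul, inv_mul_cancel₀ hnf, neg_mul, one_mul]
        simp only [Pi.smul_apply, Pi.add_apply, smul_eq_mul, e1, hm]
        by_cases h : x ∈ cell m
        · rcases cell_split hm0 h with ⟨h3, h4⟩ | ⟨h3, h4⟩
          · rw [Set.indicator_of_notMem h4, Set.indicator_of_mem h, sg_left hm0 h3]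
            push_cast; norm_num
          · rw [Set.indicator_of_mem h4, Set.indicator_of_mem h, sg_right hm0 h4]
            push_cast; norm_num
        · rw [Set.indicator_of_notMem h, Set.indicator_of_notMem
            (fun hh => h (cell_two_mul_add_subset hm0 hh)), sg_out hm0 h]
          push_cast; norm_num

/-- The point of the grid below `x`. -/
lemma pt_node (k : ℕ) {x : ℝ} (hx : x ∈ Ico (0 : ℝ) 1) :
    |pt (node k x) - x| < (1 / 2 : ℝ) ^ k ∧ pt (node k x) ∈ Icc (0 : ℝ) 1 := by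
  have hmem := pt_mem (node k x)
  have hsub := cell_subset (node_ne_zero k hx) hmem
  refine ⟨?_, Ico_subset_Icc_self hsub⟩
  have h1 := mem_cell_node k hx
  unfold cell at h1
  unfold pt
  rw [log_node k hx] at h1 ⊢
  rw [Set.mem_Ico, add_div] at h1
  rw [abs_lt]
  have h2 : (1 / 2 : ℝ) ^ k = 1 / 2 ^ k := by rw [one_div_pow]
  have h3 : (0 : ℝ) < 1 / 2 ^ k := by positivity
  rw [h2]
  constructor <;> linarith [h1.1, h1.2]

/-- The step function interpolating `g` on the grid of generation `k`. -/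
noncomputable def stepf (g : ℝ → 𝕜) (k : ℕ) : ℝ → 𝕜 :=
  ∑ n ∈ Finset.Ico (2 ^ k) (2 ^ (k + 1)),
    g (pt n) • (fun x => (cell n).indicator (fun _ => (1 : 𝕜)) x)

lemma stepf_mem (g : ℝ → 𝕜) (k : ℕ) :
    stepf g k ∈ MM p (Submodule.span 𝕜 (Set.range (hv 𝕜 p))) := by
  unfold stepf
  apply MM_sum
  intro n hn
  apply MM_smul
  apply cell_mem
  rw [Finset.mem_Ico] at hn
  have : 0 < 2 ^ k := by positivity
  omega

lemma stepf_eq (g : ℝ → 𝕜) (k : ℕ) {x : ℝ} (hx : x ∈ Ico (0 : ℝ) 1) :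
    stepf g k x = g (pt (node k x)) := by
  unfold stepf
  rw [Finset.sum_apply]
  rw [Finset.sum_eq_single (node k x)]
  · simp only [Pi.smul_apply, smul_eq_mul]
    rw [Set.indicator_of_mem (mem_cell_node k hx), mul_one]
  · intro n hn hne
    rw [Finset.mem_Ico] at hn
    simp only [Pi.smul_apply, smul_eq_mul]
    rw [Set.indicator_of_notMem, mul_zero]
    intro hmem
    have hn0 : n ≠ 0 := by
      have : 0 < 2 ^ k := by positivity
      omega
    rw [mem_cell hn0 hx.1, Nat.log_eq_of_pow_le_of_lt_pow hn.1 hn.2] at hmem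
    exact hne hmem.symm
  · intro hcon
    exact absurd (Finset.mem_Ico.2 (node_bounds k hx)) hcon

section
variable [Fact (1 ≤ ENNReal.ofReal p)]

/-- The linear span of the Haar system is dense. -/
theorem dense_span (f : Lp 𝕜 (ENNReal.ofReal p) mu) {ε : ℝ} (hε : 0 < ε) :
    ∃ g ∈ Submodule.span 𝕜 (Set.range (hv 𝕜 p)), ‖f - g‖ < ε := by
  obtain ⟨g, hg1, hg2⟩ := (Lp.memLp f).exists_boundedContinuous_eLpNorm_sub_le
    ENNReal.ofReal_ne_top (ε := ENNReal.ofReal (ε / 3)) (by simpa using hε)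
  have h1 : ‖f - hg2.toLp g‖ ≤ ε / 3 := by
    have e : f - hg2.toLp g = ((Lp.memLp f).sub hg2).toLp _ := by
      rw [MemLp.toLp_sub (Lp.memLp f) hg2, Lp.toLp_coeFn]
    rw [e, Lp.norm_toLp]
    exact ENNReal.toReal_le_of_le_ofReal (by positivity) hg1
  have hu : UniformContinuousOn g (Icc (0 : ℝ) 1) :=
    isCompact_Icc.uniformContinuousOn_of_continuous g.continuous.continuousOn
  rw [Metric.uniformContinuousOn_iff] at hu
  obtain ⟨δ, hδ, hu⟩ := hu (ε / 3) (by positivity)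
  obtain ⟨k, hk⟩ := exists_pow_lt_of_lt_one hδ (by norm_num : (1 / 2 : ℝ) < 1)
  obtain ⟨hs1, hs2⟩ := stepf_mem (𝕜 := 𝕜) (p := p) g k
  refine ⟨_, hs2, ?_⟩
  have h2 : ‖hg2.toLp g - hs1.toLp _‖ ≤ ε / 3 := by
    rw [← MemLp.toLp_sub, Lp.norm_toLp]
    have h3 : eLpNorm (⇑g - stepf g k) (ENNReal.ofReal p) mu
        ≤ mu Set.univ ^ (ENNReal.ofReal p).toReal⁻¹ * ENNReal.ofReal (ε / 3) := by
      apply eLpNorm_le_of_ae_bound
      refine ae_restrict_of_forall_mem measurableSet_Ico (fun x hx => ?_)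
      rw [Pi.sub_apply, stepf_eq _ k hx, ← dist_eq_norm]
      have h4 := pt_node k hx
      refine (hu x (Ico_subset_Icc_self hx) _ h4.2 ?_).le
      rw [dist_comm, Real.dist_eq]
      exact h4.1.trans hk
    rw [measure_univ, ENNReal.one_rpow, one_mul] at h3
    exact ENNReal.toReal_le_of_le_ofReal (by positivity) h3
  have h5 : f - hs1.toLp _ = (f - hg2.toLp g) + (hg2.toLp g - hs1.toLp _) := by abel
  rw [h5]
  refine (norm_add_le _ _).trans_lt ?_
  linarith

/-- The partial sum operators. -/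
noncomputable def PF (hp : 1 < p) (hpq : p.HolderConjugate q) (ε : ℕ → 𝕜) (F : Finset ℕ) :
    Lp 𝕜 (ENNReal.ofReal p) mu →L[𝕜] Lp 𝕜 (ENNReal.ofReal p) mu :=
  ∑ n ∈ F, (coef hp hpq n).smulRight (ε n • hv 𝕜 p n)

lemma PF_apply (hp : 1 < p) (hpq : p.HolderConjugate q) (ε : ℕ → 𝕜) (F : Finset ℕ)
    (f : Lp 𝕜 (ENNReal.ofReal p) mu) :
    PF hp hpq ε F f = ∑ n ∈ F, (ε n * coef hp hpq n f) • hv 𝕜 p n := by
  unfold PF
  rw [_root_.sum_apply]
  apply Finset.sum_congr rfl
  intro n _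
  rw [ContinuousLinearMap.smulRight_apply, smul_smul, mul_comm]

omit [Fact (1 ≤ ENNReal.ofReal p)] in
/-- Elements of the span are finite sums. -/
lemma span_repr (g : Lp 𝕜 (ENNReal.ofReal p) mu)
    (hg : g ∈ Submodule.span 𝕜 (Set.range (hv 𝕜 p))) :
    ∃ (N₀ : ℕ) (z : ℕ → 𝕜), (∀ n, N₀ ≤ n → z n = 0) ∧
      ∀ N, N₀ ≤ N → g = ∑ n ∈ Finset.range N, z n • hv 𝕜 p n := by
  classical
  induction hg using Submodule.span_induction with
  | mem x hx =>
    obtain ⟨m, rfl⟩ := hx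
    refine ⟨m + 1, fun n => if n = m then 1 else 0, fun n hn => if_neg (by omega), ?_⟩
    intro N hN
    rw [Finset.sum_eq_single m]
    · simp
    · intro n _ hne
      simp only
      rw [if_neg hne, zero_smul]
    · intro hcon
      exact absurd (Finset.mem_range.2 (by omega)) hcon
  | zero => exact ⟨0, fun _ => 0, fun _ _ => rfl, fun N _ => by simp⟩
  | add x y _ _ hx hy =>
    obtain ⟨N₁, z₁, h1, h2⟩ := hx
    obtain ⟨N₂, z₂, h3, h4⟩ := hy
    refine ⟨max N₁ N₂, fun n => z₁ n + z₂ n, fun n hn => ?_, fun N hN => ?_⟩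
    · simp only
      rw [h1 n ((le_max_left _ _).trans hn), h3 n ((le_max_right _ _).trans hn), add_zero]
    · rw [h2 N ((le_max_left _ _).trans hN), h4 N ((le_max_right _ _).trans hN),
        ← Finset.sum_add_distrib]
      apply Finset.sum_congr rfl
      intro n _
      rw [add_smul]
  | smul c x _ hx =>
    obtain ⟨N₁, z₁, h1, h2⟩ := hx
    refine ⟨N₁, fun n => c * z₁ n, fun n hn => ?_, fun N hN => ?_⟩
    · simp only
      rw [h1 n hn, mul_zero]
    · rw [h2 N hN, Finset.smul_sum]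
      apply Finset.sum_congr rfl
      intro n _
      rw [smul_smul]

lemma coef_sum_hv (hp : 1 < p) (hpq : p.HolderConjugate q) (z : ℕ → 𝕜) (F : Finset ℕ) (m : ℕ) :
    coef hp hpq m (∑ n ∈ F, z n • hv 𝕜 p n) = if m ∈ F then z m else 0 := by
  rw [map_sum]
  simp only [map_smul, coef_apply, coefL_hv hp hpq, smul_eq_mul, mul_ite, mul_one, mul_zero]
  rw [Finset.sum_ite_eq]

/-- Unconditionality. -/
lemma unc {c : ℝ} (hp : 1 < p) (hpq : p.HolderConjugate q) (hc : Good c p) (F : Finset ℕ)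
    (ε : ℕ → 𝕜) (hε : ∀ n, ‖ε n‖ ≤ 1) (f : Lp 𝕜 (ENNReal.ofReal p) mu) :
    ‖∑ n ∈ F, (ε n * coef hp hpq n f) • hv 𝕜 p n‖ ≤ 4 * K c p ^ (1 / p) * ‖f‖ := by
  classical
  rw [← PF_apply]
  set C := 4 * K c p ^ (1 / p) with hC
  have hspan : ∀ g ∈ Submodule.span 𝕜 (Set.range (hv 𝕜 p)), ‖PF hp hpq ε F g‖ ≤ C * ‖g‖ := by
    intro g hg
    obtain ⟨N₀, z, hz, hrep⟩ := span_repr g hg
    obtain ⟨N₁, hN₁⟩ := F.exists_nat_subset_range
    set N := max N₀ N₁ with hN
    have hg1 := hrep N (le_max_left _ _)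
    have hco : ∀ m, coef hp hpq m g = if m ∈ Finset.range N then z m else 0 := by
      intro m
      conv_lhs => rw [hg1]
      exact coef_sum_hv hp hpq z _ m
    have h1 := unc_fin hp hc N z (fun n => if n ∈ F then ε n else 0) (fun n => by
      split_ifs
      · exact hε n
      · simp)
    rw [← hg1] at h1
    rw [PF_apply]
    have h2 : ∑ n ∈ F, (ε n * coef hp hpq n g) • hv 𝕜 p n
        = ∑ n ∈ Finset.range N, ((if n ∈ F then ε n else 0) * z n) • hv 𝕜 p n := by
      have hsub : F ⊆ Finset.range N := hN₁.trans (by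
        intro n hn
        rw [Finset.mem_range] at hn ⊢
        exact lt_of_lt_of_le hn (le_max_right _ _))
      rw [← Finset.sum_subset hsub]
      · apply Finset.sum_congr rfl
        intro n hn
        rw [if_pos hn, hco, if_pos (hsub hn)]
      · intro n _ hn
        rw [if_neg hn, zero_mul, zero_smul]
    rw [h2]
    exact h1
  -- pass to the limit
  by_contra hcon
  push Not at hcon
  set η := ‖PF hp hpq ε F f‖ - C * ‖f‖ with hη
  have hη0 : 0 < η := by linarith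
  have hC0 : 0 ≤ C := by
    have hc0 : 0 < c := by linarith [hc.h1]
    have := hc.hr
    unfold K at hC
    rw [hC]
    positivity
  set P := ‖PF hp hpq ε F‖ with hP
  have hP0 : 0 ≤ P := norm_nonneg _
  obtain ⟨g, hg, hgf⟩ := dense_span f (ε := η / (P + C + 1)) (by positivity)
  have h1 := hspan g hg
  have h2 : ‖PF hp hpq ε F f‖ ≤ ‖PF hp hpq ε F g‖ + P * ‖f - g‖ := by
    have e : PF hp hpq ε F f = PF hp hpq ε F g + PF hp hpq ε F (f - g) := by
      rw [map_sub]; abel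
    rw [e]
    exact (norm_add_le _ _).trans (add_le_add le_rfl ((PF hp hpq ε F).le_opNorm _))
  have h3 : ‖g‖ ≤ ‖f‖ + ‖f - g‖ := by
    have e : g = f - (f - g) := by abel
    calc ‖g‖ = ‖f - (f - g)‖ := by rw [← e]
      _ ≤ _ := norm_sub_le _ _
  have h4 : (P + C) * ‖f - g‖ < η := by
    rw [lt_div_iff₀ (by positivity)] at hgf
    nlinarith [norm_nonneg (f - g)]
  have h5 := mul_le_mul_of_nonneg_left h3 hC0
  nlinarith

/-- Expansions converge unconditionally. -/
lemma hasSum_coef {c : ℝ} (hp : 1 < p) (hpq : p.HolderConjugate q) (hc : Good c p)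
    (f : Lp 𝕜 (ENNReal.ofReal p) mu) :
    HasSum (fun n => coef hp hpq n f • hv 𝕜 p n) f := by
  classical
  have hC0 : 0 ≤ 4 * K c p ^ (1 / p) := by
    have hc0 : 0 < c := by linarith [hc.h1]
    unfold K
    positivity
  have hunc : ∀ (F : Finset ℕ) (g : Lp 𝕜 (ENNReal.ofReal p) mu),
      ‖∑ n ∈ F, coef hp hpq n g • hv 𝕜 p n‖ ≤ 4 * K c p ^ (1 / p) * ‖g‖ := by
    intro F g
    have := unc hp hpq hc F (fun _ => 1) (fun _ => by simp) g
    simpa using this
  generalize 4 * K c p ^ (1 / p) = C at hC0 hunc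
  unfold HasSum
  rw [SummationFilter.unconditional_filter, Metric.tendsto_atTop]
  intro ε hε
  obtain ⟨g, hg, hgf⟩ := dense_span f (ε := ε / (C + 1)) (by positivity)
  obtain ⟨N₀, z, hz, hrep⟩ := span_repr g hg
  refine ⟨Finset.range N₀, fun F hF => ?_⟩
  have hgF : ∑ n ∈ F, coef hp hpq n g • hv 𝕜 p n = g := by
    have hco : ∀ m, coef hp hpq m g = if m ∈ Finset.range N₀ then z m else 0 := by
      intro m
      conv_lhs => rw [hrep N₀ le_rfl]
      exact coef_sum_hv hp hpq z _ m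
    conv_rhs => rw [hrep N₀ le_rfl]
    symm
    rw [← Finset.sum_subset hF]
    · apply Finset.sum_congr rfl
      intro n hn
      rw [hco, if_pos hn]
    · intro n _ hn
      rw [hco, if_neg hn, zero_smul]
  have e : ∑ n ∈ F, coef hp hpq n f • hv 𝕜 p n - f
      = ∑ n ∈ F, coef hp hpq n (f - g) • hv 𝕜 p n - (f - g) := by
    simp only [map_sub, sub_smul, Finset.sum_sub_distrib]
    rw [hgF]
    abel
  rw [dist_eq_norm, e]
  refine (norm_sub_le _ _).trans_lt ?_
  have h1 := hunc F (f - g)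
  rw [lt_div_iff₀ (by positivity)] at hgf
  linarith

end

end Pool.Agent.TH323.Haar
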