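import Mathlib

set_option autoImplicit false

open scoped ENNReal Topology
open Filter

namespace Pool.Agent.TH323.MBasis

noncomputable section

variable (𝕜 : Type) [RCLike 𝕜]

/-- bounded sequences -/
abbrev Linf : Type := lp (fun _ : ℕ => 𝕜) ∞

/-- the index set: bounded sequences `x` with `‖x n‖ ≤ n + 1` for all `n` -/
abbrev I : Type := {x : Linf 𝕜 // ∀ n : ℕ, ‖x n‖ ≤ (n : ℝ) + 1}

/-- the space `ℓ₁` over the index set -/
abbrev L1 : Type := lp (fun _ : I 𝕜 => 𝕜) 1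

instance : DecidableEq (I 𝕜) := Classical.decEq _

variable {𝕜}

theorem summable_norm (z : L1 𝕜) : Summable (fun x => ‖z x‖) := by
  have h := (lp.memℓp z).summable (by norm_num)
  simpa using h

theorem norm_eq (z : L1 𝕜) : ‖z‖ = ∑' x, ‖z x‖ := by
  rw [lp.norm_eq_tsum_rpow (by norm_num)]
  simp

theorem summable_mul (n : ℕ) (z : L1 𝕜) : Summable (fun x : I 𝕜 => z x * (x.1 n)) := by
  refine Summable.of_norm_bounded (g := fun x => ‖z x‖ * ((n : ℝ) + 1))
    ((summable_norm z).mul_right _) fun x => ?_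
  rw [norm_mul]
  exact mul_le_mul_of_nonneg_left (x.2 n) (norm_nonneg _)

/-- the functional `z ↦ ∑ z_x x(n)` on `ℓ₁` -/
def h (n : ℕ) : L1 𝕜 →L[𝕜] 𝕜 :=
  LinearMap.mkContinuous
    { toFun := fun z => ∑' x : I 𝕜, z x * (x.1 n)
      map_add' := fun z w => by
        rw [← (summable_mul n z).tsum_add (summable_mul n w)]
        exact tsum_congr fun x => by rw [lp.coeFn_add, Pi.add_apply, add_mul]
      map_smul' := fun c z => by
        rw [RingHom.id_apply, smul_eq_mul, ← tsum_mul_left]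
        exact tsum_congr fun x => by
          rw [lp.coeFn_smul, Pi.smul_apply, smul_eq_mul, mul_assoc] } ((n : ℝ) + 1) (fun z => by
      change ‖∑' x : I 𝕜, z x * (x.1 n)‖ ≤ _
      have h1 : ∀ x : I 𝕜, ‖z x * (x.1 n)‖ ≤ ((n : ℝ) + 1) * ‖z x‖ := fun x => by
        rw [norm_mul, mul_comm]
        exact mul_le_mul_of_nonneg_right (x.2 n) (norm_nonneg _)
      rw [norm_eq, ← tsum_mul_left]
      exact tsum_of_norm_bounded ((summable_norm z).mul_left _).hasSum h1)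

theorem h_apply (n : ℕ) (z : L1 𝕜) : h n z = ∑' x : I 𝕜, z x * (x.1 n) := rfl

theorem h_single (n : ℕ) (x : I 𝕜) : h n (lp.single 1 x (1 : 𝕜)) = x.1 n := by
  rw [h_apply, tsum_eq_single x]
  · rw [lp.single_apply_self, one_mul]
  · intro y hy
    rw [lp.single_apply_ne _ _ _ hy, zero_mul]

/-- the space `ℓ_∞ ⊕ ℓ₁(I)` -/
abbrev E (𝕜 : Type) [RCLike 𝕜] : Type := Linf 𝕜 × L1 𝕜

/-- the vectors of the M-basis -/
def v : ℕ ⊕ I 𝕜 → E 𝕜
  | Sum.inl n => (lp.single ∞ n (1 : 𝕜), 0)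
  | Sum.inr x => (x.1, lp.single 1 x (1 : 𝕜))

/-- the functionals of the M-basis -/
def f : ℕ ⊕ I 𝕜 → (E 𝕜 →L[𝕜] 𝕜)
  | Sum.inl n => (lp.evalCLM 𝕜 (fun _ : ℕ => 𝕜) ∞ n).comp (ContinuousLinearMap.fst 𝕜 _ _) -
      (h n).comp (ContinuousLinearMap.snd 𝕜 _ _)
  | Sum.inr x => (lp.evalCLM 𝕜 (fun _ : I 𝕜 => 𝕜) 1 x).comp (ContinuousLinearMap.snd 𝕜 _ _)

theorem f_inl (n : ℕ) (w : E 𝕜) : f (Sum.inl n) w = w.1 n - h n w.2 := rfl

theorem f_inr (x : I 𝕜) (w : E 𝕜) : f (Sum.inr x) w = w.2 x := rfl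

theorem f_v (i j : ℕ ⊕ I 𝕜) : f i (v j) = if i = j then 1 else 0 := by
  rcases i with n | x <;> rcases j with m | y
  · rw [f_inl]
    simp only [v, map_zero, sub_zero, Sum.inl.injEq]
    by_cases hnm : n = m
    · subst hnm
      rw [lp.single_apply_self, if_pos rfl]
    · rw [lp.single_apply_ne _ _ _ hnm, if_neg hnm]
  · rw [f_inl]
    simp only [v, reduceCtorEq, if_false]
    rw [h_single, sub_self]
  · rw [f_inr]
    simp only [v, reduceCtorEq, if_false]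
    rfl
  · rw [f_inr]
    simp only [v, Sum.inr.injEq]
    by_cases hxy : x = y
    · subst hxy
      rw [lp.single_apply_self, if_pos rfl]
    · rw [lp.single_apply_ne _ _ _ hxy, if_neg hxy]

theorem total (w : E 𝕜) (hw : ∀ i, f i w = 0) : w = 0 := by
  have h2 : w.2 = 0 := by
    apply lp.ext
    funext x
    exact hw (Sum.inr x)
  have h1 : w.1 = 0 := by
    apply lp.ext
    funext n
    have := hw (Sum.inl n)
    rw [f_inl, h2, map_zero, sub_zero] at this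
    exact this
  exact Prod.ext h1 h2

/-- the tail of a bounded sequence -/
def tail (k : ℕ) (u : Linf 𝕜) : Linf 𝕜 :=
  ⟨fun n => if k ≤ n then u n else 0, memℓp_infty ⟨‖u‖, by
    rintro _ ⟨n, rfl⟩
    dsimp only
    split_ifs
    · exact lp.norm_apply_le_norm (by simp) u n
    · simp⟩⟩

theorem tail_apply (k : ℕ) (u : Linf 𝕜) (n : ℕ) : tail k u n = if k ≤ n then u n else 0 := rfl

theorem sub_tail (k : ℕ) (u : Linf 𝕜) :
    u - tail k u = ∑ n ∈ Finset.range k, u n • (lp.single ∞ n (1 : 𝕜) : Linf 𝕜) := by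
  apply lp.ext
  funext m
  rw [lp.coeFn_sub, Pi.sub_apply, tail_apply, lp.coeFn_sum, Finset.sum_apply]
  by_cases hm : k ≤ m
  · rw [if_pos hm, sub_self, Finset.sum_eq_zero]
    intro n hn
    have : m ≠ n := by
      have := Finset.mem_range.1 hn
      omega
    rw [lp.coeFn_smul, Pi.smul_apply, lp.single_apply_ne _ _ _ this, smul_zero]
  · rw [if_neg hm, sub_zero, Finset.sum_eq_single m]
    · rw [lp.coeFn_smul, Pi.smul_apply, lp.single_apply_self, smul_eq_mul, mul_one]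
    · intro n _ hn
      rw [lp.coeFn_smul, Pi.smul_apply, lp.single_apply_ne _ _ _ hn.symm, smul_zero]
    · intro hm'
      exact absurd (Finset.mem_range.2 (not_le.1 hm)) hm'

/-- the closed linear span of the vectors -/
def W (𝕜 : Type) [RCLike 𝕜] : Submodule 𝕜 (E 𝕜) :=
  (Submodule.span 𝕜 (Set.range (v (𝕜 := 𝕜)))).topologicalClosure

theorem v_mem_W (i : ℕ ⊕ I 𝕜) : v i ∈ W 𝕜 :=
  Submodule.le_topologicalClosure _ (Submodule.subset_span ⟨i, rfl⟩)

theorem W_closed : IsClosed (W 𝕜 : Set (E 𝕜)) := Submodule.isClosed_topologicalClosure _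

/-- the first part of the space lies in the closed span: vectors of norm at most one -/
theorem inl_mem_W_of_norm (u : Linf 𝕜) (hu : ‖u‖ ≤ 1) : ((u, 0) : E 𝕜) ∈ W 𝕜 := by
  have key : ∀ k : ℕ, ∃ w ∈ W 𝕜, ‖((u, 0) : E 𝕜) - w‖ ≤ 1 / ((k : ℝ) + 1) := by
    intro k
    have hk0 : ((k : ℝ) + 1) ≠ 0 := by positivity
    let x : I 𝕜 := ⟨((k : 𝕜) + 1) • tail k u, fun n => by
      rw [lp.coeFn_smul, Pi.smul_apply, tail_apply, norm_smul]
      split_ifs with hkn
      · have h1 : ‖u n‖ ≤ 1 := (lp.norm_apply_le_norm (by simp) u n).trans hu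
        have h2 : ‖((k : 𝕜) + 1)‖ = (k : ℝ) + 1 := by
          have : ((k : 𝕜) + 1) = ((k + 1 : ℕ) : 𝕜) := by push_cast; ring
          rw [this, RCLike.norm_natCast]
          push_cast; ring
        have h3 : (k : ℝ) ≤ n := by exact_mod_cast hkn
        rw [h2]
        nlinarith [norm_nonneg (u n)]
      · rw [norm_zero, mul_zero]
        positivity⟩
    have hkk : ((k : 𝕜) + 1) ≠ 0 := by
      have : ((k : 𝕜) + 1) = ((k + 1 : ℕ) : 𝕜) := by push_cast; ring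
      rw [this]
      exact_mod_cast Nat.succ_ne_zero k
    refine ⟨(u - tail k u, 0) + ((k : 𝕜) + 1)⁻¹ • v (Sum.inr x), ?_, ?_⟩
    · apply (W 𝕜).add_mem
      · have : ((u - tail k u, 0) : E 𝕜) = ∑ n ∈ Finset.range k, u n • v (Sum.inl n) := by
          rw [sub_tail]
          apply Prod.ext
          · rw [Prod.fst_sum]
            rfl
          · rw [Prod.snd_sum]
            simp [v]
        rw [this]
        exact (W 𝕜).sum_mem fun n _ => (W 𝕜).smul_mem _ (v_mem_W _)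
      · exact (W 𝕜).smul_mem _ (v_mem_W _)
    · have h1 : ((u, 0) : E 𝕜) - ((u - tail k u, 0) + ((k : 𝕜) + 1)⁻¹ • v (Sum.inr x)) =
          (0, -(((k : 𝕜) + 1)⁻¹ • lp.single 1 x (1 : 𝕜))) := by
        apply Prod.ext
        · change u - ((u - tail k u) + ((k : 𝕜) + 1)⁻¹ • (((k : 𝕜) + 1) • tail k u)) = 0
          rw [smul_smul, inv_mul_cancel₀ hkk, one_smul]
          abel
        · change (0 : L1 𝕜) - (0 + ((k : 𝕜) + 1)⁻¹ • lp.single 1 x (1 : 𝕜)) = _
          rw [zero_add, zero_sub]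
      rw [h1, Prod.norm_def]
      simp only [norm_zero, norm_neg]
      rw [norm_smul, lp.norm_single (by norm_num), norm_one, mul_one, norm_inv]
      have h2 : ‖((k : 𝕜) + 1)‖ = (k : ℝ) + 1 := by
        have : ((k : 𝕜) + 1) = ((k + 1 : ℕ) : 𝕜) := by push_cast; ring
        rw [this, RCLike.norm_natCast]
        push_cast; ring
      rw [h2, one_div]
      exact (max_eq_right (by positivity)).le
  have hcl : ((u, 0) : E 𝕜) ∈ closure (W 𝕜 : Set (E 𝕜)) := by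
    rw [Metric.mem_closure_iff]
    intro ε hε
    obtain ⟨k, hk⟩ := exists_nat_one_div_lt hε
    obtain ⟨w, hw, hwk⟩ := key k
    exact ⟨w, hw, by rw [dist_eq_norm]; exact hwk.trans_lt hk⟩
  rwa [W_closed.closure_eq] at hcl

theorem inl_mem_W (u : Linf 𝕜) : ((u, 0) : E 𝕜) ∈ W 𝕜 := by
  by_cases hu : u = 0
  · rw [hu]; exact (W 𝕜).zero_mem
  have hn : ‖u‖ ≠ 0 := norm_ne_zero_iff.2 hu
  have h1 : ((u, 0) : E 𝕜) = ((‖u‖ : ℝ) : 𝕜) • ((((‖u‖ : ℝ) : 𝕜)⁻¹ • u, 0) : E 𝕜) := by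
    apply Prod.ext
    · change u = ((‖u‖ : ℝ) : 𝕜) • (((‖u‖ : ℝ) : 𝕜)⁻¹ • u)
      rw [smul_smul, mul_inv_cancel₀ (by exact_mod_cast hn), one_smul]
    · change (0 : L1 𝕜) = ((‖u‖ : ℝ) : 𝕜) • (0 : L1 𝕜)
      rw [smul_zero]
  rw [h1]
  apply (W 𝕜).smul_mem
  apply inl_mem_W_of_norm
  rw [norm_smul, norm_inv, RCLike.norm_ofReal, abs_of_nonneg (norm_nonneg _), inv_mul_cancel₀ hn]

theorem inr_mem_W (z : L1 𝕜) : ((0, z) : E 𝕜) ∈ W 𝕜 := by
  have hs : ∀ x : I 𝕜, ((0, lp.single 1 x (1 : 𝕜)) : E 𝕜) ∈ W 𝕜 := by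
    intro x
    have h1 : ((0, lp.single 1 x (1 : 𝕜)) : E 𝕜) = v (Sum.inr x) - (x.1, 0) := by
      apply Prod.ext
      · change (0 : Linf 𝕜) = x.1 - x.1
        rw [sub_self]
      · change (lp.single 1 x (1 : 𝕜) : L1 𝕜) = lp.single 1 x (1 : 𝕜) - 0
        rw [sub_zero]
    rw [h1]
    exact (W 𝕜).sub_mem (v_mem_W _) (inl_mem_W _)
  have hsum : HasSum (fun x : I 𝕜 => ((0, lp.single 1 x (z x)) : E 𝕜)) (0, z) := by
    have := lp.hasSum_single (p := 1) (by norm_num) z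
    have h2 := this.mapL (ContinuousLinearMap.inr 𝕜 (Linf 𝕜) (L1 𝕜))
    exact h2
  have hmem : ∀ s : Finset (I 𝕜), ∑ x ∈ s, ((0, lp.single 1 x (z x)) : E 𝕜) ∈ W 𝕜 := by
    intro s
    refine (W 𝕜).sum_mem fun x _ => ?_
    have h3 : ((0, lp.single 1 x (z x)) : E 𝕜) = z x • ((0, lp.single 1 x (1 : 𝕜)) : E 𝕜) := by
      apply Prod.ext
      · change (0 : Linf 𝕜) = z x • (0 : Linf 𝕜)
        rw [smul_zero]
      · change (lp.single 1 x (z x) : L1 𝕜) = z x • lp.single 1 x (1 : 𝕜)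
        rw [← lp.single_smul, smul_eq_mul, mul_one]
    rw [h3]
    exact (W 𝕜).smul_mem _ (hs x)
  exact W_closed.mem_of_tendsto hsum (Eventually.of_forall hmem)

theorem fundamental : W 𝕜 = ⊤ := by
  rw [eq_top_iff]
  rintro ⟨u, z⟩ -
  have : ((u, z) : E 𝕜) = (u, 0) + (0, z) := by
    apply Prod.ext
    · change u = u + 0; rw [add_zero]
    · change z = 0 + z; rw [zero_add]
  rw [this]
  exact (W 𝕜).add_mem (inl_mem_W u) (inr_mem_W z)

end

end Pool.Agent.TH323.MBasis
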