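import Pool.Agent.TH323.MBasis

set_option autoImplicit false

open scoped ENNReal Topology
open Filter

namespace Pool.Agent.TH323.MBasis

noncomputable section

variable {𝕜 : Type} [RCLike 𝕜]

/-- sequences of norm at most one that agree with `x` off `A` -/
def F (x : Linf 𝕜) (A : Set ℕ) : Set (Linf 𝕜) :=
  {y | ‖y‖ ≤ 1 ∧ ∀ k, k ∉ A → y k = x k}

theorem F_self {x : Linf 𝕜} {A : Set ℕ} (hx : ‖x‖ ≤ 1) : x ∈ F x A := ⟨hx, fun _ _ => rfl⟩

theorem F_mono {x y : Linf 𝕜} {A B : Set ℕ} (hy : y ∈ F x A) (hBA : B ⊆ A) : F y B ⊆ F x A := by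
  intro z hz
  exact ⟨hz.1, fun k hk => by rw [hz.2 k fun h => hk (hBA h), hy.2 k hk]⟩

/-- an infinite set splits into `N` disjoint infinite sets -/
theorem split {A : Set ℕ} (hA : A.Infinite) (N : ℕ) (hN : 0 < N) :
    ∃ B : ℕ → Set ℕ, (∀ j < N, (B j).Infinite) ∧ (∀ j, B j ⊆ A) ∧
      ∀ i j, i ≠ j → Disjoint (B i) (B j) := by
  let e := hA.natEmbedding A
  refine ⟨fun j => (fun m => (e m : ℕ)) '' {m | m % N = j}, fun j hj => ?_, fun j => ?_, ?_⟩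
  · apply Set.Infinite.image
    · intro a _ b _ hab
      exact e.injective (Subtype.ext hab)
    · have : (Set.range fun t : ℕ => j + N * t) ⊆ {m | m % N = j} := by
        rintro _ ⟨t, rfl⟩
        simp [Nat.mod_eq_of_lt hj]
      refine Set.Infinite.mono this (Set.infinite_range_of_injective ?_)
      intro a b hab
      have h2 : N * a = N * b := Nat.add_left_cancel hab
      exact Nat.eq_of_mul_eq_mul_left hN h2
  · rintro _ ⟨m, _, rfl⟩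
    exact (e m).2
  · intro i j hij
    rw [Set.disjoint_left]
    rintro _ ⟨m, hm, rfl⟩ ⟨m', hm', h⟩
    have : m' = m := e.injective (Subtype.ext h)
    subst this
    exact hij (hm.symm.trans hm')

/-- the basic step -/
theorem step (p : Seminorm 𝕜 (Linf 𝕜)) (C : ℝ) (hp : ∀ x, p x ≤ C * ‖x‖) (x : Linf 𝕜)
    (hx : ‖x‖ ≤ 1) (A : Set ℕ) (hA : A.Infinite) (ε : ℝ) (hε : 0 < ε) :
    ∃ (y : Linf 𝕜) (B : Set ℕ), y ∈ F x A ∧ B ⊆ A ∧ B.Infinite ∧
      ∀ z ∈ F y B, ∀ w ∈ F y B, p z ≤ p w + ε := by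
  have hC : 0 ≤ C := by
    by_contra hneg
    have h1 := hp (lp.single ∞ 0 (1 : 𝕜))
    rw [lp.norm_single (by simp), norm_one, mul_one] at h1
    have := apply_nonneg p (lp.single ∞ 0 (1 : 𝕜))
    linarith
  have hbdd : BddAbove (p '' F x A) := by
    refine ⟨C, ?_⟩
    rintro _ ⟨y, hy, rfl⟩
    exact (hp y).trans (by nlinarith [hy.1, norm_nonneg y])
  have hne : (p '' F x A).Nonempty := ⟨_, x, F_self hx, rfl⟩
  obtain ⟨_, ⟨y, hy, rfl⟩, hylt⟩ := exists_lt_of_lt_csSup hne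
    (show sSup (p '' F x A) - ε / 2 < sSup (p '' F x A) by linarith)
  obtain ⟨N, hN⟩ := exists_nat_gt (2 * C / (ε / 2))
  have hN0 : (0 : ℝ) < N := lt_of_le_of_lt (by positivity) hN
  have hN0' : 0 < N := by exact_mod_cast hN0
  obtain ⟨B, hBinf, hBA, hBdisj⟩ := split hA N hN0'
  have hex : ∃ j < N, ∀ w ∈ F y (B j), p y - ε / 2 ≤ p w := by
    by_contra hcon
    push Not at hcon
    have hcon' : ∀ j : ℕ, ∃ w : Linf 𝕜, j < N → (w ∈ F y (B j) ∧ p w < p y - ε / 2) := by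
      intro j
      by_cases hj : j < N
      · obtain ⟨w, hw⟩ := hcon j hj
        exact ⟨w, fun _ => hw⟩
      · exact ⟨0, fun h => absurd h hj⟩
    choose w hw using hcon'
    have hnorm : ‖∑ j ∈ Finset.range N, (w j - y)‖ ≤ 2 := by
      refine lp.norm_le_of_forall_le (by norm_num) fun k => ?_
      rw [lp.coeFn_sum, Finset.sum_apply]
      have hz : ∀ j ∈ Finset.range N, k ∉ B j → (w j - y) k = 0 := by
        intro j hj hk
        rw [lp.coeFn_sub, Pi.sub_apply, (hw j (Finset.mem_range.1 hj)).1.2 k hk, sub_self]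
      by_cases hk : ∃ j ∈ Finset.range N, k ∈ B j
      · obtain ⟨j, hj, hkj⟩ := hk
        rw [Finset.sum_eq_single_of_mem j hj]
        · have h1 : ‖w j‖ ≤ 1 := (hw j (Finset.mem_range.1 hj)).1.1
          have h2 : ‖y‖ ≤ 1 := hy.1
          calc ‖(w j - y) k‖ ≤ ‖w j - y‖ := lp.norm_apply_le_norm (by simp) _ _
            _ ≤ ‖w j‖ + ‖y‖ := norm_sub_le _ _
            _ ≤ 2 := by linarith
        · intro i hi hij
          apply hz i hi
          intro hki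
          exact Set.disjoint_left.1 (hBdisj i j hij) hki hkj
      · push Not at hk
        rw [Finset.sum_eq_zero fun j hj => hz j hj (hk j hj), norm_zero]
        norm_num
    have hsum : (N : 𝕜) • y = ∑ j ∈ Finset.range N, w j - ∑ j ∈ Finset.range N, (w j - y) := by
      rw [Finset.sum_sub_distrib, Finset.sum_const, Finset.card_range, sub_sub_cancel,
        Nat.cast_smul_eq_nsmul]
    have h1 : (N : ℝ) * p y ≤ ∑ j ∈ Finset.range N, p (w j) + C * 2 := by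
      calc (N : ℝ) * p y = p ((N : 𝕜) • y) := by rw [map_smul_eq_mul, RCLike.norm_natCast]
        _ = p (∑ j ∈ Finset.range N, w j - ∑ j ∈ Finset.range N, (w j - y)) := by rw [hsum]
        _ ≤ p (∑ j ∈ Finset.range N, w j) + p (∑ j ∈ Finset.range N, (w j - y)) :=
            map_sub_le_add p _ _
        _ ≤ ∑ j ∈ Finset.range N, p (w j) + C * 2 := by
            apply add_le_add
            · exact Finset.le_sum_of_subadditive p (map_zero p).le (map_add_le_add p) _ _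
            · exact (hp _).trans (mul_le_mul_of_nonneg_left hnorm hC)
    have h2 : ∑ j ∈ Finset.range N, p (w j) ≤ ∑ j ∈ Finset.range N, (p y - ε / 2) :=
      Finset.sum_le_sum fun j hj => ((hw j (Finset.mem_range.1 hj)).2).le
    rw [Finset.sum_const, Finset.card_range, nsmul_eq_mul] at h2
    have h3 : 2 * C < N * (ε / 2) := by
      rwa [div_lt_iff₀ (by positivity)] at hN
    nlinarith
  obtain ⟨j, hj, hjw⟩ := hex
  refine ⟨y, B j, hy, hBA j, hBinf j hj, fun z hz w hw => ?_⟩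
  have hz' : z ∈ F x A := F_mono hy (hBA j) hz
  have h1 : p z ≤ sSup (p '' F x A) := le_csSup hbdd ⟨z, hz', rfl⟩
  have h2 := hjw w hw
  linarith

theorem exists_seq (p : Seminorm 𝕜 (Linf 𝕜)) (C : ℝ) (hp : ∀ x, p x ≤ C * ‖x‖) :
    ∃ (x : ℕ → Linf 𝕜) (A : ℕ → Set ℕ), (∀ n, ‖x n‖ ≤ 1) ∧ (∀ n, (A n).Infinite) ∧
      (∀ n, A (n + 1) ⊆ A n) ∧ (∀ n, x (n + 1) ∈ F (x n) (A n)) ∧
      ∀ n, ∀ z ∈ F (x (n + 1)) (A (n + 1)), ∀ w ∈ F (x (n + 1)) (A (n + 1)),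
        p z ≤ p w + 1 / ((n : ℝ) + 1) := by
  have hstep : ∀ (n : ℕ) (s : {s : Linf 𝕜 × Set ℕ // ‖s.1‖ ≤ 1 ∧ s.2.Infinite}),
      ∃ t : {s : Linf 𝕜 × Set ℕ // ‖s.1‖ ≤ 1 ∧ s.2.Infinite},
        t.1.2 ⊆ s.1.2 ∧ t.1.1 ∈ F s.1.1 s.1.2 ∧
        ∀ z ∈ F t.1.1 t.1.2, ∀ w ∈ F t.1.1 t.1.2, p z ≤ p w + 1 / ((n : ℝ) + 1) := by
    rintro n ⟨⟨x, A⟩, hx, hA⟩
    obtain ⟨y, B, h1, h2, h3, h4⟩ := step p C hp x hx A hA (1 / ((n : ℝ) + 1)) (by positivity)
    exact ⟨⟨(y, B), h1.1, h3⟩, h2, h1, h4⟩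
  choose g hg using hstep
  let S : ℕ → {s : Linf 𝕜 × Set ℕ // ‖s.1‖ ≤ 1 ∧ s.2.Infinite} := fun n =>
    Nat.rec ⟨(0, Set.univ), by simp, Set.infinite_univ⟩ (fun n s => g n s) n
  refine ⟨fun n => (S n).1.1, fun n => (S n).1.2, fun n => (S n).2.1, fun n => (S n).2.2,
    fun n => (hg n (S n)).1, fun n => (hg n (S n)).2.1, fun n => (hg n (S n)).2.2⟩

theorem exists_limit (x : ℕ → Linf 𝕜) (A : ℕ → Set ℕ) (hx : ∀ n, ‖x n‖ ≤ 1)
    (hA : ∀ n, A (n + 1) ⊆ A n) (hxA : ∀ n, x (n + 1) ∈ F (x n) (A n)) :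
    ∃ y : Linf 𝕜, ∀ n, y ∈ F (x n) (A n) := by
  classical
  have hmono : ∀ n m, n ≤ m → x m ∈ F (x n) (A n) ∧ A m ⊆ A n := by
    intro n m hnm
    induction m, hnm using Nat.le_induction with
    | base => exact ⟨F_self (hx n), subset_rfl⟩
    | succ m hm ih => exact ⟨F_mono ih.1 ih.2 (hxA m), (hA m).trans ih.2⟩
  let g : ℕ → 𝕜 := fun k => if h : ∃ n, k ∉ A n then x (Nat.find h) k else 0
  have hg : ∀ n k, k ∉ A n → g k = x n k := by
    intro n k hk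
    have h : ∃ n, k ∉ A n := ⟨n, hk⟩
    have h1 : Nat.find h ≤ n := Nat.find_min' h hk
    simp only [g, dif_pos h]
    exact ((hmono _ _ h1).1.2 k (Nat.find_spec h)).symm
  have hgn : ∀ k, ‖g k‖ ≤ 1 := by
    intro k
    by_cases h : ∃ n, k ∉ A n
    · obtain ⟨n, hn⟩ := h
      rw [hg n k hn]
      exact (lp.norm_apply_le_norm (by simp) _ _).trans (hx n)
    · simp only [g, dif_neg h, norm_zero]
      norm_num
  refine ⟨⟨g, memℓp_infty ⟨1, by rintro _ ⟨k, rfl⟩; exact hgn k⟩⟩, fun n => ⟨?_, fun k hk => ?_⟩⟩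
  · exact lp.norm_le_of_forall_le (by norm_num) hgn
  · exact hg n k hk

/-- changing one coordinate to a value far away -/
theorem exists_change (y : Linf 𝕜) (hy : ‖y‖ ≤ 1) (k : ℕ) :
    ∃ u : Linf 𝕜, ‖u‖ ≤ 1 ∧ (∀ j, j ≠ k → u j = y j) ∧ 1 ≤ ‖u‖ ∧ 1 ≤ ‖u - y‖ := by
  classical
  obtain ⟨a, ha, hay⟩ : ∃ a : 𝕜, ‖a‖ = 1 ∧ 1 ≤ ‖a - y k‖ := by
    by_contra hcon
    push Not at hcon
    have h1 := hcon 1 (by simp)
    have h2 := hcon (-1) (by simp)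
    have h3 : ‖(1 : 𝕜) - (-1)‖ ≤ ‖(1 : 𝕜) - y k‖ + ‖(-1 : 𝕜) - y k‖ := by
      have := norm_sub_le ((1 : 𝕜) - y k) ((-1 : 𝕜) - y k)
      rwa [sub_sub_sub_cancel_right] at this
    have h4 : ‖(1 : 𝕜) - (-1)‖ = 2 := by
      rw [sub_neg_eq_add, one_add_one_eq_two, RCLike.norm_ofNat]
    linarith
  have hn : ∀ j, ‖(if j = k then a else y j)‖ ≤ 1 := by
    intro j
    split_ifs
    · rw [ha]
    · exact (lp.norm_apply_le_norm (by simp) _ _).trans hy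
  let u : Linf 𝕜 := ⟨fun j => if j = k then a else y j,
    memℓp_infty ⟨1, by rintro _ ⟨j, rfl⟩; exact hn j⟩⟩
  have huk : u k = a := if_pos rfl
  refine ⟨u, lp.norm_le_of_forall_le (by norm_num) hn, fun j hj => if_neg hj, ?_, ?_⟩
  · calc (1 : ℝ) = ‖u k‖ := by rw [huk, ha]
      _ ≤ ‖u‖ := lp.norm_apply_le_norm (by simp) _ _
  · calc (1 : ℝ) ≤ ‖(u - y) k‖ := by rw [lp.coeFn_sub, Pi.sub_apply, huk]; exact hay
      _ ≤ ‖u - y‖ := lp.norm_apply_le_norm (by simp) _ _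

/-- the basic failure of local uniform rotundity of an equivalent norm on bounded sequences -/
theorem exists_bad (p : Seminorm 𝕜 (Linf 𝕜)) (c C : ℝ) (hc : 0 < c) (hcp : ∀ x, c * ‖x‖ ≤ p x)
    (hp : ∀ x, p x ≤ C * ‖x‖) :
    ∃ (y : Linf 𝕜) (u : ℕ → Linf 𝕜), c ≤ p y ∧ (∀ n, c ≤ p (u n)) ∧ (∀ n, c ≤ p (u n - y)) ∧
      Tendsto (fun n => p (u n)) atTop (𝓝 (p y)) ∧
      Tendsto (fun n => p (u n + y)) atTop (𝓝 (2 * p y)) := by
  obtain ⟨x, A, hx, hAinf, hA, hxA, hosc⟩ := exists_seq p C hp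
  obtain ⟨y, hy⟩ := exists_limit x A hx hA hxA
  have hy1 : ‖y‖ ≤ 1 := (hy 0).1
  choose k hk using fun n => (hAinf n).nonempty
  choose u hu1 hu2 hu3 hu4 using fun n => exists_change y hy1 (k (n + 1))
  have huF : ∀ n, u n ∈ F (x (n + 1)) (A (n + 1)) := by
    intro n
    refine ⟨hu1 n, fun j hj => ?_⟩
    have hjk : j ≠ k (n + 1) := fun h => hj (h ▸ hk (n + 1))
    rw [hu2 n j hjk, (hy (n + 1)).2 j hj]
  have hmF : ∀ n, (2⁻¹ : 𝕜) • (u n + y) ∈ F (x (n + 1)) (A (n + 1)) := by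
    intro n
    constructor
    · rw [norm_smul, norm_inv, RCLike.norm_ofNat]
      have := norm_add_le (u n) y
      have := hu1 n
      linarith
    · intro j hj
      rw [lp.coeFn_smul, Pi.smul_apply, lp.coeFn_add, Pi.add_apply, (huF n).2 j hj,
        (hy (n + 1)).2 j hj, smul_eq_mul]
      have h2 : (2 : 𝕜) ≠ 0 := two_ne_zero
      field_simp
      ring
  have hε : Tendsto (fun n : ℕ => 1 / ((n : ℝ) + 1)) atTop (𝓝 0) :=
    tendsto_one_div_add_atTop_nhds_zero_nat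
  have hcu : ∀ n, c ≤ p (u n) := fun n => by
    have h1 := hcp (u n)
    have h2 := hu3 n
    nlinarith
  have hlim : Tendsto (fun n => p (u n)) atTop (𝓝 (p y)) := by
    rw [tendsto_iff_norm_sub_tendsto_zero]
    refine squeeze_zero (fun _ => norm_nonneg _) (fun n => ?_) hε
    rw [Real.norm_eq_abs, abs_sub_le_iff]
    have h1 := hosc n _ (huF n) _ (hy (n + 1))
    have h2 := hosc n _ (hy (n + 1)) _ (huF n)
    constructor <;> linarith
  refine ⟨y, u, ?_, hcu, fun n => ?_, hlim, ?_⟩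
  · exact ge_of_tendsto hlim (Eventually.of_forall hcu)
  · have h1 := hcp (u n - y)
    have h2 := hu4 n
    nlinarith
  · have h2 : ∀ n, p (u n + y) = 2 * p ((2⁻¹ : 𝕜) • (u n + y)) := by
      intro n
      rw [map_smul_eq_mul, norm_inv, RCLike.norm_ofNat]
      ring
    have hlim2 : Tendsto (fun n => p ((2⁻¹ : 𝕜) • (u n + y))) atTop (𝓝 (p y)) := by
      rw [tendsto_iff_norm_sub_tendsto_zero]
      refine squeeze_zero (fun _ => norm_nonneg _) (fun n => ?_) hε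
      rw [Real.norm_eq_abs, abs_sub_le_iff]
      have h1 := hosc n _ (hmF n) _ (hy (n + 1))
      have h2 := hosc n _ (hy (n + 1)) _ (hmF n)
      constructor <;> linarith
    have := hlim2.const_mul 2
    refine this.congr fun n => (h2 n).symm

/-- no equivalent norm on the space of bounded sequences is locally uniformly convex -/
theorem no_lur (p : Seminorm 𝕜 (Linf 𝕜)) (c C : ℝ) (hc : 0 < c) (hcp : ∀ x, c * ‖x‖ ≤ p x)
    (hp : ∀ x, p x ≤ C * ‖x‖) :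
    ∃ (x : Linf 𝕜) (u : ℕ → Linf 𝕜), p x = 1 ∧ (∀ n, p (u n) = 1) ∧
      Tendsto (fun n => p (u n + x)) atTop (𝓝 2) ∧ ¬ Tendsto (fun n => p (u n - x)) atTop (𝓝 0) := by
  obtain ⟨y, u, hy, hu, huy, h1, h2⟩ := exists_bad p c C hc hcp hp
  have hy0 : 0 < p y := lt_of_lt_of_le hc hy
  have hu0 : ∀ n, 0 < p (u n) := fun n => lt_of_lt_of_le hc (hu n)
  have hnorm : ∀ r : ℝ, 0 < r → ∀ z : Linf 𝕜, p (((r⁻¹ : ℝ) : 𝕜) • z) = r⁻¹ * p z := by
    intro r hr z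
    rw [map_smul_eq_mul, RCLike.norm_ofReal, abs_of_pos (inv_pos.2 hr)]
  have hratio : Tendsto (fun n => |(p (u n))⁻¹ - (p y)⁻¹| * p (u n)) atTop (𝓝 0) := by
    have h3 : Tendsto (fun n => |(p (u n))⁻¹ - (p y)⁻¹| * p (u n)) atTop
        (𝓝 (|(p y)⁻¹ - (p y)⁻¹| * p y)) :=
      ((h1.inv₀ hy0.ne').sub_const _).abs.mul h1
    simpa using h3
  have hdecomp : ∀ n, ∀ s : 𝕜, ((((p (u n))⁻¹ : ℝ) : 𝕜) • u n + s • ((((p y)⁻¹ : ℝ) : 𝕜) • y)) =
      (((p y)⁻¹ : ℝ) : 𝕜) • (u n + s • y) + ((((p (u n))⁻¹ - (p y)⁻¹ : ℝ)) : 𝕜) • u n := by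
    intro n s
    rw [RCLike.ofReal_sub, sub_smul, smul_add, smul_comm s]
    abel
  have hsmall : ∀ n, p (((((p (u n))⁻¹ - (p y)⁻¹ : ℝ)) : 𝕜) • u n) =
      |(p (u n))⁻¹ - (p y)⁻¹| * p (u n) := by
    intro n
    rw [map_smul_eq_mul, RCLike.norm_ofReal]
  refine ⟨(((p y)⁻¹ : ℝ) : 𝕜) • y, fun n => (((p (u n))⁻¹ : ℝ) : 𝕜) • u n, ?_, fun n => ?_, ?_, ?_⟩
  · rw [hnorm _ hy0, inv_mul_cancel₀ hy0.ne']
  · rw [hnorm _ (hu0 n), inv_mul_cancel₀ (hu0 n).ne']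
  · have h3 : Tendsto (fun n => (p y)⁻¹ * p (u n + y)) atTop (𝓝 2) := by
      have := h2.const_mul (p y)⁻¹
      have h4 : (p y)⁻¹ * (2 * p y) = 2 := by field_simp
      rwa [h4] at this
    rw [tendsto_iff_norm_sub_tendsto_zero]
    have h5 : Tendsto (fun n => |(p (u n))⁻¹ - (p y)⁻¹| * p (u n) +
        ‖(p y)⁻¹ * p (u n + y) - 2‖) atTop (𝓝 0) := by
      have := hratio.add (tendsto_iff_norm_sub_tendsto_zero.1 h3)
      simpa using this
    refine squeeze_zero (fun _ => norm_nonneg _) (fun n => ?_) h5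
    have h6 := hdecomp n 1
    rw [one_smul, one_smul] at h6
    have h7 : |p ((((p (u n))⁻¹ : ℝ) : 𝕜) • u n + (((p y)⁻¹ : ℝ) : 𝕜) • y) -
        (p y)⁻¹ * p (u n + y)| ≤ |(p (u n))⁻¹ - (p y)⁻¹| * p (u n) := by
      rw [h6, ← hnorm _ hy0, ← hsmall n]
      have := abs_sub_map_le_sub p ((((p y)⁻¹ : ℝ) : 𝕜) • (u n + y) +
        ((((p (u n))⁻¹ - (p y)⁻¹ : ℝ)) : 𝕜) • u n) ((((p y)⁻¹ : ℝ) : 𝕜) • (u n + y))
      rwa [add_sub_cancel_left] at this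
    rw [Real.norm_eq_abs, Real.norm_eq_abs]
    have h8 := abs_add_le (p ((((p (u n))⁻¹ : ℝ) : 𝕜) • u n + (((p y)⁻¹ : ℝ) : 𝕜) • y) -
        (p y)⁻¹ * p (u n + y)) ((p y)⁻¹ * p (u n + y) - 2)
    rw [sub_add_sub_cancel] at h8
    linarith
  · intro hcon
    have h3 : Tendsto (fun n => p y * (p ((((p (u n))⁻¹ : ℝ) : 𝕜) • u n - (((p y)⁻¹ : ℝ) : 𝕜) • y) +
        |(p (u n))⁻¹ - (p y)⁻¹| * p (u n))) atTop (𝓝 0) := by
      have := (hcon.add hratio).const_mul (p y)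
      simpa using this
    have h4 : ∀ n, c ≤ p y * (p ((((p (u n))⁻¹ : ℝ) : 𝕜) • u n - (((p y)⁻¹ : ℝ) : 𝕜) • y) +
        |(p (u n))⁻¹ - (p y)⁻¹| * p (u n)) := by
      intro n
      have h6 := hdecomp n (-1)
      rw [neg_one_smul, neg_one_smul, ← sub_eq_add_neg, ← sub_eq_add_neg] at h6
      have h7 : (((p y)⁻¹ : ℝ) : 𝕜) • (u n - y) =
          ((((p (u n))⁻¹ : ℝ) : 𝕜) • u n - (((p y)⁻¹ : ℝ) : 𝕜) • y) -
          ((((p (u n))⁻¹ - (p y)⁻¹ : ℝ)) : 𝕜) • u n := by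
        rw [h6, add_sub_cancel_right]
      have h8 : (p y)⁻¹ * p (u n - y) ≤
          p ((((p (u n))⁻¹ : ℝ) : 𝕜) • u n - (((p y)⁻¹ : ℝ) : 𝕜) • y) +
          |(p (u n))⁻¹ - (p y)⁻¹| * p (u n) := by
        rw [← hnorm _ hy0, ← hsmall n, h7]
        exact map_sub_le_add p _ _
      have h9 := mul_le_mul_of_nonneg_left h8 hy0.le
      rw [← mul_assoc, mul_inv_cancel₀ hy0.ne', one_mul] at h9
      exact (huy n).trans h9
    have h5 := ge_of_tendsto h3 (Eventually.of_forall h4)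
    linarith

end

end Pool.Agent.TH323.MBasis
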